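import Pool.Agent.Helper97.Hyp.LowerB

set_option autoImplicit false
set_option linter.unusedSectionVars false

namespace Pool.Agent.Helper97.Hyp

open Filter Topology

lemma limsup_exp {N : ℝ → ℕ} {C b : ℝ} (hC : 0 < C) (hN : ∀ᶠ r : ℝ in atTop, 1 ≤ N r)
    (h : ∀ᶠ r : ℝ in atTop, (N r : ℝ) ≤ C * Real.exp (b * r)) :
    IsBoundedUnder (· ≤ ·) atTop (fun r : ℝ => Real.log (N r : ℝ) / r) ∧
    IsBoundedUnder (· ≥ ·) atTop (fun r : ℝ => Real.log (N r : ℝ) / r) ∧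
    limsup (fun r : ℝ => Real.log (N r : ℝ) / r) atTop ≤ b := by
  have h1 : ∀ᶠ r : ℝ in atTop, Real.log (N r : ℝ) / r ≤ Real.log C / r + b := by
    filter_upwards [hN, h, eventually_gt_atTop 0] with r hr1 hr2 hr3
    have h2 : (0 : ℝ) < N r := by exact_mod_cast hr1
    have h3 : Real.log (N r : ℝ) ≤ Real.log C + b * r := by
      rw [← Real.log_exp (b * r), ← Real.log_mul hC.ne' (Real.exp_pos _).ne']
      exact Real.log_le_log h2 hr2
    rw [div_add' _ _ _ hr3.ne', div_le_div_iff_of_pos_right hr3]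
    exact h3
  have h2 : ∀ᶠ r : ℝ in atTop, 0 ≤ Real.log (N r : ℝ) / r := by
    filter_upwards [hN, eventually_gt_atTop 0] with r hr1 hr3
    have h2 : (1 : ℝ) ≤ N r := by exact_mod_cast hr1
    exact div_nonneg (Real.log_nonneg h2) hr3.le
  have h3 : Tendsto (fun r : ℝ => Real.log C / r + b) atTop (𝓝 (0 + b)) :=
    (tendsto_const_nhds.div_atTop tendsto_id).add_const b
  rw [zero_add] at h3
  have hb1 : IsBoundedUnder (· ≤ ·) atTop (fun r : ℝ => Real.log (N r : ℝ) / r) :=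
    h3.isBoundedUnder_le.mono_le h1
  have hb2 : IsBoundedUnder (· ≥ ·) atTop (fun r : ℝ => Real.log (N r : ℝ) / r) := ⟨0, by
    simpa using h2⟩
  refine ⟨hb1, hb2, ?_⟩
  rw [← h3.limsup_eq]
  exact limsup_le_limsup h1 hb2.isCoboundedUnder_le h3.isBoundedUnder_le

lemma limsup_half {N G : ℝ → ℕ} {A B t C b : ℝ} (hA : 0 ≤ A) (hB : 0 < B)
    (hC : 0 < C) (hN : ∀ r : ℝ, 0 ≤ r → 1 ≤ N r) (hG : ∀ r : ℝ, 0 ≤ r → 1 ≤ G r)
    (hNe : ∀ r : ℝ, 0 ≤ r → (N r : ℝ) ≤ C * Real.exp (b * r))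
    (h : ∀ r : ℝ, 0 ≤ r → (G r : ℝ) ≤ (A * r + B) * N (2 * r + t)) :
    limsup (fun r : ℝ => Real.log (G r : ℝ) / r) atTop / 2 ≤
      limsup (fun r : ℝ => Real.log (N r : ℝ) / r) atTop := by
  obtain ⟨hb1, hb2, -⟩ := limsup_exp hC ((eventually_ge_atTop 0).mono hN)
    ((eventually_ge_atTop 0).mono hNe)
  apply le_of_forall_pos_le_add
  intro ε hε
  set L := limsup (fun r : ℝ => Real.log (N r : ℝ) / r) atTop with hL
  have h1 : ∀ᶠ r : ℝ in atTop, Real.log (N r : ℝ) / r < L + ε / 2 :=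
    eventually_lt_of_limsup_lt (by rw [← hL]; linarith) hb1
  have h2 : ∀ᶠ r : ℝ in atTop, (N r : ℝ) ≤ Real.exp ((L + ε / 2) * r) := by
    filter_upwards [h1, eventually_gt_atTop 0] with r hr1 hr2
    have h3 : (0 : ℝ) < N r := by exact_mod_cast hN r hr2.le
    rw [← Real.log_le_iff_le_exp h3]
    rw [div_lt_iff₀ hr2] at hr1
    exact hr1.le
  have h4 : Tendsto (fun r : ℝ => 2 * r + t) atTop atTop :=
    tendsto_atTop_add_const_right _ _ (tendsto_id.const_mul_atTop (by norm_num))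
  have h5 := h4.eventually h2
  have h6 : ∀ᶠ r : ℝ in atTop, (G r : ℝ) ≤ ((A / ε + B) * Real.exp ((L + ε / 2) * t)) *
      Real.exp ((2 * L + 2 * ε) * r) := by
    filter_upwards [h5, eventually_ge_atTop 0] with r hr1 hr2
    have h7 : A * r + B ≤ (A / ε + B) * Real.exp (ε * r) := by
      have e1 := Real.add_one_le_exp (ε * r)
      have e2 : 1 ≤ Real.exp (ε * r) := Real.one_le_exp (by positivity)
      have e3 : A * r ≤ A / ε * Real.exp (ε * r) := by
        calc A * r = A / ε * (ε * r) := by field_simp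
          _ ≤ A / ε * Real.exp (ε * r) := by
            apply mul_le_mul_of_nonneg_left _ (by positivity)
            linarith
      nlinarith
    calc (G r : ℝ) ≤ (A * r + B) * N (2 * r + t) := h r hr2
      _ ≤ ((A / ε + B) * Real.exp (ε * r)) * Real.exp ((L + ε / 2) * (2 * r + t)) := by
          apply mul_le_mul h7 hr1 (Nat.cast_nonneg _) (by positivity)
      _ = _ := by
          rw [mul_assoc, mul_assoc, ← Real.exp_add, ← Real.exp_add]
          congr 2; ring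
  obtain ⟨-, -, h7⟩ := limsup_exp (by positivity) ((eventually_ge_atTop 0).mono hG) h6
  linarith

variable {X : Type*} [PseudoMetricSpace X] {ι : Type*}
variable {Γ : Type*} [Group Γ] [MulAction Γ X] [IsIsometricSMul Γ X]

lemma one_le_count {o : X} (hprop : ∀ r : ℝ, {γ : Γ | dist o (γ • o) ≤ r}.Finite) {S : Set Γ}
    (hS : (1 : Γ) ∈ S) {r : ℝ} (hr : 0 ≤ r) :
    1 ≤ {γ : Γ | γ ∈ S ∧ dist o (γ • o) ≤ r}.ncard := by
  rw [Nat.one_le_iff_ne_zero]
  apply Set.ncard_ne_zero_of_mem (a := (1 : Γ)) _ ((hprop r).subset fun γ hγ => hγ.2)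
  exact ⟨hS, by rwa [one_smul, dist_self]⟩

namespace Lox

variable {δ : ℝ} {o : X} {g : Γ}

/-- both bounds for the critical exponents -/
theorem assembly (h : Lox δ o g) (hprop : ∀ r : ℝ, {γ : Γ | dist o (γ • o) ≤ r}.Finite)
    (geo : Geo X) {C₀ a : ℝ} {y : ι → X} (ha : 0 ≤ a) (hC₀ : 0 ≤ C₀)
    (hY : ∀ η : ℝ, 0 < η → ∃ K, 0 ≤ K ∧ Net y C₀ K (a + η)) {ε : ℝ} (hε : 0 < ε) :
    ∃ k, Good g k ∧ dexp o (nk g k : Set Γ) ≤ a + ε ∧
      dexp o (Set.univ : Set Γ) / 2 ≤ dexp o (nk g k : Set Γ) := by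
  obtain ⟨K, hK, hnet⟩ := hY (ε / 2) (by positivity)
  obtain ⟨k, hk, C, hC, hup⟩ := h.core_upper hprop geo hnet (by positivity)
    (by positivity : 0 < ε / 2) hK hC₀
  have hN1 : ∀ r : ℝ, 0 ≤ r → 1 ≤ {n : Γ | n ∈ (nk g k : Set Γ) ∧ dist o (n • o) ≤ r}.ncard :=
    fun r hr => one_le_count hprop (one_mem _) hr
  have hG1 : ∀ r : ℝ, 0 ≤ r → 1 ≤ {n : Γ | n ∈ (Set.univ : Set Γ) ∧ dist o (n • o) ≤ r}.ncard :=
    fun r hr => one_le_count hprop (Set.mem_univ _) hr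
  have hup' : ∀ r : ℝ, 0 ≤ r →
      ({n : Γ | n ∈ (nk g k : Set Γ) ∧ dist o (n • o) ≤ r}.ncard : ℝ) ≤
        C * Real.exp ((a + ε) * r) := by
    intro r hr
    have := hup r hr
    rwa [show a + ε / 2 + ε / 2 = a + ε by ring] at this
  refine ⟨k, hk, ?_, ?_⟩
  · exact (limsup_exp hC ((eventually_ge_atTop 0).mono hN1)
      ((eventually_ge_atTop 0).mono hup')).2.2
  · set F := {f : Γ | dist o (f • o) ≤ c5 o g δ}.ncard with hF
    have hc5 := h.c5_nonneg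
    have htk : 0 ≤ tl o g k := dist_nonneg
    refine limsup_half (A := 4 * F) (B := (2 * c5 o g δ + 1) * F + 1) (t := tl o g k)
      (by positivity) (by positivity) hC hN1 hG1 hup' ?_
    intro r hr
    have h1 := h.conj_count hprop hk hr
    have h2 : {n : Γ | n ∈ (Set.univ : Set Γ) ∧ dist o (n • o) ≤ r} =
        {γ : Γ | dist o (γ • o) ≤ r} := by
      ext γ; simp
    rw [h2]
    have h3 : ((⌊2 * r + c5 o g δ⌋₊ : ℕ) : ℝ) ≤ 2 * r + c5 o g δ := Nat.floor_le (by positivity)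
    have h4 : ({γ : Γ | dist o (γ • o) ≤ r}.ncard : ℝ) ≤
        ((2 * ⌊2 * r + c5 o g δ⌋₊ + 1) * F) *
        {n : Γ | n ∈ nk g k ∧ dist o (n • o) ≤ 2 * r + tl o g k}.ncard := by exact_mod_cast h1
    refine h4.trans ?_
    apply mul_le_mul_of_nonneg_right _ (Nat.cast_nonneg _)
    have h5 : (0 : ℝ) ≤ F := Nat.cast_nonneg _
    nlinarith

end Lox

end Pool.Agent.Helper97.Hyp
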