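import Pool.Agent.Helper97.Hyp.Basic

set_option autoImplicit false
set_option linter.unusedSectionVars false

namespace Pool.Agent.Helper97.Hyp

variable {X : Type*} [PseudoMetricSpace X]
variable {Γ : Type*} [Group Γ] [MulAction Γ X] [IsIsometricSMul Γ X]

/-- displacement of the powers of `g` -/
noncomputable def tl (o : X) (g : Γ) (n : ℕ) : ℝ := dist o (g ^ n • o)

lemma dist_zpow (o : X) (g : Γ) (i j : ℤ) :
    dist (g ^ i • o) (g ^ j • o) = tl o g (j - i).natAbs := by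
  have h1 : dist (g ^ i • o) (g ^ j • o) = dist o (g ^ (j - i) • o) := by
    rw [← dist_smul (g ^ i) o (g ^ (j - i) • o), smul_smul, ← zpow_add]
    congr 3
    ring
  rw [h1, tl]
  rcases Int.natAbs_eq (j - i) with h | h
  · conv_lhs => rw [h]
    rw [zpow_natCast]
  · conv_lhs => rw [h]
    rw [zpow_neg, zpow_natCast, ← dist_smul (g ^ (j - i).natAbs) o, smul_inv_smul, dist_comm]

/-- hyperbolicity and the criterion for being loxodromic -/
structure Lox (δ : ℝ) (o : X) (g : Γ) : Prop where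
  hyp : GHyp X δ
  crit : dist o (g • o) + 4 * δ + 1 ≤ dist o (g ^ 2 • o)

namespace Lox

variable {δ : ℝ} {o : X} {g : Γ} (h : Lox δ o g)

include h

lemma δ_nonneg : 0 ≤ δ := h.hyp.nonneg o

omit h in
lemma tl_zero : tl o g 0 = 0 := by simp [tl]

omit h in
lemma dist_pow (m n : ℕ) : dist (g ^ m • o) (g ^ (m + n) • o) = tl o g n := by
  rw [pow_add, mul_smul, dist_smul, tl]

omit h in
lemma tl_sub (m n : ℕ) : tl o g (m + n) ≤ tl o g m + tl o g n := by
  have := dist_triangle o (g ^ m • o) (g ^ (m + n) • o)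
  rwa [dist_pow] at this

lemma incr (n : ℕ) : tl o g n + 2 * δ + 1 ≤ tl o g (n + 1) := by
  have hδ := h.δ_nonneg
  have hc := h.crit
  have h1 : tl o g 1 = dist o (g • o) := by simp [tl]
  have h2 : tl o g 2 = dist o (g ^ 2 • o) := rfl
  rw [← h1, ← h2] at hc
  induction n with
  | zero =>
    have h3 := tl_sub (o := o) (g := g) 1 1
    norm_num at h3
    rw [tl_zero]
    norm_num
    linarith
  | succ n ih =>
    rcases Nat.eq_zero_or_pos n with rfl | hn
    · norm_num; linarith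
    have h3 := h.hyp.cases o (g ^ (n + 1) • o) (g ^ n • o) (g ^ (n + 2) • o)
    rw [dist_pow n 2] at h3
    rw [show dist (g ^ (n + 1) • o) (g ^ (n + 2) • o) = tl o g 1 from dist_pow (n + 1) 1] at h3
    rw [dist_comm (g ^ (n + 1) • o) (g ^ n • o), dist_pow n 1] at h3
    change tl o g (n + 1) + tl o g 2 ≤ tl o g n + tl o g 1 + 2 * δ ∨
      tl o g (n + 1) + tl o g 2 ≤ tl o g (n + 2) + tl o g 1 + 2 * δ at h3
    change tl o g (n + 1) + 2 * δ + 1 ≤ tl o g (n + 2)
    rcases h3 with h3 | h3 <;> linarith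

lemma tl_mono_add (m n : ℕ) : tl o g m + n ≤ tl o g (m + n) := by
  have hδ := h.δ_nonneg
  induction n with
  | zero => simp
  | succ n ih =>
    have := h.incr (m + n)
    rw [← add_assoc]
    push_cast
    linarith

lemma tl_mono {m n : ℕ} (hmn : m ≤ n) : tl o g m ≤ tl o g n := by
  obtain ⟨k, rfl⟩ := Nat.exists_eq_add_of_le hmn
  have := h.tl_mono_add m k
  have : (0 : ℝ) ≤ k := Nat.cast_nonneg k
  linarith

lemma tl_ge (n : ℕ) : (n : ℝ) ≤ tl o g n := by
  have := h.tl_mono_add 0 n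
  rw [tl_zero, zero_add, zero_add] at this
  exact this

lemma tl_add (m n : ℕ) : tl o g m + tl o g n ≤ tl o g (m + n) + tl o g 1 := by
  have hδ := h.δ_nonneg
  rcases Nat.eq_zero_or_pos n with rfl | hn
  · have := h.tl_ge 1
    rw [tl_zero, add_zero, add_zero]
    push_cast at this
    linarith
  obtain ⟨n, rfl⟩ : ∃ n', n = n' + 1 := ⟨n - 1, by omega⟩
  have h3 := h.hyp.cases o (g ^ (m + 1) • o) (g ^ m • o) (g ^ (m + (n + 1)) • o)
  rw [dist_pow m (n + 1)] at h3
  rw [show dist (g ^ (m + 1) • o) (g ^ (m + (n + 1)) • o) = tl o g n by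
    rw [← dist_pow (m + 1) n]; congr 3; ring] at h3
  rw [dist_comm (g ^ (m + 1) • o) (g ^ m • o), dist_pow m 1] at h3
  change tl o g (m + 1) + tl o g (n + 1) ≤ tl o g m + tl o g n + 2 * δ ∨
      tl o g (m + 1) + tl o g (n + 1) ≤ tl o g (m + (n + 1)) + tl o g 1 + 2 * δ at h3
  have h4 := h.incr m
  have h5 := h.incr n
  rcases h3 with h3 | h3 <;> linarith

lemma tl_nat_le (n : ℕ) : tl o g n ≤ n * tl o g 1 := by
  induction n with
  | zero => rw [tl_zero]; simp
  | succ n ih =>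
    have := tl_sub (o := o) (g := g) n 1
    push_cast
    linarith

lemma zpow_ne {n : ℤ} (hn : n ≠ 0) : g ^ n ≠ 1 := by
  intro hg
  have h1 := dist_zpow o g 0 n
  rw [zpow_zero, one_smul, hg, one_smul, dist_self, sub_zero] at h1
  have h2 := h.tl_ge n.natAbs
  have h3 : 1 ≤ n.natAbs := by omega
  have h4 : (1 : ℝ) ≤ n.natAbs := by exact_mod_cast h3
  linarith

lemma chain {i m j : ℤ} (him : i ≤ m) (hmj : m ≤ j) :
    dist (g ^ i • o) (g ^ m • o) + dist (g ^ m • o) (g ^ j • o) ≤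
      dist (g ^ i • o) (g ^ j • o) + tl o g 1 := by
  rw [dist_zpow, dist_zpow, dist_zpow]
  have := h.tl_add (m - i).natAbs (j - m).natAbs
  have h2 : (j - i).natAbs = (m - i).natAbs + (j - m).natAbs := by omega
  rw [h2]
  exact this

/-- the window size -/
noncomputable def win (o : X) (g : Γ) (δ : ℝ) : ℕ := ⌈tl o g 1 + 2 * δ⌉₊ + 1

omit h in
lemma lt_win : tl o g 1 + 2 * δ < win o g δ := by
  unfold win
  push_cast
  have := Nat.le_ceil (tl o g 1 + 2 * δ)
  linarith

/-- constant of the coarse line -/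
noncomputable def c1 (o : X) (g : Γ) (δ : ℝ) : ℝ := tl o g (win o g δ) + 2 * δ

/-- the orbit of the cyclic group -/
def line (o : X) (g : Γ) : Set X := Set.range fun i : ℤ => g ^ i • o

lemma exists_min (p : X) : ∃ m : ℤ, ∀ j : ℤ, dist p (g ^ m • o) ≤ dist p (g ^ j • o) := by
  have hfin : {j : ℤ | dist p (g ^ j • o) ≤ dist p o}.Finite := by
    apply (Set.finite_Icc (-⌈2 * dist p o⌉) ⌈2 * dist p o⌉).subset
    intro j hj
    have hj' : dist p (g ^ j • o) ≤ dist p o := hj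
    have h1 := dist_zpow o g 0 j
    rw [zpow_zero, one_smul, sub_zero] at h1
    have h2 := h.tl_ge j.natAbs
    have h3 := dist_triangle o p (g ^ j • o)
    rw [dist_comm o p] at h3
    have h4 : (j.natAbs : ℝ) ≤ 2 * dist p o := by linarith
    have h5 : ((j.natAbs : ℤ) : ℝ) ≤ 2 * dist p o := by rw [Int.cast_natCast]; exact h4
    have h6 : (j.natAbs : ℤ) ≤ ⌈2 * dist p o⌉ := by
      have := Int.le_ceil (2 * dist p o)
      exact_mod_cast h5.trans this
    constructor <;> omega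
  have hne : {j : ℤ | dist p (g ^ j • o) ≤ dist p o}.Nonempty := ⟨0, by simp⟩
  obtain ⟨m, hm, hmin⟩ := Set.exists_min_image _ (fun j : ℤ => dist p (g ^ j • o)) hfin hne
  refine ⟨m, fun j => ?_⟩
  by_cases hj : dist p (g ^ j • o) ≤ dist p o
  · exact hmin j hj
  · push Not at hj
    have : dist p (g ^ m • o) ≤ dist p o := hm
    linarith

lemma isProj_line {p : X} {m : ℤ} (hm : ∀ j : ℤ, dist p (g ^ m • o) ≤ dist p (g ^ j • o)) :
    IsProj (c1 o g δ) (line o g) p (g ^ m • o) := by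
  have hδ := h.δ_nonneg
  refine ⟨⟨m, rfl⟩, ?_⟩
  rintro _ ⟨j, rfl⟩
  have hw := lt_win (δ := δ) (o := o) (g := g)
  have hw' := h.tl_ge (win o g δ)
  set t := win o g δ with ht
  simp only
  have key : ∀ r : ℤ, dist (g ^ m • o) (g ^ r • o) = tl o g t →
      dist (g ^ m • o) (g ^ r • o) + dist (g ^ r • o) (g ^ j • o) ≤
        dist (g ^ m • o) (g ^ j • o) + tl o g 1 →
      dist p (g ^ m • o) + dist (g ^ m • o) (g ^ j • o) ≤ dist p (g ^ j • o) + c1 o g δ := by
    intro r h1 h2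
    have h3 := hm r
    have h4 := h.hyp.cases p (g ^ r • o) (g ^ m • o) (g ^ j • o)
    rw [dist_comm (g ^ r • o) (g ^ m • o), h1] at h4
    rw [c1, ← ht]
    rcases h4 with h4 | h4 <;> linarith
  by_cases hlt : (j - m).natAbs < t
  · rw [dist_zpow, c1, ← ht]
    have := h.tl_mono hlt.le
    have := hm j
    linarith
  · push Not at hlt
    rcases le_total m j with hmj | hmj
    · apply key (m + t)
      · rw [dist_zpow]; congr 1; omega
      · exact h.chain (by omega) (by omega)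
    · apply key (m - t)
      · rw [dist_zpow]; congr 1; omega
      · have := h.chain (i := j) (m := m - t) (j := m) (by omega) (by omega)
        rw [dist_comm (g ^ j • o), dist_comm (g ^ (m - t) • o) (g ^ m • o),
          dist_comm (g ^ j • o) (g ^ m • o)] at this
        linarith

lemma tl_one_le_c1 : tl o g 1 ≤ c1 o g δ := by
  have hδ := h.δ_nonneg
  have : 1 ≤ win o g δ := by unfold win; omega
  have := h.tl_mono this
  unfold c1
  linarith

lemma qline : QLine (c1 o g δ) (line o g) where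
  proj p := by
    obtain ⟨m, hm⟩ := h.exists_min p
    exact ⟨_, h.isProj_line hm⟩
  lin := by
    rintro _ ⟨i, rfl⟩ _ ⟨j, rfl⟩ _ ⟨k, rfl⟩
    have h1 := h.tl_one_le_c1
    simp only
    have c := fun i m j h1 h2 => h.chain (i := i) (m := m) (j := j) h1 h2
    rcases le_total i j with hij | hij
    · rcases le_total j k with hjk | hjk
      · left
        have := c i j k hij hjk
        linarith
      · rcases le_total i k with hik | hik
        · right; left
          have := c i k j hik hjk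
          rw [dist_comm (g ^ k • o) (g ^ j • o)] at this
          linarith
        · right; right
          have := c k i j hik hij
          rw [dist_comm (g ^ k • o) (g ^ i • o), dist_comm (g ^ k • o) (g ^ j • o)] at this
          linarith
    · rcases le_total i k with hik | hik
      · right; right
        have := c j i k hij hik
        rw [dist_comm (g ^ j • o) (g ^ i • o)] at this
        linarith
      · rcases le_total j k with hjk | hjk
        · right; left
          have := c j k i hjk hik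
          rw [dist_comm (g ^ j • o) (g ^ i • o), dist_comm (g ^ k • o) (g ^ i • o)] at this
          linarith
        · left
          have := c k j i hjk hij
          rw [dist_comm (g ^ k • o) (g ^ j • o), dist_comm (g ^ k • o) (g ^ i • o),
            dist_comm (g ^ j • o) (g ^ i • o)] at this
          linarith

omit h in
/-- the commensurator of the cyclic group generated by `g` -/
def E (g : Γ) : Subgroup Γ where
  carrier := {γ | ∃ a b : ℤ, a ≠ 0 ∧ b ≠ 0 ∧ γ * g ^ a * γ⁻¹ = g ^ b}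
  one_mem' := ⟨1, 1, one_ne_zero, one_ne_zero, by simp⟩
  mul_mem' := by
    rintro γ γ' ⟨a, b, ha, hb, h1⟩ ⟨a', b', ha', hb', h2⟩
    refine ⟨a' * a, b * b', mul_ne_zero ha' ha, mul_ne_zero hb hb', ?_⟩
    calc γ * γ' * g ^ (a' * a) * (γ * γ')⁻¹ = γ * (γ' * g ^ a' * γ'⁻¹) ^ a * γ⁻¹ := by
          rw [conj_zpow, ← zpow_mul]; group
      _ = (γ * g ^ a * γ⁻¹) ^ b' := by rw [h2, conj_zpow, ← zpow_mul, ← zpow_mul, mul_comm]
      _ = _ := by rw [h1, ← zpow_mul]
  inv_mem' := by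
    rintro γ ⟨a, b, ha, hb, h1⟩
    refine ⟨b, a, hb, ha, ?_⟩
    rw [← h1]; group

omit h in
lemma mem_E {γ : Γ} : γ ∈ E g ↔ ∃ a b : ℤ, a ≠ 0 ∧ b ≠ 0 ∧ γ * g ^ a * γ⁻¹ = g ^ b := Iff.rfl

omit h in
lemma zpow_mem_E (i : ℤ) : g ^ i ∈ E g := by
  refine ⟨1, 1, one_ne_zero, one_ne_zero, ?_⟩
  group

omit h in
lemma mem_line_smul (b : ℤ) (x : X) : x ∈ line o g ↔ (g ^ b)⁻¹ • x ∈ line o g := by
  constructor
  · rintro ⟨i, rfl⟩
    refine ⟨i - b, ?_⟩
    simp only [smul_smul]
    rw [← zpow_neg, ← zpow_add]; congr 2; ring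
  · rintro ⟨i, hi⟩
    refine ⟨b + i, ?_⟩
    simp only at hi ⊢
    rw [zpow_add, mul_smul, hi, smul_inv_smul]

/-- thickness constant of the commensurator orbit -/
noncomputable def c5 (o : X) (g : Γ) (δ : ℝ) : ℝ := 2 * c1 o g δ + 2 * δ + tl o g 1 / 2

lemma E_near {e : Γ} (he : e ∈ E g) : ∃ j : ℤ, dist (e • o) (g ^ j • o) ≤ c5 o g δ := by
  obtain ⟨a, b, ha, hb, hab⟩ := he
  have hδ := h.δ_nonneg
  obtain ⟨j, hj⟩ := h.exists_min (e • o)
  refine ⟨j, ?_⟩
  have hp := h.isProj_line hj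
  set c := c1 o g δ with hc
  set n : ℕ := ⌈c + δ⌉₊ + 1 with hn
  have hn1 : c + δ < n := by
    rw [hn]; push_cast
    have := Nat.le_ceil (c + δ)
    linarith
  have hconj : e * g ^ (a * n) * e⁻¹ = g ^ (b * n) := by
    rw [zpow_mul, ← conj_zpow, hab, ← zpow_mul]
  have hconj' : e * g ^ (-(a * n)) * e⁻¹ = g ^ (-(b * n)) := by
    rw [zpow_neg, zpow_neg, ← hconj]; group
  have hq : g ^ (b * n) • e • o = e • g ^ (a * n) • o := by
    rw [← hconj, smul_smul, smul_smul]; congr 1; group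
  have hq' : g ^ (-(b * n)) • e • o = e • g ^ (-(a * n)) • o := by
    rw [← hconj', smul_smul, smul_smul]; congr 1; group
  have hproj := hp.smul (γ := g ^ (b * n)) (T := line o g) (mem_line_smul _)
  -- distances
  have d1 : dist (e • o) (g ^ (b * n) • e • o) = tl o g (a * n).natAbs := by
    rw [hq, dist_smul]
    have := dist_zpow o g 0 (a * n)
    rwa [zpow_zero, one_smul, sub_zero] at this
  have d2 : dist (g ^ (-(b * n)) • e • o) (g ^ (b * n) • e • o) =
      tl o g ((a * n).natAbs + (a * n).natAbs) := by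
    rw [hq, hq', dist_smul, dist_zpow]; congr 1; omega
  have d3 : dist (g ^ j • o) (g ^ (b * n) • g ^ j • o) = tl o g (b * n).natAbs := by
    rw [smul_smul, ← zpow_add, dist_zpow]; congr 1; omega
  have d4 : dist (g ^ (-(b * n)) • g ^ j • o) (g ^ j • o) = tl o g (b * n).natAbs := by
    rw [smul_smul, ← zpow_add, dist_zpow]; congr 1; omega
  have d5 : dist (g ^ (b * n) • e • o) (g ^ (b * n) • g ^ j • o) = dist (e • o) (g ^ j • o) :=
    dist_smul _ _ _
  have d6 : dist (g ^ (-(b * n)) • e • o) (g ^ (-(b * n)) • g ^ j • o) =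
      dist (e • o) (g ^ j • o) := dist_smul _ _ _
  have hbn : c + δ < tl o g (b * n).natAbs := by
    have h1 := h.tl_ge (b * n).natAbs
    have h2 : n ≤ (b * n).natAbs := by
      rw [Int.natAbs_mul, Int.natAbs_natCast]
      have : 1 ≤ b.natAbs := by omega
      nlinarith
    have h3 : (n : ℝ) ≤ ((b * n).natAbs : ℝ) := by exact_mod_cast h2
    linarith
  have h1 := far_of_proj h.hyp hp hproj (by rw [d3]; exact hbn)
  rw [d1, d3, d5] at h1
  have h2 := h.tl_add (a * n).natAbs (a * n).natAbs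
  have h3 := dist_triangle4 (g ^ (-(b * n)) • e • o) (g ^ (-(b * n)) • g ^ j • o)
    (g ^ (b * n) • g ^ j • o) (g ^ (b * n) • e • o)
  have h4 := dist_triangle (g ^ (-(b * n)) • g ^ j • o) (g ^ j • o) (g ^ (b * n) • g ^ j • o)
  rw [dist_comm (g ^ (b * n) • g ^ j • o) (g ^ (b * n) • e • o), d2, d5, d6] at h3
  rw [d3, d4] at h4
  unfold c5
  rw [← hc]
  linarith

lemma natAbs_le_of_conj {f : Γ} {a b : ℤ} (hab : f * g ^ a * f⁻¹ = g ^ b) :
    b.natAbs ≤ a.natAbs := by
  by_contra hcon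
  push Not at hcon
  set n : ℕ := ⌈2 * dist o (f • o)⌉₊ + 1 with hn
  have hn1 : 2 * dist o (f • o) < n := by
    rw [hn]; push_cast
    have := Nat.le_ceil (2 * dist o (f • o))
    linarith
  have hconj : f * g ^ (a * n) * f⁻¹ = g ^ (b * n) := by
    rw [zpow_mul, ← conj_zpow, hab, ← zpow_mul]
  have d1 : dist o (g ^ (a * n) • o) = tl o g (a * n).natAbs := by
    have := dist_zpow o g 0 (a * n)
    rwa [zpow_zero, one_smul, sub_zero] at this
  have d2 : dist o (g ^ (b * n) • o) = tl o g (b * n).natAbs := by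
    have := dist_zpow o g 0 (b * n)
    rwa [zpow_zero, one_smul, sub_zero] at this
  have h1 := dist_triangle4 o (f • o) (f • g ^ (a * n) • o) (g ^ (b * n) • o)
  have h2 : dist (f • g ^ (a * n) • o) (g ^ (b * n) • o) = dist o (f • o) := by
    rw [← hconj, mul_smul, mul_smul, dist_smul, dist_smul, ← dist_smul f, smul_inv_smul,
      dist_comm]
  rw [h2, dist_smul, d1, d2] at h1
  have h3 : (b * n).natAbs = (a * n).natAbs + (b.natAbs - a.natAbs) * n := by
    rw [Int.natAbs_mul, Int.natAbs_mul, Int.natAbs_natCast, ← add_mul]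
    congr 1; omega
  have h4 := h.tl_mono_add (a * n).natAbs ((b.natAbs - a.natAbs) * n)
  rw [← h3] at h4
  have h5 : n ≤ (b.natAbs - a.natAbs) * n := by
    have : 1 ≤ b.natAbs - a.natAbs := by omega
    nlinarith
  have h6 : (n : ℝ) ≤ (((b.natAbs - a.natAbs) * n : ℕ) : ℝ) := by exact_mod_cast h5
  linarith

lemma natAbs_eq_of_conj {f : Γ} {a b : ℤ} (hab : f * g ^ a * f⁻¹ = g ^ b) :
    b.natAbs = a.natAbs := by
  apply le_antisymm (h.natAbs_le_of_conj hab)
  apply h.natAbs_le_of_conj (f := f⁻¹)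
  rw [← hab]; group

lemma exists_pow {f : Γ} (hf : f ∈ E g) : ∃ a : ℕ, 0 < a ∧
    (f * g ^ (a : ℤ) * f⁻¹ = g ^ (a : ℤ) ∨ f * g ^ (a : ℤ) * f⁻¹ = g ^ (-(a : ℤ))) := by
  obtain ⟨a, b, ha, hb, hab⟩ := hf
  have h1 := h.natAbs_eq_of_conj hab
  refine ⟨a.natAbs, by omega, ?_⟩
  have hab' : f * g ^ (-a) * f⁻¹ = g ^ (-b) := by
    rw [zpow_neg, zpow_neg, ← hab]; group
  rcases Int.natAbs_eq a with h2 | h2
  · rw [← h2, hab]
    rcases Int.natAbs_eq b with h3 | h3
    · left; rw [h3, h1, ← h2]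
    · right; rw [h3, h1, ← h2]
  · have h4 : (a.natAbs : ℤ) = -a := by omega
    rw [h4, hab']
    rcases Int.natAbs_eq b with h3 | h3
    · right; rw [h3, h1, h4]
    · left; rw [h3, h1, h4, neg_neg]

omit h in
lemma conj_pow_mul {f : Γ} {a : ℕ} (m : ℕ)
    (hf : f * g ^ (a : ℤ) * f⁻¹ = g ^ (a : ℤ) ∨ f * g ^ (a : ℤ) * f⁻¹ = g ^ (-(a : ℤ))) :
    f * g ^ ((a * m : ℕ) : ℤ) * f⁻¹ = g ^ ((a * m : ℕ) : ℤ) ∨
      f * g ^ ((a * m : ℕ) : ℤ) * f⁻¹ = g ^ (-((a * m : ℕ) : ℤ)) := by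
  push_cast
  rcases hf with hf | hf
  · left
    rw [zpow_mul, ← conj_zpow, hf, ← zpow_mul]
  · right
    rw [zpow_mul, ← conj_zpow, hf, ← zpow_mul, neg_mul]

lemma exists_k0 (hprop : ∀ r : ℝ, {γ : Γ | dist o (γ • o) ≤ r}.Finite) :
    ∃ k : ℕ, 0 < k ∧ ∀ e ∈ E g,
      (e * g ^ (k : ℤ) * e⁻¹ = g ^ (k : ℤ) ∨ e * g ^ (k : ℤ) * e⁻¹ = g ^ (-(k : ℤ))) := by
  classical
  have hF := hprop (c5 o g δ)
  have hch : ∀ f : Γ, ∃ a : ℕ, 0 < a ∧ (f ∈ E g →
    (f * g ^ (a : ℤ) * f⁻¹ = g ^ (a : ℤ) ∨ f * g ^ (a : ℤ) * f⁻¹ = g ^ (-(a : ℤ)))) := by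
    intro f
    by_cases hf : f ∈ E g
    · obtain ⟨a, ha, h1⟩ := h.exists_pow hf
      exact ⟨a, ha, fun _ => h1⟩
    · exact ⟨1, one_pos, fun h => absurd h hf⟩
  choose a ha haE using hch
  refine ⟨∏ f ∈ hF.toFinset, a f, Finset.prod_pos fun f _ => ha f, ?_⟩
  intro e he
  obtain ⟨j, hj⟩ := h.E_near he
  set f := (g ^ j)⁻¹ * e with hf
  have hfE : f ∈ E g := mul_mem (inv_mem (zpow_mem_E j)) he
  have hfF : f ∈ hF.toFinset := by
    rw [Set.Finite.mem_toFinset]
    change dist o (f • o) ≤ c5 o g δ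
    rw [hf, mul_smul, ← dist_smul (g ^ j), smul_inv_smul, dist_comm]
    exact hj
  obtain ⟨m, hm⟩ := Finset.dvd_prod_of_mem a hfF
  rw [hm]
  have h1 := conj_pow_mul m (haE f hfE)
  have h2 : ∀ z : ℤ, e * g ^ z * e⁻¹ = g ^ j * (f * g ^ z * f⁻¹) * (g ^ j)⁻¹ := by
    intro z; rw [hf]; group
  rcases h1 with h1 | h1
  · left
    rw [h2, h1]
    group
  · right
    rw [h2, h1]
    group

end Lox

end Pool.Agent.Helper97.Hyp
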