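import Pool.Agent.Helper97.Hyp.Cocompact

set_option autoImplicit false
set_option linter.unusedSectionVars false

namespace Pool.Agent.Helper97.Hyp

open Filter Topology

lemma limsup_shift {N N' : ℝ → ℕ} {c C b : ℝ} (hC : 0 < C)
    (hN : ∀ r : ℝ, 0 ≤ r → 1 ≤ N r) (hN' : ∀ r : ℝ, 0 ≤ r → 1 ≤ N' r)
    (hNe : ∀ r : ℝ, 0 ≤ r → (N r : ℝ) ≤ C * Real.exp (b * r))
    (h : ∀ r : ℝ, 0 ≤ r → N' r ≤ N (r + c)) :
    limsup (fun r : ℝ => Real.log (N' r : ℝ) / r) atTop ≤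
      limsup (fun r : ℝ => Real.log (N r : ℝ) / r) atTop := by
  obtain ⟨hb1, hb2, -⟩ := limsup_exp hC ((eventually_ge_atTop 0).mono hN)
    ((eventually_ge_atTop 0).mono hNe)
  apply le_of_forall_pos_le_add
  intro ε hε
  set L := limsup (fun r : ℝ => Real.log (N r : ℝ) / r) atTop with hL
  have h1 : ∀ᶠ r : ℝ in atTop, Real.log (N r : ℝ) / r < L + ε :=
    eventually_lt_of_limsup_lt (by rw [← hL]; linarith) hb1
  have h2 : ∀ᶠ r : ℝ in atTop, (N r : ℝ) ≤ Real.exp ((L + ε) * r) := by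
    filter_upwards [h1, eventually_gt_atTop 0] with r hr1 hr2
    have h3 : (0 : ℝ) < N r := by exact_mod_cast hN r hr2.le
    rw [← Real.log_le_iff_le_exp h3]
    rw [div_lt_iff₀ hr2] at hr1
    exact hr1.le
  have h4 : Tendsto (fun r : ℝ => r + c) atTop atTop :=
    tendsto_atTop_add_const_right _ _ tendsto_id
  have h6 : ∀ᶠ r : ℝ in atTop, (N' r : ℝ) ≤ Real.exp ((L + ε) * c) *
      Real.exp ((L + ε) * r) := by
    filter_upwards [h4.eventually h2, eventually_ge_atTop 0] with r hr1 hr2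
    calc (N' r : ℝ) ≤ N (r + c) := by exact_mod_cast h r hr2
      _ ≤ _ := hr1
      _ = _ := by rw [← Real.exp_add]; congr 1; ring
  exact (limsup_exp (Real.exp_pos _) ((eventually_ge_atTop 0).mono hN') h6).2.2

variable {X : Type*} [PseudoMetricSpace X]
variable {Γ : Type*} [Group Γ] [MulAction Γ X] [IsIsometricSMul Γ X]

lemma prop_change {o o' : X} (hprop : ∀ r : ℝ, {γ : Γ | dist o (γ • o) ≤ r}.Finite) (r : ℝ) :
    {γ : Γ | dist o' (γ • o') ≤ r}.Finite := by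
  apply (hprop (r + 2 * dist o o')).subset
  intro γ hγ
  have h1 : dist o' (γ • o') ≤ r := hγ
  change dist o (γ • o) ≤ r + 2 * dist o o'
  have h2 := dist_triangle4 o o' (γ • o') (γ • o)
  rw [dist_smul, dist_comm o' o] at h2
  linarith

lemma exp_change {o o' : X} (hprop : ∀ r : ℝ, {γ : Γ | dist o (γ • o) ≤ r}.Finite)
    (hexp : ∃ C b : ℝ, 0 < C ∧ ∀ r : ℝ, 0 ≤ r →
      ({γ : Γ | dist o (γ • o) ≤ r}.ncard : ℝ) ≤ C * Real.exp (b * r)) :
    ∃ C b : ℝ, 0 < C ∧ ∀ r : ℝ, 0 ≤ r →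
      ({γ : Γ | dist o' (γ • o') ≤ r}.ncard : ℝ) ≤ C * Real.exp (b * r) := by
  obtain ⟨C, b, hC, h⟩ := hexp
  refine ⟨C * Real.exp (b * (2 * dist o o')), b, by positivity, ?_⟩
  intro r hr
  have h1 : {γ : Γ | dist o' (γ • o') ≤ r}.ncard ≤
      {γ : Γ | dist o (γ • o) ≤ r + 2 * dist o o'}.ncard := by
    apply Set.ncard_le_ncard _ (hprop _)
    intro γ hγ
    have h1 : dist o' (γ • o') ≤ r := hγ
    change dist o (γ • o) ≤ r + 2 * dist o o'
    have h2 := dist_triangle4 o o' (γ • o') (γ • o)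
    rw [dist_smul, dist_comm o' o] at h2
    linarith
  calc ({γ : Γ | dist o' (γ • o') ≤ r}.ncard : ℝ) ≤
        ({γ : Γ | dist o (γ • o) ≤ r + 2 * dist o o'}.ncard : ℝ) := by exact_mod_cast h1
    _ ≤ C * Real.exp (b * (r + 2 * dist o o')) := h _ (by positivity)
    _ = _ := by rw [mul_assoc, ← Real.exp_add]; congr 2; ring

lemma dexp_change_le {o o' : X} (hprop : ∀ r : ℝ, {γ : Γ | dist o (γ • o) ≤ r}.Finite)
    (hexp : ∃ C b : ℝ, 0 < C ∧ ∀ r : ℝ, 0 ≤ r →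
      ({γ : Γ | dist o (γ • o) ≤ r}.ncard : ℝ) ≤ C * Real.exp (b * r))
    {S : Set Γ} (hS : (1 : Γ) ∈ S) : dexp o' S ≤ dexp o S := by
  obtain ⟨C, b, hC, h⟩ := hexp
  unfold dexp
  apply limsup_shift (c := 2 * dist o o') hC (fun r hr => one_le_count hprop hS hr)
    (fun r hr => one_le_count (prop_change hprop) hS hr) (b := b)
  · intro r hr
    have h1 : {γ : Γ | γ ∈ S ∧ dist o (γ • o) ≤ r}.ncard ≤ {γ : Γ | dist o (γ • o) ≤ r}.ncard :=
      Set.ncard_le_ncard (fun γ hγ => hγ.2) (hprop _)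
    exact le_trans (by exact_mod_cast h1) (h r hr)
  · intro r hr
    apply Set.ncard_le_ncard _ ((hprop _).subset fun γ hγ => hγ.2)
    rintro γ ⟨hγS, hγ⟩
    refine ⟨hγS, ?_⟩
    have h2 := dist_triangle4 o o' (γ • o') (γ • o)
    rw [dist_smul, dist_comm o' o] at h2
    linarith

lemma dexp_change {o o' : X} (hprop : ∀ r : ℝ, {γ : Γ | dist o (γ • o) ≤ r}.Finite)
    (hexp : ∃ C b : ℝ, 0 < C ∧ ∀ r : ℝ, 0 ≤ r →
      ({γ : Γ | dist o (γ • o) ≤ r}.ncard : ℝ) ≤ C * Real.exp (b * r))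
    {S : Set Γ} (hS : (1 : Γ) ∈ S) : dexp o' S = dexp o S :=
  le_antisymm (dexp_change_le hprop hexp hS)
    (dexp_change_le (prop_change hprop) (exp_change hprop hexp) hS)

end Pool.Agent.Helper97.Hyp
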