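import Mathlib

set_option autoImplicit false

namespace Pool.Agent.Helper97.Hyp

/-- four point hyperbolicity -/
def GHyp (X : Type*) [PseudoMetricSpace X] (δ : ℝ) : Prop :=
  ∀ x y z w : X, dist x y + dist z w ≤ max (dist x z + dist y w) (dist x w + dist y z) + 2 * δ

variable {X : Type*} [PseudoMetricSpace X]

lemma GHyp.cases {δ : ℝ} (h : GHyp X δ) (x y z w : X) :
    dist x y + dist z w ≤ dist x z + dist y w + 2 * δ ∨
      dist x y + dist z w ≤ dist x w + dist y z + 2 * δ := by
  have h1 := h x y z w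
  rcases le_total (dist x z + dist y w) (dist x w + dist y z) with h2 | h2
  · rw [max_eq_right h2] at h1; exact Or.inr h1
  · rw [max_eq_left h2] at h1; exact Or.inl h1

lemma GHyp.nonneg {δ : ℝ} (h : GHyp X δ) (x : X) : 0 ≤ δ := by
  have := h x x x x
  simp at this
  linarith

/-- `π` is a coarse projection of `p` on `S` -/
def IsProj (c : ℝ) (S : Set X) (p π : X) : Prop :=
  π ∈ S ∧ ∀ s ∈ S, dist p π + dist π s ≤ dist p s + c

/-- coarse lines -/
structure QLine (c : ℝ) (S : Set X) : Prop where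
  proj : ∀ p, ∃ π, IsProj c S p π
  lin : ∀ a ∈ S, ∀ b ∈ S, ∀ e ∈ S, dist a b + dist b e ≤ dist a e + c ∨
    dist b e + dist a e ≤ dist a b + c ∨ dist a e + dist a b ≤ dist b e + c

lemma IsProj.c_nonneg {c : ℝ} {S : Set X} {p π : X} (h : IsProj c S p π) : 0 ≤ c := by
  have := h.2 π h.1
  simp at this
  linarith

/-- projection distance -/
noncomputable def pd (S : Set X) (p q : X) : ℝ :=
  ⨆ t : S × S, ((dist p t.1 - dist p t.2) - (dist q t.1 - dist q t.2)) / 2

lemma pd_bdd (S : Set X) (p q : X) : BddAbove (Set.range fun t : S × S =>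
    ((dist p t.1 - dist p t.2) - (dist q t.1 - dist q t.2)) / 2) := by
  refine ⟨dist p q, ?_⟩
  rintro _ ⟨t, rfl⟩
  have h1 := dist_triangle p q (t.1 : X)
  have h2 := dist_triangle q p (t.2 : X)
  rw [dist_comm q p] at h2
  simp only
  linarith

lemma le_pd {S : Set X} {p q a b : X} (ha : a ∈ S) (hb : b ∈ S) :
    ((dist p a - dist p b) - (dist q a - dist q b)) / 2 ≤ pd S p q :=
  le_ciSup (pd_bdd S p q) (⟨a, ha⟩, ⟨b, hb⟩)

lemma pd_le {S : Set X} (hS : S.Nonempty) {p q : X} {r : ℝ}
    (h : ∀ a ∈ S, ∀ b ∈ S, ((dist p a - dist p b) - (dist q a - dist q b)) / 2 ≤ r) :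
    pd S p q ≤ r := by
  obtain ⟨s, hs⟩ := hS
  have : Nonempty (S × S) := ⟨(⟨s, hs⟩, ⟨s, hs⟩)⟩
  exact ciSup_le fun t => h _ t.1.2 _ t.2.2

lemma pd_le_dist {S : Set X} (hS : S.Nonempty) (p q : X) : pd S p q ≤ dist p q := by
  apply pd_le hS
  intro a _ b _
  have h1 := dist_triangle p q a
  have h2 := dist_triangle q p b
  rw [dist_comm q p] at h2
  linarith

lemma pd_self {S : Set X} (hS : S.Nonempty) (p : X) : pd S p p = 0 := by
  apply le_antisymm
  · have := pd_le_dist hS p p
    rwa [dist_self] at this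
  · obtain ⟨s, hs⟩ := hS
    have := le_pd (p := p) (q := p) hs hs
    simpa using this

lemma pd_nonneg {S : Set X} (hS : S.Nonempty) (p q : X) : 0 ≤ pd S p q := by
  obtain ⟨s, hs⟩ := hS
  have := le_pd (p := p) (q := q) hs hs
  simpa using this

lemma pd_symm {S : Set X} (hS : S.Nonempty) (p q : X) : pd S p q = pd S q p := by
  apply le_antisymm
  · apply pd_le hS
    intro a ha b hb
    have := le_pd (p := q) (q := p) hb ha
    linarith
  · apply pd_le hS
    intro a ha b hb
    have := le_pd (p := p) (q := q) hb ha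
    linarith

lemma pd_tri {S : Set X} (hS : S.Nonempty) (p q s : X) : pd S p s ≤ pd S p q + pd S q s := by
  apply pd_le hS
  intro a ha b hb
  have h1 := le_pd (p := p) (q := q) ha hb
  have h2 := le_pd (p := q) (q := s) ha hb
  linarith

section proj

variable {c δ : ℝ} {S : Set X} {p q p' q' : X}

lemma pd_le_of_proj (hp : IsProj c S p p') (hq : IsProj c S q q') :
    pd S p q ≤ dist p' q' + c := by
  apply pd_le ⟨p', hp.1⟩
  intro a ha b hb
  have h1 := dist_triangle p p' a
  have h2 := hp.2 b hb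
  have h3 := hq.2 a ha
  have h4 := dist_triangle q q' b
  have h5 := dist_triangle p' q' a
  have h6 := dist_triangle q' p' b
  rw [dist_comm q' p'] at h6
  linarith

lemma le_pd_of_proj (hp : IsProj c S p p') (hq : IsProj c S q q') :
    dist p' q' ≤ pd S p q + c := by
  have h1 := le_pd (p := p) (q := q) hq.1 hp.1
  have h2 := hp.2 q' hq.1
  have h3 := hq.2 p' hp.1
  rw [dist_comm q' p'] at h3
  linarith

lemma far_of_proj (h : GHyp X δ) (hp : IsProj c S p p') (hq : IsProj c S q q')
    (hfar : c + δ < dist p' q') :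
    dist p p' + dist p' q' + dist q q' ≤ dist p q + 2 * c + 2 * δ := by
  have h1 := hp.2 q' hq.1
  have h2 := hq.2 p' hp.1
  rw [dist_comm q' p'] at h2
  rcases h.cases p q' q p' with h3 | h3
  · rw [dist_comm q' p'] at h3
    linarith
  · rw [dist_comm q' q] at h3
    linarith

lemma far_of_pd (h : GHyp X δ) (hp : IsProj c S p p') (hq : IsProj c S q q')
    (hfar : 2 * c + δ < pd S p q) :
    dist p p' + pd S p q + dist q q' ≤ dist p q + 3 * c + 2 * δ := by
  have h1 := pd_le_of_proj hp hq
  have h2 := far_of_proj h hp hq (by linarith)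
  linarith

lemma dist_le_of_proj (hp : IsProj c S p p') (hq : IsProj c S q q') :
    dist p q ≤ dist p p' + pd S p q + dist q q' + c := by
  have h1 := le_pd_of_proj hp hq
  have h2 := dist_triangle p p' q
  have h3 := dist_triangle p' q' q
  rw [dist_comm q' q] at h3
  linarith

lemma proj_dist_le (hp : IsProj c S p p') {s : X} (hs : s ∈ S) : dist p p' ≤ dist p s + c := by
  have := hp.2 s hs
  have := dist_nonneg (x := p') (y := s)
  linarith

lemma QLine.pd_lin (hS : QLine c S) (p q s : X) :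
    pd S p q + pd S q s ≤ pd S p s + 4 * c ∨ pd S q s + pd S p s ≤ pd S p q + 4 * c ∨
      pd S p s + pd S p q ≤ pd S q s + 4 * c := by
  obtain ⟨p', hp⟩ := hS.proj p
  obtain ⟨q', hq⟩ := hS.proj q
  obtain ⟨s', hs⟩ := hS.proj s
  have h1 := pd_le_of_proj hp hq
  have h2 := pd_le_of_proj hp hs
  have h3 := pd_le_of_proj hq hs
  have h4 := le_pd_of_proj hp hq
  have h5 := le_pd_of_proj hp hs
  have h6 := le_pd_of_proj hq hs
  rcases hS.lin p' hp.1 q' hq.1 s' hs.1 with h | h | h
  · left; linarith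
  · right; left; linarith
  · right; right; linarith

end proj

section thicken

variable {c c' : ℝ} {S T : Set X}

/-- thickening of coarse lines -/
lemma QLine.thicken (hS : QLine c S) (hST : S ⊆ T) (hc' : 0 ≤ c')
    (h : ∀ t ∈ T, ∃ s ∈ S, dist t s ≤ c') : QLine (c + 6 * c') T where
  proj p := by
    obtain ⟨π, hπ⟩ := hS.proj p
    refine ⟨π, hST hπ.1, ?_⟩
    intro t ht
    obtain ⟨s, hs, hd⟩ := h t ht
    have h1 := hπ.2 s hs
    have h2 := dist_triangle π s t
    have h3 := dist_triangle p t s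
    rw [dist_comm s t] at h2
    linarith
  lin a ha b hb e he := by
    obtain ⟨a', ha', hda⟩ := h a ha
    obtain ⟨b', hb', hdb⟩ := h b hb
    obtain ⟨e', he', hde⟩ := h e he
    have key : ∀ x y x' y' : X, dist x x' ≤ c' → dist y y' ≤ c' →
        dist x y ≤ dist x' y' + 2 * c' ∧ dist x' y' ≤ dist x y + 2 * c' := by
      intro x y x' y' h1 h2
      have h3 := dist_triangle4 x x' y' y
      have h4 := dist_triangle4 x' x y y'
      rw [dist_comm y' y] at h3
      rw [dist_comm x' x] at h4
      constructor <;> linarith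
    have h1 := key a b a' b' hda hdb
    have h2 := key b e b' e' hdb hde
    have h3 := key a e a' e' hda hde
    rcases hS.lin a' ha' b' hb' e' he' with h | h | h
    · left; linarith
    · right; left; linarith
    · right; right; linarith

end thicken

section action

variable {Γ : Type*} [Group Γ] [MulAction Γ X] [IsIsometricSMul Γ X]

variable {S T : Set X} {γ : Γ}

lemma IsProj.smul {c : ℝ} (hT : ∀ x, x ∈ T ↔ γ⁻¹ • x ∈ S) {p π : X} (h : IsProj c S p π) :
    IsProj c T (γ • p) (γ • π) := by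
  refine ⟨by rw [hT, inv_smul_smul]; exact h.1, ?_⟩
  intro s hs
  have h1 := h.2 _ ((hT s).mp hs)
  have h2 : dist π (γ⁻¹ • s) = dist (γ • π) s := by
    rw [← dist_smul γ π, smul_inv_smul]
  have h3 : dist p (γ⁻¹ • s) = dist (γ • p) s := by
    rw [← dist_smul γ p, smul_inv_smul]
  rw [dist_smul]
  linarith

lemma QLine.smul {c : ℝ} (hT : ∀ x, x ∈ T ↔ γ⁻¹ • x ∈ S) (h : QLine c S) : QLine c T where
  proj p := by
    obtain ⟨π, hπ⟩ := h.proj (γ⁻¹ • p)
    refine ⟨γ • π, ?_⟩
    have := hπ.smul hT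
    rwa [smul_inv_smul] at this
  lin a ha b hb e he := by
    have := h.lin _ ((hT a).mp ha) _ ((hT b).mp hb) _ ((hT e).mp he)
    simpa only [dist_smul] using this

lemma pd_smul (hS : S.Nonempty) (hT : ∀ x, x ∈ T ↔ γ⁻¹ • x ∈ S) (p q : X) :
    pd T (γ • p) (γ • q) = pd S p q := by
  obtain ⟨s, hs⟩ := hS
  have key : ∀ p x : X, dist (γ • p) x = dist p (γ⁻¹ • x) := by
    intro p x
    rw [← dist_smul γ p, smul_inv_smul]
  apply le_antisymm
  · apply pd_le ⟨γ • s, by rw [hT, inv_smul_smul]; exact hs⟩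
    intro a ha b hb
    rw [key, key, key, key]
    exact le_pd ((hT a).mp ha) ((hT b).mp hb)
  · apply pd_le ⟨s, hs⟩
    intro a ha b hb
    have h1 : γ • a ∈ T := by rw [hT, inv_smul_smul]; exact ha
    have h2 : γ • b ∈ T := by rw [hT, inv_smul_smul]; exact hb
    have := le_pd (p := γ • p) (q := γ • q) h1 h2
    simpa only [dist_smul] using this

end action

end Pool.Agent.Helper97.Hyp
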