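import Pool.Agent.Helper97.Hyp.NonElem

set_option autoImplicit false
set_option linter.unusedSectionVars false

namespace Pool.Agent.Helper97.Hyp

open Filter Topology

variable {X : Type*} [PseudoMetricSpace X]
variable {Γ : Type*} [Group Γ] [MulAction Γ X] [IsIsometricSMul Γ X]

lemma Lox.nk_infinite {δ : ℝ} {o : X} {g : Γ} (h : Lox δ o g) {k : ℕ} (hk : Lox.Good g k) :
    (Lox.nk g k : Set Γ).Infinite := by
  apply Set.infinite_of_injective_forall_mem (f := fun m : ℤ => (g ^ (k : ℤ)) ^ m)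
  · intro m m' heq
    by_contra hne
    simp only [← zpow_mul] at heq
    have h1 : g ^ ((k : ℤ) * (m - m')) = 1 := by
      rw [mul_sub, zpow_sub, heq, mul_inv_cancel]
    refine h.zpow_ne (mul_ne_zero ?_ (sub_ne_zero.mpr hne)) h1
    exact_mod_cast hk.1.ne'
  · intro m
    exact Subgroup.zpow_mem _ (Lox.pow_mem_nk hk) m

/-- from the bounds to the limit -/
theorem Lox.seq {δ : ℝ} {o : X} {g : Γ} (h : Lox δ o g)
    (hprop : ∀ r : ℝ, {γ : Γ | dist o (γ • o) ≤ r}.Finite)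
    (geo : Geo X) {ι : Type*} {C₀ : ℝ} {y : ι → X} (hC₀ : 0 ≤ C₀)
    (hpos : 0 < dexp o (Set.univ : Set Γ))
    (hY : ∀ η : ℝ, 0 < η → ∃ K, 0 ≤ K ∧ Net y C₀ K (dexp o (Set.univ : Set Γ) / 2 + η)) :
    ∃ N : ℕ → Subgroup Γ, (∀ i, (N i).Normal ∧ (N i : Set Γ).Infinite) ∧
      Tendsto (fun i => dexp o (N i : Set Γ) / dexp o (Set.univ : Set Γ)) atTop (𝓝 (1 / 2)) := by
  set L := dexp o (Set.univ : Set Γ) with hL
  have h1 : ∀ i : ℕ, ∃ k, Lox.Good g k ∧ dexp o (Lox.nk g k : Set Γ) ≤ L / 2 + 1 / ((i : ℝ) + 1) ∧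
      L / 2 ≤ dexp o (Lox.nk g k : Set Γ) := by
    intro i
    exact h.assembly hprop geo (by positivity) hC₀ hY (by positivity)
  choose k hk hk1 hk2 using h1
  refine ⟨fun i => Lox.nk g (k i), fun i => ⟨⟨fun n hn γ => Lox.nk_normal (hk i) γ hn⟩,
    h.nk_infinite (hk i)⟩, ?_⟩
  have h2 : Tendsto (fun i : ℕ => 1 / 2 + (1 / ((i : ℝ) + 1)) / L) atTop (𝓝 (1 / 2 + 0 / L)) :=
    (tendsto_one_div_add_atTop_nhds_zero_nat.div_const L).const_add (1 / 2)
  rw [zero_div, add_zero] at h2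
  apply tendsto_of_tendsto_of_tendsto_of_le_of_le tendsto_const_nhds h2
  · intro i
    simp only
    rw [le_div_iff₀ hpos]
    have := hk2 i
    linarith
  · intro i
    simp only
    rw [div_le_iff₀ hpos, add_mul, div_mul_cancel₀ _ hpos.ne']
    have := hk1 i
    linarith

/-- the cocompact case -/
theorem main_cocompact {δ : ℝ} (hyp : GHyp X δ) (geo : Geo X) {o : X} {C₀ : ℝ}
    (hprop : ∀ r : ℝ, {γ : Γ | dist o (γ • o) ≤ r}.Finite) (hco : Cobdd Γ o C₀)
    (hne : ∀ g : Γ, ¬ (Subgroup.zpowers g).FiniteIndex) :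
    0 < dexp o (Set.univ : Set Γ) ∧
    ∃ N : ℕ → Subgroup Γ, (∀ i, (N i).Normal ∧ (N i : Set Γ).Infinite) ∧
      Tendsto (fun i => dexp o (N i : Set Γ) / dexp o (Set.univ : Set Γ)) atTop (𝓝 (1 / 2)) := by
  have hC₀ : 0 ≤ C₀ := by
    obtain ⟨γ, hγ⟩ := hco o
    exact dist_nonneg.trans hγ
  have hinf : Infinite Γ := by
    by_contra hfin
    rw [not_infinite_iff_finite] at hfin
    exact hne 1 (Subgroup.finiteIndex_of_finite_quotient)
  obtain ⟨g, hg⟩ := exists_lox hyp geo hprop hco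
  have hexp := exp_bound geo hprop hco
  obtain ⟨γ, hγ⟩ := hg.exists_notMem_E hprop (hne g)
  have hpos := hg.dexp_pos hprop hexp hγ
  exact ⟨hpos, hg.seq hprop geo hC₀ hpos fun η hη => orbit_net hprop hco hexp hη⟩

/-- discrete groups of isometries of proper spaces have finite displacement balls -/
theorem finite_of_discrete {X : Type*} [MetricSpace X] [ProperSpace X] (Γ : Subgroup (X ≃ᵢ X))
    {K : Set X} (hK : IsCompact K) {ε : ℝ} (hε : 0 < ε)
    (h : ∀ γ ∈ Γ, (∀ x ∈ K, dist (γ x) x < ε) → γ = 1) (o : X) (r : ℝ) :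
    {γ : X ≃ᵢ X | γ ∈ Γ ∧ dist o (γ o) ≤ r}.Finite := by
  classical
  obtain ⟨D, hD⟩ := hK.isBounded.subset_closedBall o
  obtain ⟨t, htK, htf, ht⟩ := hK.finite_cover_balls (show 0 < ε / 4 by positivity)
  have hB : IsCompact (Metric.closedBall o (r + D)) := isCompact_closedBall _ _
  obtain ⟨u, huB, huf, hu⟩ := hB.finite_cover_balls (show 0 < ε / 8 by positivity)
  have hex : ∀ γ : X ≃ᵢ X, ∀ y : X, ∃ v : X, (γ ∈ Γ ∧ dist o (γ o) ≤ r) → y ∈ t →
      v ∈ u ∧ dist (γ y) v < ε / 8 := by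
    intro γ y
    by_cases hc : (γ ∈ Γ ∧ dist o (γ o) ≤ r) ∧ y ∈ t
    · have h1 : γ y ∈ Metric.closedBall o (r + D) := by
        rw [Metric.mem_closedBall, dist_comm]
        have h2 := dist_triangle o (γ o) (γ y)
        rw [γ.isometry.dist_eq] at h2
        have h3 : dist y o ≤ D := hD (htK hc.2)
        rw [dist_comm y o] at h3
        linarith [hc.1.2]
      have h2 := hu h1
      rw [Set.mem_iUnion₂] at h2
      obtain ⟨v, hv, hd⟩ := h2
      exact ⟨v, fun _ _ => ⟨hv, hd⟩⟩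
    · exact ⟨y, fun h1 h2 => absurd ⟨h1, h2⟩ hc⟩
  choose φ hφ using hex
  have hfin_t : Finite t := htf
  have hfin_u : Finite u := huf
  by_cases hu0 : u.Nonempty
  swap
  · rw [Set.not_nonempty_iff_eq_empty] at hu0
    apply Set.Finite.subset (Set.finite_singleton (1 : X ≃ᵢ X))
    intro γ hγ
    apply h γ hγ.1
    intro x hx
    have h2 := ht hx
    rw [Set.mem_iUnion₂] at h2
    obtain ⟨y, hy, -⟩ := h2
    have := (hφ γ y hγ hy).1
    rw [hu0] at this
    exact this.elim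
  obtain ⟨u₀, hu₀⟩ := hu0
  set F : (X ≃ᵢ X) → (t → u) := fun γ y =>
    if hm : φ γ y ∈ u then ⟨φ γ y, hm⟩ else ⟨u₀, hu₀⟩ with hF
  apply Set.Finite.of_finite_image (f := F) (Set.toFinite _)
  intro γ hγ γ' hγ' heq
  have h1 : ∀ y ∈ t, φ γ y = φ γ' y := by
    intro y hy
    have h2 := congrFun heq ⟨y, hy⟩
    simp only [hF] at h2
    rw [dif_pos (hφ γ y hγ hy).1, dif_pos (hφ γ' y hγ' hy).1] at h2
    exact congrArg Subtype.val h2
  have h3 : γ'⁻¹ * γ = 1 := by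
    apply h _ (mul_mem (inv_mem hγ'.1) hγ.1)
    intro x hx
    have h2 := ht hx
    rw [Set.mem_iUnion₂] at h2
    obtain ⟨y, hy, hd⟩ := h2
    have hd' : dist x y < ε / 4 := hd
    have e1 := (hφ γ y hγ hy).2
    have e2 := (hφ γ' y hγ' hy).2
    rw [← h1 y hy] at e2
    have e3 : dist ((γ'⁻¹ * γ) x) x = dist (γ x) (γ' x) := by
      rw [← γ'.isometry.dist_eq ((γ'⁻¹ * γ) x) x]
      congr 1
      exact γ'.apply_symm_apply (γ x)
    rw [e3]
    have e4 := dist_triangle4 (γ x) (γ y) (γ' y) (γ' x)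
    have e5 := dist_triangle (γ y) (φ γ y) (γ' y)
    rw [γ.isometry.dist_eq, γ'.isometry.dist_eq] at e4
    rw [dist_comm (φ γ y)] at e5
    rw [dist_comm y x] at e4
    linarith
  exact (inv_mul_eq_one.mp h3).symm

end Pool.Agent.Helper97.Hyp
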