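import Pool.Agent.Helper97.Hyp.Basic

set_option autoImplicit false
set_option linter.unusedSectionVars false

namespace Pool.Agent.Helper97.Hyp

/-- geodesic spaces, in the form that is used -/
def Geo (X : Type*) [PseudoMetricSpace X] : Prop :=
  ∀ x y : X, ∀ t : ℝ, 0 ≤ t → t ≤ dist x y → ∃ m, dist x m = t ∧ dist m y = dist x y - t

variable {X : Type*} [PseudoMetricSpace X] {ι ν : Type*}

/-- nets of controlled growth -/
structure Net (y : ι → X) (C₀ K a : ℝ) : Prop where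
  dense : ∀ z, ∃ i, dist z (y i) ≤ C₀
  fin : ∀ z r, {i | dist z (y i) ≤ r}.Finite
  count : ∀ z r, 0 ≤ r → ({i | dist z (y i) ≤ r}.ncard : ℝ) ≤ K * Real.exp (2 * a * r)

/-- very sparse point systems -/
structure Pts (q : ν → X) (R : ℝ) : Prop where
  fin : ∀ z r, {n | dist z (q n) ≤ r}.Finite
  sep : ∀ n m, n ≠ m → 2 * R < dist (q n) (q m)
  three : ∀ z (n : Fin 3 → ν), Function.Injective n →
    (∀ i m, dist z (q (n i)) ≤ dist z (q m) + 2 * R) →
    (∀ i j, i ≠ j → dist z (q (n i)) + dist z (q (n j)) ≤ dist (q (n i)) (q (n j)) + 2 * R) →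
    False

lemma Pts.germs {q : ν → X} {R : ℝ} (hq : Pts q R) [Nonempty ν] (z : X) : ∃ n₁ n₂ : ν,
    ∀ n, (∀ m, dist z (q n) ≤ dist z (q m) + 2 * R) →
      (n = n₁ ∨ dist (q n) (q n₁) + 2 * R < dist z (q n) + dist z (q n₁)) ∨
      (n = n₂ ∨ dist (q n) (q n₂) + 2 * R < dist z (q n) + dist z (q n₂)) := by
  by_cases h0 : ∃ n, ∀ m, dist z (q n) ≤ dist z (q m) + 2 * R
  swap
  · obtain ⟨n₀⟩ := ‹Nonempty ν›
    exact ⟨n₀, n₀, fun n hn => absurd ⟨n, hn⟩ h0⟩
  obtain ⟨n₁, hn₁⟩ := h0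
  by_cases h1 : ∀ n, (∀ m, dist z (q n) ≤ dist z (q m) + 2 * R) →
      (n = n₁ ∨ dist (q n) (q n₁) + 2 * R < dist z (q n) + dist z (q n₁))
  · exact ⟨n₁, n₁, fun n hn => Or.inl (h1 n hn)⟩
  push Not at h1
  obtain ⟨n₂, hn₂, hne, hd⟩ := h1
  refine ⟨n₁, n₂, fun n hn => ?_⟩
  by_contra hcon
  push Not at hcon
  obtain ⟨⟨hne1, hd1⟩, ⟨hne2, hd2⟩⟩ := hcon
  have e1 := hd
  have e2 := hd1
  have e3 := hd2
  rw [dist_comm (q n₂) (q n₁)] at e1
  rw [dist_comm (q n) (q n₁)] at e2
  rw [dist_comm (q n) (q n₂)] at e3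
  apply hq.three z ![n₁, n₂, n]
  · intro i j hij
    fin_cases i <;> fin_cases j <;> simp_all [eq_comm]
  · intro i m
    fin_cases i
    · exact hn₁ m
    · exact hn₂ m
    · exact hn m
  · intro i j hij
    fin_cases i <;> fin_cases j <;> simp at hij ⊢ <;> linarith

/-- counting in shadows -/
lemma shadow {δ C₀ K a : ℝ} (hyp : GHyp X δ) (geo : Geo X) {y : ι → X} (hY : Net y C₀ K a)
    (hK : 0 ≤ K) (z u : X) {s R : ℝ} (hs : 0 ≤ s) (hsR : s ≤ R) :
    {i | dist z (y i) ≤ R ∧ 2 * s ≤ dist z (y i) + dist z u - dist (y i) u}.Finite ∧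
    ({i | dist z (y i) ≤ R ∧ 2 * s ≤ dist z (y i) + dist z u - dist (y i) u}.ncard : ℝ) ≤
      K * Real.exp (2 * a * (R - s + 2 * δ)) := by
  have hδ := hyp.nonneg z
  by_cases hsu : s ≤ dist z u
  · obtain ⟨w, hw1, hw2⟩ := geo z u s hs hsu
    have hsub : {i | dist z (y i) ≤ R ∧ 2 * s ≤ dist z (y i) + dist z u - dist (y i) u} ⊆
        {i | dist w (y i) ≤ R - s + 2 * δ} := by
      rintro i ⟨hi1, hi2⟩
      change dist w (y i) ≤ R - s + 2 * δ
      rcases hyp.cases w (y i) z u with h | h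
      · rw [dist_comm w z] at h
        linarith
      · rw [dist_comm (y i) z] at h
        linarith
    refine ⟨(hY.fin w _).subset hsub, ?_⟩
    calc _ ≤ ({i | dist w (y i) ≤ R - s + 2 * δ}.ncard : ℝ) := by
          exact_mod_cast Set.ncard_le_ncard hsub (hY.fin w _)
      _ ≤ _ := hY.count w _ (by linarith)
  · push Not at hsu
    have hem : {i | dist z (y i) ≤ R ∧ 2 * s ≤ dist z (y i) + dist z u - dist (y i) u} = ∅ := by
      rw [Set.eq_empty_iff_forall_notMem]
      rintro i ⟨hi1, hi2⟩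
      have := dist_triangle z u (y i)
      rw [dist_comm u (y i)] at this
      linarith
    rw [hem]
    refine ⟨Set.finite_empty, ?_⟩
    rw [Set.ncard_empty]
    push_cast
    positivity

/-- multiplicative constant -/
noncomputable def lam (K R₀ C₀ δ a : ℝ) : ℝ :=
  2 * K * (R₀ + C₀ + 1) * Real.exp (a * (R₀ + 3 * C₀ + 6 * δ + 2))

theorem sum_bound {δ C₀ K a R₀ : ℝ} (hyp : GHyp X δ) (geo : Geo X) {y : ι → X}
    (hY : Net y C₀ K a) (ha : 0 ≤ a) (hK : 0 ≤ K) (hC₀ : 0 ≤ C₀) (hR₀ : C₀ ≤ R₀)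
    {q : ν → X} (hq : Pts q (R₀ + C₀)) [Nonempty ν] {nn : X → ℝ}
    (hnn : ∀ z, ∃ n, nn z = dist z (q n)) (hnn' : ∀ z n, nn z ≤ dist z (q n)) (z : X)
    (Z : Finset ι) (hZ : ∀ i ∈ Z, R₀ - C₀ ≤ dist z (y i) ∧ dist z (y i) ≤ R₀ + C₀) :
    ∑ i ∈ Z, Real.exp (-a * nn (y i)) ≤ lam K R₀ C₀ δ a * Real.exp (-a * nn z) := by
  classical
  have hδ := hyp.nonneg z
  obtain ⟨n₁, n₂, h12⟩ := hq.germs z
  choose nr hnr using hnn
  set t : ι → ℝ := fun i => (dist z (y i) + dist z (q (nr (y i))) - nn (y i)) / 2 with ht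
  have ht0 : ∀ i, 0 ≤ t i := by
    intro i
    simp only [ht]
    have := dist_triangle (y i) z (q (nr (y i)))
    rw [hnr, dist_comm z (y i)]
    linarith
  have ht1 : ∀ i, t i ≤ dist z (y i) := by
    intro i
    simp only [ht]
    have := dist_triangle z (y i) (q (nr (y i)))
    rw [hnr]
    linarith
  have hmaps : ∀ i ∈ Z, ⌊t i⌋₊ ∈ Finset.range (⌊R₀ + C₀⌋₊ + 1) := by
    intro i hi
    rw [Finset.mem_range, Nat.lt_succ_iff]
    exact Nat.floor_mono ((ht1 i).trans (hZ i hi).2)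
  rw [← Finset.sum_fiberwise_of_maps_to hmaps]
  have hB : ∀ j ∈ Finset.range (⌊R₀ + C₀⌋₊ + 1),
      ∑ i ∈ Z with ⌊t i⌋₊ = j, Real.exp (-a * nn (y i)) ≤
        2 * K * Real.exp (a * (R₀ + 3 * C₀ + 6 * δ + 2)) * Real.exp (-a * nn z) := by
    intro j _
    rcases (Z.filter (fun i => ⌊t i⌋₊ = j)).eq_empty_or_nonempty with he | ⟨i₀, hi₀⟩
    · rw [he, Finset.sum_empty]; positivity
    have hjt : ∀ i, ⌊t i⌋₊ = j → (j : ℝ) ≤ t i ∧ t i < j + 1 := by
      intro i hi
      rw [← hi]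
      exact ⟨Nat.floor_le (ht0 i), Nat.lt_floor_add_one _⟩
    have hjR : (j : ℝ) ≤ R₀ + C₀ := by
      rw [Finset.mem_filter] at hi₀
      have h1 := (hjt i₀ hi₀.2).1
      have h2 := ht1 i₀
      have h3 := (hZ i₀ hi₀.1).2
      linarith
    set s : ℝ := max 0 (j - δ) with hs
    have hs0 : 0 ≤ s := le_max_left _ _
    have hs1 : (j : ℝ) - δ ≤ s := le_max_right _ _
    have hsj : s ≤ j := by
      rw [hs]
      apply max_le (Nat.cast_nonneg j)
      linarith
    have hsh := fun u => shadow hyp geo hY hK z u hs0 (hsj.trans hjR)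
    have hterm : ∀ i ∈ Z.filter (fun i => ⌊t i⌋₊ = j), Real.exp (-a * nn (y i)) ≤
        Real.exp (-a * (nn z + (R₀ - C₀) - 2 * (j + 1))) := by
      intro i hi
      rw [Finset.mem_filter] at hi
      apply Real.exp_le_exp.mpr
      have h1 := (hjt i hi.2).2
      have h2 := (hZ i hi.1).1
      have h3 := hnn' z (nr (y i))
      have h4 : nn (y i) = dist z (y i) + dist z (q (nr (y i))) - 2 * t i := by
        simp only [ht]; ring
      have h5 : nn z + (R₀ - C₀) - 2 * (j + 1) ≤ nn (y i) := by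
        rw [h4]; linarith
      nlinarith
    have hcard : ((Z.filter (fun i => ⌊t i⌋₊ = j)).card : ℝ) ≤
        2 * (K * Real.exp (2 * a * (R₀ + C₀ - s + 2 * δ))) := by
      have hsub : (↑(Z.filter (fun i => ⌊t i⌋₊ = j)) : Set ι) ⊆
          {i | dist z (y i) ≤ R₀ + C₀ ∧
            2 * s ≤ dist z (y i) + dist z (q n₁) - dist (y i) (q n₁)} ∪
          {i | dist z (y i) ≤ R₀ + C₀ ∧
            2 * s ≤ dist z (y i) + dist z (q n₂) - dist (y i) (q n₂)} := by
        intro i hi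
        rw [Finset.mem_coe, Finset.mem_filter] at hi
        have h1 := (hjt i hi.2).1
        have h2 := (hZ i hi.1).2
        have halm : ∀ m, dist z (q (nr (y i))) ≤ dist z (q m) + 2 * (R₀ + C₀) := by
          intro m
          have e1 := hnn' (y i) m
          have e2 := dist_triangle z (y i) (q (nr (y i)))
          have e3 := dist_triangle (y i) z (q m)
          rw [← hnr] at e2
          rw [dist_comm (y i) z] at e3
          linarith
        have hj0 : (0 : ℝ) ≤ j := Nat.cast_nonneg j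
        have key : ∀ l, (nr (y i) = l ∨ dist (q (nr (y i))) (q l) + 2 * (R₀ + C₀) <
            dist z (q (nr (y i))) + dist z (q l)) →
            2 * s ≤ dist z (y i) + dist z (q l) - dist (y i) (q l) := by
          intro l hl
          have hnonneg : 0 ≤ dist z (y i) + dist z (q l) - dist (y i) (q l) := by
            have := dist_triangle (y i) z (q l)
            rw [dist_comm (y i) z] at this
            linarith
          have hj : 2 * ((j : ℝ) - δ) ≤ dist z (y i) + dist z (q l) - dist (y i) (q l) := by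
            rcases hl with hl | hl
            · simp only [ht] at h1
              rw [hnr, hl] at h1
              linarith
            · simp only [ht] at h1
              rw [hnr] at h1
              rcases hyp.cases (y i) (q l) z (q (nr (y i))) with h3 | h3
              · rw [dist_comm (y i) z, dist_comm (q l) (q (nr (y i)))] at h3
                linarith
              · rw [dist_comm (q l) z] at h3
                linarith
          rw [hs]
          rcases le_total 0 ((j : ℝ) - δ) with h3 | h3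
          · rw [max_eq_right h3]; exact hj
          · rw [max_eq_left h3]; linarith
        rcases h12 (nr (y i)) halm with h3 | h3
        · left; exact ⟨h2, key _ h3⟩
        · right; exact ⟨h2, key _ h3⟩
      have h1 := Set.ncard_le_ncard hsub ((hsh (q n₁)).1.union (hsh (q n₂)).1)
      rw [Set.ncard_coe_finset] at h1
      have h2 := h1.trans (Set.ncard_union_le _ _)
      have h3 := (Nat.cast_le (α := ℝ)).mpr h2
      have h4 := (hsh (q n₁)).2
      have h5 := (hsh (q n₂)).2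
      push_cast at h3
      linarith
    calc _ ≤ ∑ i ∈ Z with ⌊t i⌋₊ = j, Real.exp (-a * (nn z + (R₀ - C₀) - 2 * (j + 1))) :=
          Finset.sum_le_sum hterm
      _ = ((Z.filter (fun i => ⌊t i⌋₊ = j)).card : ℝ) *
          Real.exp (-a * (nn z + (R₀ - C₀) - 2 * (j + 1))) := by
          rw [Finset.sum_const, nsmul_eq_mul]
      _ ≤ 2 * (K * Real.exp (2 * a * (R₀ + C₀ - s + 2 * δ))) *
          Real.exp (-a * (nn z + (R₀ - C₀) - 2 * (j + 1))) := by
          apply mul_le_mul_of_nonneg_right hcard (Real.exp_pos _).le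
      _ = 2 * K * (Real.exp (2 * a * (R₀ + C₀ - s + 2 * δ)) *
          Real.exp (-a * (nn z + (R₀ - C₀) - 2 * (j + 1)))) := by ring
      _ ≤ 2 * K * (Real.exp (a * (R₀ + 3 * C₀ + 6 * δ + 2)) * Real.exp (-a * nn z)) := by
          apply mul_le_mul_of_nonneg_left _ (by positivity)
          rw [← Real.exp_add, ← Real.exp_add]
          apply Real.exp_le_exp.mpr
          nlinarith
      _ = _ := by ring
  calc _ ≤ ∑ j ∈ Finset.range (⌊R₀ + C₀⌋₊ + 1),
        2 * K * Real.exp (a * (R₀ + 3 * C₀ + 6 * δ + 2)) * Real.exp (-a * nn z) :=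
        Finset.sum_le_sum hB
    _ = ((⌊R₀ + C₀⌋₊ + 1 : ℕ) : ℝ) *
        (2 * K * Real.exp (a * (R₀ + 3 * C₀ + 6 * δ + 2)) * Real.exp (-a * nn z)) := by
        rw [Finset.sum_const, nsmul_eq_mul, Finset.card_range]
    _ ≤ (R₀ + C₀ + 1) *
        (2 * K * Real.exp (a * (R₀ + 3 * C₀ + 6 * δ + 2)) * Real.exp (-a * nn z)) := by
        apply mul_le_mul_of_nonneg_right _ (by positivity)
        push_cast
        have := Nat.floor_le (by linarith : 0 ≤ R₀ + C₀)
        linarith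
    _ = _ := by unfold lam; ring

theorem count_bound {δ C₀ K a R₀ : ℝ} (hyp : GHyp X δ) (geo : Geo X) {y : ι → X}
    (hY : Net y C₀ K a) (ha : 0 ≤ a) (hK : 0 ≤ K) (hC₀ : 0 ≤ C₀) (hR₀ : C₀ ≤ R₀)
    {q : ν → X} (hq : Pts q (R₀ + C₀)) [Nonempty ν] {nn : X → ℝ}
    (hnn : ∀ z, ∃ n, nn z = dist z (q n)) (hnn' : ∀ z n, nn z ≤ dist z (q n)) (j : ℕ) (z : X) :
    ({n | dist z (q n) ≤ j * (R₀ - C₀) + R₀}.ncard : ℝ) ≤
      Real.exp (a * R₀) * (lam K R₀ C₀ δ a + 1) ^ j * Real.exp (-a * nn z) := by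
  classical
  have hδ := hyp.nonneg z
  have hR₀' : 0 ≤ R₀ := hC₀.trans hR₀
  have hlam : 0 ≤ lam K R₀ C₀ δ a := by unfold lam; positivity
  have base : ∀ z : X, ({n | dist z (q n) ≤ R₀}.ncard : ℝ) ≤
      Real.exp (a * R₀) * Real.exp (-a * nn z) := by
    intro z
    rcases {n | dist z (q n) ≤ R₀}.eq_empty_or_nonempty with he | ⟨n₀, hn₀⟩
    · rw [he, Set.ncard_empty]; push_cast; positivity
    · have h1 : {n | dist z (q n) ≤ R₀}.ncard ≤ 1 := by
        rw [Set.ncard_le_one (hq.fin z R₀)]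
        intro n hn m hm
        by_contra hne
        have h2 := hq.sep n m hne
        have h3 := dist_triangle (q n) z (q m)
        rw [dist_comm (q n) z] at h3
        have h4 : dist z (q n) ≤ R₀ := hn
        have h5 : dist z (q m) ≤ R₀ := hm
        linarith
      have h2 : ({n | dist z (q n) ≤ R₀}.ncard : ℝ) ≤ 1 := by exact_mod_cast h1
      apply h2.trans
      rw [← Real.exp_add]
      apply Real.one_le_exp
      have h3 : nn z ≤ R₀ := (hnn' z n₀).trans hn₀
      nlinarith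
  induction j generalizing z with
  | zero =>
    have := base z
    simpa using this
  | succ j ih =>
    have hfin : {i | R₀ - C₀ ≤ dist z (y i) ∧ dist z (y i) ≤ R₀ + C₀}.Finite :=
      (hY.fin z (R₀ + C₀)).subset fun i hi => hi.2
    set Z := hfin.toFinset with hZdef
    have hZ : ∀ i, i ∈ Z ↔ R₀ - C₀ ≤ dist z (y i) ∧ dist z (y i) ≤ R₀ + C₀ := by
      intro i
      rw [hZdef, Set.Finite.mem_toFinset]
      rfl
    have hsub : {n | dist z (q n) ≤ ((j + 1 : ℕ) : ℝ) * (R₀ - C₀) + R₀} ⊆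
        {n | dist z (q n) ≤ R₀} ∪ ⋃ i ∈ Z, {n | dist (y i) (q n) ≤ j * (R₀ - C₀) + R₀} := by
      intro n hn
      have hn' : dist z (q n) ≤ ((j + 1 : ℕ) : ℝ) * (R₀ - C₀) + R₀ := hn
      push_cast at hn'
      by_cases h1 : dist z (q n) ≤ R₀
      · left; exact h1
      · right
        push Not at h1
        obtain ⟨w, hw1, hw2⟩ := geo z (q n) R₀ (by linarith) h1.le
        obtain ⟨i, hi⟩ := hY.dense w
        have e1 := dist_triangle z w (y i)
        have e2 := dist_triangle z (y i) w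
        have e3 := dist_triangle (y i) w (q n)
        rw [dist_comm (y i) w] at e2 e3
        rw [Set.mem_iUnion₂]
        refine ⟨i, (hZ i).mpr ⟨by linarith, by linarith⟩, ?_⟩
        change dist (y i) (q n) ≤ j * (R₀ - C₀) + R₀
        linarith
    have hfinU : (⋃ i ∈ Z, {n | dist (y i) (q n) ≤ j * (R₀ - C₀) + R₀}).Finite :=
      Set.Finite.biUnion (Finset.finite_toSet Z) fun i _ => hq.fin _ _
    have h1 := Set.ncard_le_ncard hsub ((hq.fin z R₀).union hfinU)
    have h2 := h1.trans (Set.ncard_union_le _ _)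
    have h3 := Finset.set_ncard_biUnion_le Z
      (fun i => {n | dist (y i) (q n) ≤ j * (R₀ - C₀) + R₀})
    have h4 := h2.trans (Nat.add_le_add_left h3 _)
    have h5 : ({n | dist z (q n) ≤ ((j + 1 : ℕ) : ℝ) * (R₀ - C₀) + R₀}.ncard : ℝ) ≤
        ({n | dist z (q n) ≤ R₀}.ncard : ℝ) +
          ∑ i ∈ Z, ({n | dist (y i) (q n) ≤ j * (R₀ - C₀) + R₀}.ncard : ℝ) := by
      exact_mod_cast h4
    have h6 : ∑ i ∈ Z, ({n | dist (y i) (q n) ≤ j * (R₀ - C₀) + R₀}.ncard : ℝ) ≤
        Real.exp (a * R₀) * (lam K R₀ C₀ δ a + 1) ^ j *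
          (lam K R₀ C₀ δ a * Real.exp (-a * nn z)) := by
      calc _ ≤ ∑ i ∈ Z, Real.exp (a * R₀) * (lam K R₀ C₀ δ a + 1) ^ j *
            Real.exp (-a * nn (y i)) := Finset.sum_le_sum fun i _ => ih (y i)
        _ = Real.exp (a * R₀) * (lam K R₀ C₀ δ a + 1) ^ j *
            ∑ i ∈ Z, Real.exp (-a * nn (y i)) := by rw [← Finset.mul_sum]
        _ ≤ _ := by
          apply mul_le_mul_of_nonneg_left _ (by positivity)
          exact sum_bound hyp geo hY ha hK hC₀ hR₀ hq hnn hnn' z Z fun i hi => (hZ i).mp hi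
    have h7 := base z
    have h8 : (1 : ℝ) ≤ (lam K R₀ C₀ δ a + 1) ^ j := one_le_pow₀ (by linarith)
    calc _ ≤ _ := h5
      _ ≤ Real.exp (a * R₀) * Real.exp (-a * nn z) +
          Real.exp (a * R₀) * (lam K R₀ C₀ δ a + 1) ^ j *
          (lam K R₀ C₀ δ a * Real.exp (-a * nn z)) := add_le_add h7 h6
      _ ≤ (lam K R₀ C₀ δ a + 1) ^ j * (Real.exp (a * R₀) * Real.exp (-a * nn z)) +
          Real.exp (a * R₀) * (lam K R₀ C₀ δ a + 1) ^ j *
          (lam K R₀ C₀ δ a * Real.exp (-a * nn z)) :=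
          add_le_add (le_mul_of_one_le_left (by positivity) h8) le_rfl
      _ = _ := by rw [pow_succ]; ring

end Pool.Agent.Helper97.Hyp
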