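import Pool.Agent.Helper97.Hyp.Assembly

set_option autoImplicit false
set_option linter.unusedSectionVars false

namespace Pool.Agent.Helper97.Hyp

open Filter Topology

variable {X : Type*} [PseudoMetricSpace X]
variable {Γ : Type*} [Group Γ] [MulAction Γ X] [IsIsometricSMul Γ X]

/-- hyperbolicity seen from `o` -/
lemma GHyp.min_le {δ : ℝ} (h : GHyp X δ) (o a b c : X) {t : ℝ}
    (h1 : dist o a + dist o b - dist a b ≤ t) (h2 : t + 2 * δ < dist o a + dist o c - dist a c) :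
    dist o c + dist o b - dist c b ≤ t + 2 * δ := by
  rcases h.cases a b o c with h3 | h3
  · rw [dist_comm a o, dist_comm b c] at h3
    linarith
  · rw [dist_comm b o] at h3
    linarith

/-- two long elements in different directions give a loxodromic element -/
theorem lox_of_pair {δ : ℝ} (h : GHyp X δ) (o : X) (g₁ g₂ : Γ) {c : ℝ} (hc : 0 ≤ c)
    (hP : dist o (g₁ • o) + dist o (g₂ • o) ≤ dist (g₁ • o) (g₂ • o) + 2 * c)
    (h1 : 2 * c + 8 * δ + 2 < dist o (g₁ • o)) (h2 : 2 * c + 8 * δ + 2 < dist o (g₂ • o)) :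
    ∃ g : Γ, Lox δ o g := by
  have hδ := h.nonneg o
  by_contra hcon
  push Not at hcon
  have hsq : ∀ g : Γ, dist o (g ^ 2 • o) = dist (g⁻¹ • o) (g • o) := by
    intro g
    rw [← dist_smul g (g⁻¹ • o), smul_inv_smul, smul_smul, pow_two]
  have hinv : ∀ g : Γ, dist o (g⁻¹ • o) = dist o (g • o) := by
    intro g
    rw [← dist_smul g, smul_inv_smul, dist_comm]
  have hfail : ∀ g : Γ, dist o (g ^ 2 • o) < dist o (g • o) + 4 * δ + 1 := by
    intro g
    by_contra hge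
    push Not at hge
    exact hcon g ⟨h, hge⟩
  have f1 := hfail g₁
  have f2 := hfail g₂
  have f3 := hfail (g₁ * g₂)
  rw [hsq] at f1 f2 f3
  -- step 1
  have s1 := h.min_le o (g₁ • o) (g₂ • o) (g₁⁻¹ • o) (t := 2 * c) (by linarith)
    (by rw [hinv, dist_comm (g₁ • o)]; linarith)
  rw [hinv] at s1
  have e1 : dist (g₁⁻¹ • o) (g₂ • o) = dist o ((g₁ * g₂) • o) := by
    rw [← dist_smul g₁, smul_inv_smul, mul_smul]
  rw [e1] at s1
  have e2 : dist (g₁ • o) ((g₁ * g₂) • o) = dist o (g₂ • o) := by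
    rw [mul_smul, dist_smul]
  have e3 : dist ((g₁ * g₂)⁻¹ • o) (g₂⁻¹ • o) = dist o (g₁ • o) := by
    rw [mul_inv_rev, mul_smul, dist_smul, dist_comm, hinv]
  -- step 2
  have s2 := h.min_le o (g₁ • o) (g₂ • o) ((g₁ * g₂) • o) (t := 2 * c) (by linarith)
    (by rw [e2]; linarith)
  -- step 3
  have s3 := h.min_le o (g₂ • o) ((g₁ * g₂) • o) (g₂⁻¹ • o) (t := 2 * c + 2 * δ)
    (by rw [dist_comm (g₂ • o)]; linarith) (by rw [hinv, dist_comm (g₂ • o)]; linarith)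
  rw [hinv] at s3
  -- step 4
  have s4 := h.min_le o (g₂⁻¹ • o) ((g₁ * g₂) • o) ((g₁ * g₂)⁻¹ • o) (t := 2 * c + 4 * δ)
    (by rw [hinv]; linarith) (by rw [hinv, hinv, dist_comm (g₂⁻¹ • o), e3]; linarith)
  rw [hinv] at s4
  linarith

/-- coarse density of an orbit -/
def Cobdd (Γ : Type*) [Group Γ] [MulAction Γ X] (o : X) (C₀ : ℝ) : Prop :=
  ∀ z : X, ∃ γ : Γ, dist z (γ • o) ≤ C₀

lemma exists_far {o : X} [Infinite Γ] (hprop : ∀ r : ℝ, {γ : Γ | dist o (γ • o) ≤ r}.Finite)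
    (S : ℝ) : ∃ γ : Γ, S < dist o (γ • o) := by
  by_contra hcon
  push Not at hcon
  have h1 : {γ : Γ | dist o (γ • o) ≤ S} = Set.univ := by
    ext γ; simp [hcon γ]
  have h2 := hprop S
  rw [h1] at h2
  exact Set.infinite_univ h2

theorem exists_lox {δ : ℝ} (h : GHyp X δ) (geo : Geo X) {o : X} {C₀ : ℝ} [Infinite Γ]
    (hprop : ∀ r : ℝ, {γ : Γ | dist o (γ • o) ≤ r}.Finite) (hco : Cobdd Γ o C₀) :
    ∃ g : Γ, Lox δ o g := by
  have hC₀ : 0 ≤ C₀ := by
    obtain ⟨γ, hγ⟩ := hco o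
    exact dist_nonneg.trans hγ
  have hδ := h.nonneg o
  obtain ⟨γ, hγ⟩ := exists_far hprop (2 * (3 * C₀ + 8 * δ + 2))
  obtain ⟨m, hm1, hm2⟩ := geo o (γ • o) (dist o (γ • o) / 2) (by positivity)
    (by have := dist_nonneg (x := o) (y := γ • o); linarith)
  obtain ⟨β, hβ⟩ := hco m
  have e1 : dist o (β⁻¹ • o) = dist o (β • o) := by
    rw [← dist_smul β, smul_inv_smul, dist_comm]
  have e2 : dist o ((β⁻¹ * γ) • o) = dist (β • o) (γ • o) := by
    rw [← dist_smul β, mul_smul, smul_inv_smul]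
  have e3 : dist (β⁻¹ • o) ((β⁻¹ * γ) • o) = dist o (γ • o) := by
    rw [mul_smul, dist_smul]
  have t1 := dist_triangle o (β • o) m
  have t2 := dist_triangle o m (β • o)
  have t3 := dist_triangle m (β • o) (γ • o)
  have t4 := dist_triangle (β • o) m (γ • o)
  rw [dist_comm (β • o) m] at t1 t4
  apply lox_of_pair h o β⁻¹ (β⁻¹ * γ) hC₀
  · rw [e1, e2, e3]; linarith
  · rw [e1]; linarith
  · rw [e2]; linarith

/-- at most exponential growth -/
theorem exp_bound (geo : Geo X) {o : X} {C₀ : ℝ}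
    (hprop : ∀ r : ℝ, {γ : Γ | dist o (γ • o) ≤ r}.Finite) (hco : Cobdd Γ o C₀) :
    ∃ C b : ℝ, 0 < C ∧ ∀ r : ℝ, 0 ≤ r →
      ({γ : Γ | dist o (γ • o) ≤ r}.ncard : ℝ) ≤ C * Real.exp (b * r) := by
  classical
  have hC₀ : 0 ≤ C₀ := by
    obtain ⟨γ, hγ⟩ := hco o
    exact dist_nonneg.trans hγ
  set G : ℝ → ℕ := fun r => {γ : Γ | dist o (γ • o) ≤ r}.ncard with hG
  have hstep : ∀ n : ℕ, G (C₀ + (n + 1 : ℕ)) ≤ G (C₀ + n) * G (2 * C₀ + 1) := by
    intro n
    have h1 : {γ : Γ | dist o (γ • o) ≤ C₀ + (n + 1 : ℕ)} ⊆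
        (fun p : Γ × Γ => p.1 * p.2) ''
        ({γ : Γ | dist o (γ • o) ≤ C₀ + n} ×ˢ {γ : Γ | dist o (γ • o) ≤ 2 * C₀ + 1}) := by
      intro γ hγ
      have hγ' : dist o (γ • o) ≤ C₀ + (n + 1 : ℕ) := hγ
      push_cast at hγ'
      set t := max 0 (dist o (γ • o) - (C₀ + 1)) with ht
      have ht0 : 0 ≤ t := le_max_left _ _
      have ht1 : dist o (γ • o) - (C₀ + 1) ≤ t := le_max_right _ _
      have ht2 : t ≤ dist o (γ • o) := max_le dist_nonneg (by linarith)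
      have ht3 : t + C₀ ≤ C₀ + n := by
        have : t ≤ n := by
          apply max_le (Nat.cast_nonneg n)
          linarith
        linarith
      obtain ⟨m, hm1, hm2⟩ := geo o (γ • o) t ht0 ht2
      obtain ⟨β, hβ⟩ := hco m
      refine ⟨(β, β⁻¹ * γ), ⟨?_, ?_⟩, by simp⟩
      · change dist o (β • o) ≤ C₀ + n
        have := dist_triangle o m (β • o)
        linarith
      · change dist o ((β⁻¹ * γ) • o) ≤ 2 * C₀ + 1
        rw [← dist_smul β, mul_smul, smul_inv_smul]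
        have := dist_triangle (β • o) m (γ • o)
        rw [dist_comm (β • o) m] at this
        linarith
    have hfin := (hprop (C₀ + n)).prod (hprop (2 * C₀ + 1))
    calc G (C₀ + (n + 1 : ℕ)) ≤ _ := Set.ncard_le_ncard h1 (hfin.image _)
      _ ≤ _ := Set.ncard_image_le hfin
      _ = _ := Set.ncard_prod
  have hpow : ∀ n : ℕ, G (C₀ + n) ≤ G C₀ * G (2 * C₀ + 1) ^ n := by
    intro n
    induction n with
    | zero => simp
    | succ n ih =>
      calc _ ≤ _ := hstep n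
        _ ≤ G C₀ * G (2 * C₀ + 1) ^ n * G (2 * C₀ + 1) := Nat.mul_le_mul_right _ ih
        _ = _ := by ring
  have hone : ∀ r : ℝ, 0 ≤ r → 1 ≤ G r := by
    intro r hr
    have := one_le_count (o := o) hprop (Set.mem_univ (1 : Γ)) hr
    simpa using this
  set M : ℝ := ((G (2 * C₀ + 1) : ℕ) : ℝ) with hM
  have hM1 : 1 ≤ M := by
    rw [hM]
    have := hone (2 * C₀ + 1) (by linarith)
    exact_mod_cast this
  have hG1 : (1 : ℝ) ≤ G C₀ := by exact_mod_cast hone _ hC₀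
  refine ⟨G C₀ * M, Real.log M, by positivity, ?_⟩
  intro r hr
  have h1 : G r ≤ G (C₀ + (⌈r⌉₊ : ℕ)) := by
    apply Set.ncard_le_ncard _ (hprop _)
    intro γ hγ
    have : dist o (γ • o) ≤ r := hγ
    change dist o (γ • o) ≤ C₀ + (⌈r⌉₊ : ℕ)
    have := Nat.le_ceil r
    linarith
  have h2 := h1.trans (hpow ⌈r⌉₊)
  have h3 : (G r : ℝ) ≤ G C₀ * M ^ ⌈r⌉₊ := by
    rw [hM]; exact_mod_cast h2
  have h4 : M ^ ⌈r⌉₊ ≤ M * Real.exp (Real.log M * r) := by
    have h5 : (⌈r⌉₊ : ℝ) ≤ r + 1 := (Nat.ceil_lt_add_one hr).le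
    have h6 : 0 < M := by linarith
    calc M ^ ⌈r⌉₊ = Real.exp (Real.log M * ⌈r⌉₊) := by
          rw [mul_comm, Real.exp_nat_mul, Real.exp_log h6]
      _ ≤ Real.exp (Real.log M * (r + 1)) := by
          apply Real.exp_le_exp.mpr
          exact mul_le_mul_of_nonneg_left h5 (Real.log_nonneg hM1)
      _ = _ := by
          rw [mul_add, mul_one, Real.exp_add, Real.exp_log h6, mul_comm]
  calc (G r : ℝ) ≤ _ := h3
    _ ≤ G C₀ * (M * Real.exp (Real.log M * r)) := by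
        apply mul_le_mul_of_nonneg_left h4 (by positivity)
    _ = _ := by ring

/-- the orbit is a net -/
theorem orbit_net {o : X} {C₀ : ℝ}
    (hprop : ∀ r : ℝ, {γ : Γ | dist o (γ • o) ≤ r}.Finite) (hco : Cobdd Γ o C₀)
    (hexp : ∃ C b : ℝ, 0 < C ∧ ∀ r : ℝ, 0 ≤ r →
      ({γ : Γ | dist o (γ • o) ≤ r}.ncard : ℝ) ≤ C * Real.exp (b * r)) {η : ℝ} (hη : 0 < η) :
    ∃ K, 0 ≤ K ∧ Net (fun γ : Γ => γ • o) C₀ K (dexp o (Set.univ : Set Γ) / 2 + η) := by
  have hC₀ : 0 ≤ C₀ := by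
    obtain ⟨γ, hγ⟩ := hco o
    exact dist_nonneg.trans hγ
  obtain ⟨C, b, hC, hexp⟩ := hexp
  have huniv : ∀ r : ℝ, {γ : Γ | γ ∈ (Set.univ : Set Γ) ∧ dist o (γ • o) ≤ r} =
      {γ : Γ | dist o (γ • o) ≤ r} := by
    intro r; ext γ; simp
  have hone : ∀ r : ℝ, 0 ≤ r → 1 ≤ {γ : Γ | γ ∈ (Set.univ : Set Γ) ∧ dist o (γ • o) ≤ r}.ncard :=
    fun r hr => one_le_count hprop (Set.mem_univ _) hr
  obtain ⟨hb1, hb2, -⟩ := limsup_exp hC ((eventually_ge_atTop 0).mono hone)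
    ((eventually_ge_atTop 0).mono (fun r hr => by rw [huniv]; exact hexp r hr))
  set L := dexp o (Set.univ : Set Γ) with hL
  have h1 : ∀ᶠ r : ℝ in atTop,
      Real.log ({γ : Γ | γ ∈ (Set.univ : Set Γ) ∧ dist o (γ • o) ≤ r}.ncard : ℝ) / r <
        L + 2 * η := by
    apply eventually_lt_of_limsup_lt _ hb1
    change L < L + 2 * η
    linarith
  obtain ⟨r₀, hr₀⟩ := (h1.and (eventually_gt_atTop 0)).exists_forall_of_atTop
  have hr₀0 : 0 < r₀ := (hr₀ r₀ le_rfl).2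
  have hbig : ∀ r, r₀ ≤ r → ({γ : Γ | dist o (γ • o) ≤ r}.ncard : ℝ) ≤
      Real.exp ((L + 2 * η) * r) := by
    intro r hr
    obtain ⟨h2, h3⟩ := hr₀ r hr
    rw [huniv] at h2
    have h4 : (0 : ℝ) < {γ : Γ | dist o (γ • o) ≤ r}.ncard := by
      have := hone r h3.le
      rw [huniv] at this
      exact_mod_cast this
    rw [← Real.log_le_iff_le_exp h4]
    rw [div_lt_iff₀ h3] at h2
    exact h2.le
  have hL0 : 0 ≤ L := by
    rw [hL]
    unfold dexp
    apply le_limsup_of_frequently_le _ hb1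
    apply Eventually.frequently
    filter_upwards [eventually_gt_atTop 0] with r hr
    have h2 : (1 : ℝ) ≤ {γ : Γ | γ ∈ (Set.univ : Set Γ) ∧ dist o (γ • o) ≤ r}.ncard := by
      exact_mod_cast hone r hr.le
    exact div_nonneg (Real.log_nonneg h2) hr.le
  set K₀ : ℝ := {γ : Γ | dist o (γ • o) ≤ r₀}.ncard + 1 with hK₀
  have hK₀1 : 1 ≤ K₀ := by rw [hK₀]; have : (0 : ℝ) ≤ {γ : Γ | dist o (γ • o) ≤ r₀}.ncard := Nat.cast_nonneg _; linarith
  have hall : ∀ r, 0 ≤ r → ({γ : Γ | dist o (γ • o) ≤ r}.ncard : ℝ) ≤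
      K₀ * Real.exp ((L + 2 * η) * r) := by
    intro r hr
    rcases le_total r₀ r with h2 | h2
    · have h3 := hbig r h2
      have h4 := Real.exp_pos ((L + 2 * η) * r)
      nlinarith
    · have h3 : ({γ : Γ | dist o (γ • o) ≤ r}.ncard : ℝ) ≤
          ({γ : Γ | dist o (γ • o) ≤ r₀}.ncard : ℝ) := by
        exact_mod_cast Set.ncard_le_ncard (fun γ (hγ : dist o (γ • o) ≤ r) => hγ.trans h2)
          (hprop r₀)
      have h4 : 1 ≤ Real.exp ((L + 2 * η) * r) := Real.one_le_exp (by positivity)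
      nlinarith
  refine ⟨K₀ * Real.exp ((L + 2 * η) * C₀), by positivity, ?_, ?_, ?_⟩
  · exact hco
  · intro z r
    apply (hprop (r + dist o z)).subset
    intro γ hγ
    have hγ' : dist z (γ • o) ≤ r := hγ
    change dist o (γ • o) ≤ r + dist o z
    have := dist_triangle o z (γ • o)
    linarith
  · intro z r hr
    obtain ⟨β, hβ⟩ := hco z
    have h2 : {γ : Γ | dist z (γ • o) ≤ r}.ncard ≤
        {γ : Γ | dist o (γ • o) ≤ r + C₀}.ncard := by
      apply Set.ncard_le_ncard_of_injOn (fun γ => β⁻¹ * γ) (ht := hprop _)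
      · intro γ hγ
        have hγ' : dist z (γ • o) ≤ r := hγ
        change dist o ((β⁻¹ * γ) • o) ≤ r + C₀
        rw [← dist_smul β, mul_smul, smul_inv_smul]
        have := dist_triangle (β • o) z (γ • o)
        rw [dist_comm (β • o) z] at this
        linarith
      · intro γ _ γ' _ heq
        exact mul_left_cancel heq
    calc ({γ : Γ | dist z (γ • o) ≤ r}.ncard : ℝ) ≤
          ({γ : Γ | dist o (γ • o) ≤ r + C₀}.ncard : ℝ) := by exact_mod_cast h2
      _ ≤ K₀ * Real.exp ((L + 2 * η) * (r + C₀)) := hall _ (by linarith)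
      _ = _ := by
          rw [mul_assoc, ← Real.exp_add]; congr 2; ring

end Pool.Agent.Helper97.Hyp
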