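import Pool.Agent.Helper97.Hyp.System

set_option autoImplicit false
set_option linter.unusedSectionVars false

namespace Pool.Agent.Helper97.Hyp

variable {X : Type*} [PseudoMetricSpace X]
variable {Γ : Type*} [Group Γ] [MulAction Γ X] [IsIsometricSMul Γ X]

namespace Lox

variable {δ : ℝ} {o : X} {g : Γ} {k : ℕ}

/-- rotation subgroups -/
noncomputable def rot (g : Γ) (k : ℕ) (A : Γ ⧸ E g) : Subgroup Γ :=
  Subgroup.zpowers (A.out * g ^ (k : ℤ) * A.out⁻¹)

/-- exponents normalised by the commensurator -/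
def Good (g : Γ) (k : ℕ) : Prop := 0 < k ∧ ∀ e ∈ E g,
  (e * g ^ (k : ℤ) * e⁻¹ = g ^ (k : ℤ) ∨ e * g ^ (k : ℤ) * e⁻¹ = g ^ (-(k : ℤ)))

lemma Good.mul (hk : Good g k) {m : ℕ} (hm : 0 < m) : Good g (k * m) :=
  ⟨Nat.mul_pos hk.1 hm, fun e he => conj_pow_mul m (hk.2 e he)⟩

/-- the normal subgroup -/
noncomputable def nk (g : Γ) (k : ℕ) : Subgroup Γ := ⨆ A, rot g k A

lemma rot_fix (A : Γ ⧸ E g) {n : Γ} (hn : n ∈ rot g k A) : n • A = A := by
  obtain ⟨m, rfl⟩ := hn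
  simp only
  have h1 : (A.out : Γ ⧸ E g) = A := QuotientGroup.out_eq' A
  have h2 : (A.out * g ^ (k : ℤ) * A.out⁻¹) ^ m • A =
      (((A.out * g ^ (k : ℤ) * A.out⁻¹) ^ m * A.out : Γ) : Γ ⧸ E g) := by
    have h3 : (A.out * g ^ (k : ℤ) * A.out⁻¹) ^ m • (A.out : Γ ⧸ E g) =
      (((A.out * g ^ (k : ℤ) * A.out⁻¹) ^ m * A.out : Γ) : Γ ⧸ E g) := rfl
    rw [← h3, h1]
  rw [h2, conj_zpow]
  conv_rhs => rw [← h1]
  apply QuotientGroup.eq.mpr
  have h3 : (A.out * (g ^ (k : ℤ)) ^ m * A.out⁻¹ * A.out)⁻¹ * A.out = g ^ (-((k : ℤ) * m)) := by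
    rw [← zpow_mul]; group
  rw [h3]
  exact zpow_mem_E _

lemma rot_conj (hk : Good g k) (γ : Γ) (A : Γ ⧸ E g) {n : Γ} (hn : n ∈ rot g k A) :
    γ * n * γ⁻¹ ∈ rot g k (γ • A) := by
  obtain ⟨m, rfl⟩ := hn
  simp only
  have h1 : (A.out : Γ ⧸ E g) = A := QuotientGroup.out_eq' A
  have h1' : ((γ • A).out : Γ ⧸ E g) = γ • A := QuotientGroup.out_eq' _
  set α := A.out with hα
  set β := (γ • A).out with hβ
  have he : β⁻¹ * (γ * α) ∈ E g := by
    apply QuotientGroup.eq.mp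
    rw [h1']
    conv_lhs => rw [← h1]
    rfl
  set e := β⁻¹ * (γ * α) with hedef
  have h2 : γ * (α * g ^ (k : ℤ) * α⁻¹) ^ m * γ⁻¹ = (β * (e * g ^ (k : ℤ) * e⁻¹) * β⁻¹) ^ m := by
    rw [← conj_zpow]
    congr 1
    rw [hedef]; group
  unfold rot
  rw [← hβ, h2]
  rcases hk.2 e he with h3 | h3
  · rw [h3]
    exact Subgroup.zpow_mem _ (Subgroup.mem_zpowers _) m
  · rw [h3]
    have h4 : β * g ^ (-(k : ℤ)) * β⁻¹ = (β * g ^ (k : ℤ) * β⁻¹)⁻¹ := by group
    rw [h4]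
    exact Subgroup.zpow_mem _ (inv_mem (Subgroup.mem_zpowers _)) m

lemma rot_le (A : Γ ⧸ E g) : rot g k A ≤ nk g k := le_iSup (fun A => rot g k A) A

lemma nk_normal (hk : Good g k) (γ : Γ) {n : Γ} (hn : n ∈ nk g k) : γ * n * γ⁻¹ ∈ nk g k := by
  have h1 : nk g k ≤ (nk g k).comap (MulAut.conj γ).toMonoidHom := by
    apply iSup_le
    intro A n hn
    rw [Subgroup.mem_comap]
    exact rot_le (γ • A) (rot_conj hk γ A hn)
  exact h1 hn

lemma disp (hk : Good g k) {A : Γ ⧸ E g} {x : X} (hx : x ∈ ax o g A) (m : ℤ) :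
    dist x ((A.out * g ^ (k : ℤ) * A.out⁻¹) ^ m • x) = tl o g ((k : ℤ) * m).natAbs := by
  obtain ⟨γ, hγ, rfl⟩ := hx
  have h1 : (A.out : Γ ⧸ E g) = A := QuotientGroup.out_eq' A
  set α := A.out with hα
  have he : γ⁻¹ * α ∈ E g := by
    apply QuotientGroup.eq.mp
    rw [h1, hγ]
  set e := γ⁻¹ * α with hedef
  have h2 : dist (γ • o) ((α * g ^ (k : ℤ) * α⁻¹) ^ m • γ • o) =
      dist o ((e * g ^ (k : ℤ) * e⁻¹) ^ m • o) := by
    rw [← dist_smul γ o, smul_smul γ, smul_smul _ γ]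
    congr 2
    have : α * g ^ (k : ℤ) * α⁻¹ = γ * (e * g ^ (k : ℤ) * e⁻¹) * γ⁻¹ := by rw [hedef]; group
    rw [this, conj_zpow]
    group
  rw [h2]
  have h3 : ∀ z : ℤ, dist o (g ^ z • o) = tl o g z.natAbs := by
    intro z
    have := dist_zpow o g 0 z
    rwa [zpow_zero, one_smul, sub_zero] at this
  rcases hk.2 e he with h4 | h4
  · rw [h4, ← zpow_mul, h3]
  · rw [h4, ← zpow_mul, h3, neg_mul, Int.natAbs_neg]

lemma disp_mem (A : Γ ⧸ E g) (m : ℤ) :
    (A.out * g ^ (k : ℤ) * A.out⁻¹) ^ m ∈ rot g k A :=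
  Subgroup.zpow_mem _ (Subgroup.mem_zpowers _) m

lemma isProj_rot {A : Γ ⧸ E g} {c : ℝ} {p p' : X} (hp : IsProj c (ax o g A) p p') {n : Γ}
    (hn : n ∈ rot g k A) : IsProj c (ax o g A) (n • p) (n • p') := by
  apply hp.smul (γ := n)
  intro x
  have := ax_smul n A x (o := o) (g := g)
  rwa [rot_fix A hn] at this

variable (h : Lox δ o g)

include h

lemma rot_spin (hk : Good g k) (A : Γ ⧸ E g) {n : Γ} (p : X) (hn : n ∈ rot g k A) (hn1 : n ≠ 1) :
    tl o g k - c2 o g δ ≤ pd (ax o g A) p (n • p) := by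
  obtain ⟨p', hp'⟩ := (h.qline_ax A).proj p
  have h1 := isProj_rot hp' hn
  have h2 := le_pd_of_proj hp' h1
  obtain ⟨m, rfl⟩ := hn
  simp only at *
  rw [disp hk hp'.1] at h2
  have hm : m ≠ 0 := by
    rintro rfl
    exact hn1 (zpow_zero _)
  have h3 : k ≤ ((k : ℤ) * m).natAbs := by
    rw [Int.natAbs_mul, Int.natAbs_natCast]
    have : 1 ≤ m.natAbs := by omega
    nlinarith
  have h4 := h.tl_mono h3
  linarith

variable (hprop : ∀ r : ℝ, {γ : Γ | dist o (γ • o) ≤ r}.Finite)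

include hprop

/-- the spinning family -/
noncomputable def spinSys (hk : Good g k) (hM : 100 * th o g δ ≤ tl o g k - c2 o g δ) :
    Spin (h.sys hprop) where
  G := rot g k
  M := tl o g k - c2 o g δ
  hM := hM
  Gconj γ A n hn := rot_conj hk γ A hn
  Gfix A n hn := rot_fix A hn
  spin A n p hn hn1 := h.rot_spin hk A p hn hn1

lemma windmill' (hk : Good g k) (hM : 100 * th o g δ ≤ tl o g k - c2 o g δ)
    {n₁ n₂ : Γ} (hn₁ : n₁ ∈ nk g k) (hn₂ : n₂ ∈ nk g k) (hne : n₁ ≠ n₂) :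
    ∃ A, tl o g k - c2 o g δ - 50 * th o g δ ≤ pd (ax o g A) (n₁ • o) (n₂ • o) := by
  obtain ⟨A, hA⟩ := (h.spinSys hprop hk hM).windmill o (n := n₁⁻¹ * n₂)
    (mul_mem (inv_mem hn₁) hn₂) (by
      intro h1
      exact hne (inv_mul_eq_one.mp h1))
  refine ⟨n₁ • A, ?_⟩
  have h1 := pd_smul (ax_ne (o := o) A) (ax_smul n₁ A) o ((n₁⁻¹ * n₂) • o)
  rw [smul_smul, mul_inv_cancel_left] at h1
  rw [h1]
  exact hA

omit hprop in
lemma almost (hk : Good g k) {R : ℝ} (hR : 0 ≤ R) (hkR : 2 * R + 3 * c2 o g δ + 2 * δ < tl o g k)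
    {z p : X} (hz : ∀ m ∈ nk g k, dist z p ≤ dist z (m • p) + 2 * R) (A : Γ ⧸ E g) :
    pd (ax o g A) z p ≤ tl o g k / 2 + R + 5 * c2 o g δ / 2 + δ := by
  have hδ := h.δ_nonneg
  have hc2 := h.c2_nonneg
  obtain ⟨z', hz'⟩ := (h.qline_ax A).proj z
  obtain ⟨p', hp'⟩ := (h.qline_ax A).proj p
  have h0 := pd_le_of_proj hz' hp'
  by_cases hfar : c2 o g δ + δ < dist z' p'
  swap
  · push Not at hfar
    linarith
  have h1 := far_of_proj h.hyp hz' hp' hfar
  set t := A.out * g ^ (k : ℤ) * A.out⁻¹ with ht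
  have hb := isProj_rot hp' (disp_mem (k := k) A 1)
  have ha := isProj_rot hp' (disp_mem (k := k) A (-1))
  have h2 := hz _ (rot_le A (disp_mem (k := k) A 1))
  have h3 := hz _ (rot_le A (disp_mem (k := k) A (-1)))
  have e1 := disp hk hp'.1 1
  have e2 := disp hk hp'.1 (-1)
  have e3 := disp hk ha.1 2
  rw [← ht] at hb ha h2 h3 e1 e2 e3
  rw [smul_smul, ← zpow_add] at e3
  norm_num at hb ha h2 h3 e1 e2 e3
  set b := t • p' with hbdef
  set a := t⁻¹ • p' with hadef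
  have e4 : tl o g k ≤ tl o g ((k : ℤ) * 2).natAbs := h.tl_mono (by omega)
  have e5 : tl o g ((k : ℤ) * 2).natAbs ≤ 2 * tl o g k := by
    have := tl_sub (o := o) (g := g) k k
    have h7 : ((k : ℤ) * 2).natAbs = k + k := by omega
    rw [h7]; linarith
  have h4 := dist_triangle4 z z' b (t • p)
  have h5 := dist_triangle4 z z' a (t⁻¹ • p)
  have d1 : dist b (t • p) = dist p p' := by rw [hbdef, dist_smul, dist_comm]
  have d2 : dist a (t⁻¹ • p) = dist p p' := by rw [hadef, dist_smul, dist_comm]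
  rw [d1] at h4
  rw [d2] at h5
  have t1 := dist_triangle z' p' b
  have t2 := dist_triangle z' p' a
  have h6 := (h.qline_ax A).lin z' hz'.1 p' hp'.1 b hb.1
  have h7 := (h.qline_ax A).lin z' hz'.1 p' hp'.1 a ha.1
  have h8 := (h.qline_ax A).lin z' hz'.1 a ha.1 b hb.1
  rcases h6 with h6 | h6 | h6
  · rcases h7 with h7 | h7 | h7
    · rcases h8 with h8 | h8 | h8
      · linarith
      · linarith
      · linarith
    · linarith
    · linarith
  · linarith
  · linarith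

/-- no three almost nearest points in different directions -/
lemma no_three (hk : Good g k) {R R₁ : ℝ} (hR : 0 ≤ R) (hR₁ : 0 ≤ R₁)
    (hkR : 2 * R + 2 * R₁ + 20 * c2 o g δ + 20 * δ + 110 * th o g δ < tl o g k)
    {z : X} {n : Fin 3 → Γ} (hn : ∀ i, n i ∈ nk g k) (hinj : Function.Injective n)
    (hz : ∀ i, ∀ m ∈ nk g k, dist z (n i • o) ≤ dist z (m • o) + 2 * R)
    (hg : ∀ i j, i ≠ j →
      dist z (n i • o) + dist z (n j • o) ≤ dist (n i • o) (n j • o) + 2 * R₁) : False := by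
  have hδ := h.δ_nonneg
  have hc2 := h.c2_nonneg
  have hth1 := h.th1_nonneg
  have hth : 3 * c2 o g δ + 2 * δ + 1 ≤ th o g δ := by unfold th; linarith
  have hM : 100 * th o g δ ≤ tl o g k - c2 o g δ := by linarith
  have hal : ∀ i A, pd (ax o g A) z (n i • o) ≤ tl o g k / 2 + R + 5 * c2 o g δ / 2 + δ := by
    intro i A
    apply h.almost hk hR (by linarith)
    intro m hm
    have := hz i (m * n i) (mul_mem hm (hn i))
    rwa [mul_smul] at this
  have hA : ∀ i j, ∃ A, i ≠ j → tl o g k - c2 o g δ - 50 * th o g δ ≤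
      pd (ax o g A) (n i • o) (n j • o) := by
    intro i j
    by_cases hij : i = j
    · exact ⟨((1 : Γ) : Γ ⧸ E g), fun h => absurd hij h⟩
    · obtain ⟨A, hA⟩ := h.windmill' hprop hk hM (hn i) (hn j) (fun h => hij (hinj h))
      exact ⟨A, fun _ => hA⟩
  choose A hA using hA
  have hlow : ∀ i j, i ≠ j →
      tl o g k / 2 - R - 7 * c2 o g δ / 2 - δ - 50 * th o g δ ≤ pd (ax o g (A i j)) z (n i • o) ∧
      tl o g k / 2 - R - 7 * c2 o g δ / 2 - δ - 50 * th o g δ ≤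
        pd (ax o g (A i j)) z (n j • o) := by
    intro i j hij
    have h1 := hA i j hij
    have h2 := pd_tri (ax_ne (o := o) (A i j)) (n i • o) z (n j • o)
    rw [pd_symm (ax_ne (o := o) (A i j)) (n i • o) z] at h2
    have h3 := hal i (A i j)
    have h4 := hal j (A i j)
    constructor <;> linarith
  have hnear : ∀ i j, i ≠ j → ∀ z', IsProj (c2 o g δ) (ax o g (A i j)) z z' →
      dist z z' ≤ R₁ + 7 * c2 o g δ / 2 + 2 * δ := by
    intro i j hij z' hz'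
    obtain ⟨p₁, hp₁⟩ := (h.qline_ax (A i j)).proj (n i • o)
    obtain ⟨p₂, hp₂⟩ := (h.qline_ax (A i j)).proj (n j • o)
    obtain ⟨h1, h2⟩ := hlow i j hij
    have h3 := far_of_pd h.hyp hz' hp₁ (by linarith)
    have h4 := far_of_pd h.hyp hz' hp₂ (by linarith)
    have h5 := dist_le_of_proj hp₁ hp₂
    have h6 := pd_tri (ax_ne (o := o) (A i j)) (n i • o) z (n j • o)
    rw [pd_symm (ax_ne (o := o) (A i j)) (n i • o) z] at h6
    have h7 := hg i j hij
    linarith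
  -- axes with a common index agree
  have hcommon : ∀ i j l l', i ≠ j → l ≠ l' → (i = l ∨ i = l') → A i j = A l l' := by
    intro i j l l' hij hll hcom
    by_contra hne
    obtain ⟨a, ha⟩ := (h.qline_ax (A i j)).proj z
    obtain ⟨b, hb⟩ := (h.qline_ax (A l l')).proj z
    have h1 := hnear i j hij a ha
    have h2 := hnear l l' hll b hb
    have h3 : tl o g k / 2 - R - 7 * c2 o g δ / 2 - δ - 50 * th o g δ ≤
        pd (ax o g (A l l')) z (n i • o) := by
      rcases hcom with rfl | rfl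
      · exact (hlow _ _ hll).1
      · exact (hlow _ _ hll).2
    have h4 := (hlow i j hij).1
    have h5 := pd_tri (ax_ne (o := o) (A i j)) z b (n i • o)
    have h6 := pd_le_dist (ax_ne (o := o) (A i j)) z b
    have h7 := pd_tri (ax_ne (o := o) (A l l')) z a (n i • o)
    have h8 := pd_le_dist (ax_ne (o := o) (A l l')) z a
    rw [pd_symm (ax_ne (o := o) (A i j)) b (n i • o)] at h5
    rw [pd_symm (ax_ne (o := o) (A l l')) a (n i • o)] at h7
    rcases (h.sys hprop).beh (A i j) (A l l') (n i • o) a b hne ha.1 hb.1 with h9 | h9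
    · have h10 : pd (ax o g (A i j)) (n i • o) b ≤ th o g δ := h9
      linarith
    · have h10 : pd (ax o g (A l l')) (n i • o) a ≤ th o g δ := h9
      linarith
  have h01 : A 0 1 = A 1 2 := by
    rw [hcommon 0 1 0 2 (by decide) (by decide) (Or.inl rfl)]
    rw [hcommon 0 2 1 0 (by decide) (by decide) (Or.inr rfl)]
    rw [hcommon 1 0 1 2 (by decide) (by decide) (Or.inl rfl)]
  have h02 : A 0 2 = A 1 2 := by
    rw [← h01]
    exact hcommon 0 2 0 1 (by decide) (by decide) (Or.inl rfl)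
  have a01 := hA 0 1 (by decide)
  have a02 := hA 0 2 (by decide)
  have a12 := hA 1 2 (by decide)
  rw [h01] at a01
  rw [h02] at a02
  have b0 := hal 0 (A 1 2)
  have b1 := hal 1 (A 1 2)
  have b2 := hal 2 (A 1 2)
  have t01 := pd_tri (ax_ne (o := o) (A 1 2)) (n 0 • o) z (n 1 • o)
  have t02 := pd_tri (ax_ne (o := o) (A 1 2)) (n 0 • o) z (n 2 • o)
  have t12 := pd_tri (ax_ne (o := o) (A 1 2)) (n 1 • o) z (n 2 • o)
  rw [pd_symm (ax_ne (o := o) (A 1 2)) (n 0 • o) z] at t01 t02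
  rw [pd_symm (ax_ne (o := o) (A 1 2)) (n 1 • o) z] at t12
  rcases (h.qline_ax (A 1 2)).pd_lin (n 0 • o) (n 1 • o) (n 2 • o) with h9 | h9 | h9
  · linarith
  · linarith
  · linarith

lemma sep (hk : Good g k) {R : ℝ} 
    (hkR : 2 * R + 20 * c2 o g δ + 20 * δ + 110 * th o g δ < tl o g k) (hR : 0 ≤ R)
    {n₁ n₂ : Γ} (hn₁ : n₁ ∈ nk g k) (hn₂ : n₂ ∈ nk g k) (hne : n₁ ≠ n₂) :
    2 * R < dist (n₁ • o) (n₂ • o) := by
  have hδ := h.δ_nonneg
  have hc2 := h.c2_nonneg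
  have hth1 := h.th1_nonneg
  have hth : 3 * c2 o g δ + 2 * δ + 1 ≤ th o g δ := by unfold th; linarith
  have hM : 100 * th o g δ ≤ tl o g k - c2 o g δ := by linarith
  obtain ⟨A, hA⟩ := h.windmill' hprop hk hM hn₁ hn₂ hne
  have := pd_le_dist (ax_ne (o := o) A) (n₁ • o) (n₂ • o)
  linarith

end Lox

end Pool.Agent.Helper97.Hyp
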