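import Pool.Agent.Helper97.Hyp.Count
import Pool.Agent.Helper97.Hyp.Rot

set_option autoImplicit false
set_option linter.unusedSectionVars false

namespace Pool.Agent.Helper97.Hyp

open Filter Topology

lemma exists_R0 {K C₀ δ a ε : ℝ} (ha : 0 ≤ a) (hε : 0 < ε) :
    ∃ R₀, C₀ + 1 ≤ R₀ ∧ lam K R₀ C₀ δ a + 1 ≤ Real.exp ((a + ε) * (R₀ - C₀)) := by
  have h1 : Tendsto (fun x : ℝ => x ^ 1 * Real.exp (-x)) atTop (𝓝 0) :=
    Real.tendsto_pow_mul_exp_neg_atTop_nhds_zero 1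
  have h2 : Tendsto (fun x : ℝ => x ^ 0 * Real.exp (-x)) atTop (𝓝 0) :=
    Real.tendsto_pow_mul_exp_neg_atTop_nhds_zero 0
  have h3 : Tendsto (fun x : ℝ => ε * x) atTop atTop := tendsto_id.const_mul_atTop hε
  have h4 := h1.comp h3
  have h5 := h2.comp h3
  set b := a * (3 * C₀ + 6 * δ + 2) with hb
  have h6 : Tendsto (fun x : ℝ => (2 * K * Real.exp b / ε) * ((ε * x) ^ 1 * Real.exp (-(ε * x))) +
      (2 * K * Real.exp b * (C₀ + 1) + 1) * ((ε * x) ^ 0 * Real.exp (-(ε * x)))) atTop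
      (𝓝 ((2 * K * Real.exp b / ε) * 0 + (2 * K * Real.exp b * (C₀ + 1) + 1) * 0)) :=
    (h4.const_mul _).add (h5.const_mul _)
  rw [mul_zero, mul_zero, add_zero] at h6
  have h7 : ∀ᶠ x : ℝ in atTop, (2 * K * Real.exp b / ε) * ((ε * x) ^ 1 * Real.exp (-(ε * x))) +
      (2 * K * Real.exp b * (C₀ + 1) + 1) * ((ε * x) ^ 0 * Real.exp (-(ε * x))) <
      Real.exp (-(a + ε) * C₀) := h6.eventually_lt_const (Real.exp_pos _)
  obtain ⟨R, hR, hR1, hR2⟩ := (h7.and ((eventually_ge_atTop (C₀ + 1)).and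
    (eventually_ge_atTop 0))).exists
  refine ⟨R, hR1, ?_⟩
  have e1 : Real.exp (a * (R + 3 * C₀ + 6 * δ + 2)) = Real.exp b * Real.exp (a * R) := by
    rw [← Real.exp_add, hb]; congr 1; ring
  have e2 : Real.exp ((a + ε) * (R - C₀)) =
      Real.exp (-(a + ε) * C₀) * (Real.exp (a * R) * Real.exp (ε * R)) := by
    rw [← Real.exp_add, ← Real.exp_add]; congr 1; ring
  have e3 : Real.exp (-(ε * R)) * Real.exp (ε * R) = 1 := by
    rw [← Real.exp_add]; simp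
  have e4 : (1 : ℝ) ≤ Real.exp (a * R) := Real.one_le_exp (by positivity)
  have e5 := Real.exp_pos (ε * R)
  rw [e2]
  unfold lam
  rw [e1]
  calc 2 * K * (R + C₀ + 1) * (Real.exp b * Real.exp (a * R)) + 1
      ≤ 2 * K * (R + C₀ + 1) * (Real.exp b * Real.exp (a * R)) + Real.exp (a * R) := by linarith
    _ = (2 * K * Real.exp b * R + (2 * K * Real.exp b * (C₀ + 1) + 1)) *
          (Real.exp (-(ε * R)) * Real.exp (ε * R)) * Real.exp (a * R) := by rw [e3]; ring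
    _ = ((2 * K * Real.exp b / ε) * ((ε * R) ^ 1 * Real.exp (-(ε * R))) +
      (2 * K * Real.exp b * (C₀ + 1) + 1) * ((ε * R) ^ 0 * Real.exp (-(ε * R)))) *
        (Real.exp (a * R) * Real.exp (ε * R)) := by
        field_simp
    _ ≤ _ := mul_le_mul_of_nonneg_right hR.le (by positivity)

variable {X : Type*} [PseudoMetricSpace X] {ι ν : Type*}

theorem growth_bound {δ C₀ K a R₀ ε : ℝ} (hyp : GHyp X δ) (geo : Geo X) {y : ι → X}
    (hY : Net y C₀ K a) (ha : 0 ≤ a) (hε : 0 < ε) (hK : 0 ≤ K) (hC₀ : 0 ≤ C₀) (hR₀ : C₀ + 1 ≤ R₀)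
    (hlam : lam K R₀ C₀ δ a + 1 ≤ Real.exp ((a + ε) * (R₀ - C₀)))
    {q : ν → X} (hq : Pts q (R₀ + C₀)) [Nonempty ν] (z : X) {r : ℝ} (hr : 0 ≤ r) :
    ({n | dist z (q n) ≤ r}.ncard : ℝ) ≤
      Real.exp (a * R₀ + (a + ε) * (R₀ - C₀)) * Real.exp ((a + ε) * r) := by
  have hmin : ∀ z, ∃ n, ∀ m, dist z (q n) ≤ dist z (q m) := by
    intro z
    obtain ⟨n₀⟩ := ‹Nonempty ν›
    obtain ⟨n, hn, hmin⟩ := Set.exists_min_image {n | dist z (q n) ≤ dist z (q n₀)}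
      (fun n => dist z (q n)) (hq.fin z _) ⟨n₀, le_refl (dist z (q n₀))⟩
    refine ⟨n, fun m => ?_⟩
    by_cases hm : dist z (q m) ≤ dist z (q n₀)
    · exact hmin m hm
    · push Not at hm
      have : dist z (q n) ≤ dist z (q n₀) := hn
      linarith
  choose nr hnr using hmin
  have h1 := fun j => count_bound hyp geo hY ha hK hC₀ (by linarith) hq
    (nn := fun z => dist z (q (nr z))) (fun z => ⟨_, rfl⟩) (fun z n => hnr z n) j z
  have hpos : 0 < R₀ - C₀ := by linarith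
  have hδ := hyp.nonneg z
  have hlam0 : 0 ≤ lam K R₀ C₀ δ a := by
    have : 0 ≤ R₀ := by linarith
    unfold lam; positivity
  set j := ⌈r / (R₀ - C₀)⌉₊ with hj
  have hj1 : r ≤ j * (R₀ - C₀) := by
    rw [← div_le_iff₀ hpos]; exact Nat.le_ceil _
  have hj2 : (j : ℝ) * (R₀ - C₀) ≤ r + (R₀ - C₀) := by
    have : (j : ℝ) < r / (R₀ - C₀) + 1 := Nat.ceil_lt_add_one (by positivity)
    have h2 : (j : ℝ) * (R₀ - C₀) ≤ (r / (R₀ - C₀) + 1) * (R₀ - C₀) :=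
      mul_le_mul_of_nonneg_right this.le hpos.le
    rwa [add_mul, div_mul_cancel₀ _ hpos.ne', one_mul] at h2
  have h2 : ({n | dist z (q n) ≤ r}.ncard : ℝ) ≤
      ({n | dist z (q n) ≤ j * (R₀ - C₀) + R₀}.ncard : ℝ) := by
    exact_mod_cast Set.ncard_le_ncard (fun n (hn : dist z (q n) ≤ r) => by
      change dist z (q n) ≤ j * (R₀ - C₀) + R₀
      linarith) (hq.fin z _)
  have h3 : (lam K R₀ C₀ δ a + 1) ^ j ≤ Real.exp ((a + ε) * (r + (R₀ - C₀))) := by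
    calc (lam K R₀ C₀ δ a + 1) ^ j ≤ (Real.exp ((a + ε) * (R₀ - C₀))) ^ j :=
          pow_le_pow_left₀ (by linarith) hlam j
      _ = Real.exp ((a + ε) * (j * (R₀ - C₀))) := by
          rw [← Real.exp_nat_mul]; congr 1; ring
      _ ≤ _ := by
          apply Real.exp_le_exp.mpr
          apply mul_le_mul_of_nonneg_left hj2 (by linarith)
  have h4 : Real.exp (-a * dist z (q (nr z))) ≤ 1 := by
    apply Real.exp_le_one_iff.mpr
    have := dist_nonneg (x := z) (y := q (nr z))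
    nlinarith
  calc _ ≤ _ := h2
    _ ≤ Real.exp (a * R₀) * (lam K R₀ C₀ δ a + 1) ^ j * Real.exp (-a * dist z (q (nr z))) := h1 j
    _ ≤ Real.exp (a * R₀) * Real.exp ((a + ε) * (r + (R₀ - C₀))) * 1 := by
        gcongr
    _ = _ := by
        rw [mul_one, ← Real.exp_add, ← Real.exp_add]; congr 1; ring

variable {Γ : Type*} [Group Γ] [MulAction Γ X] [IsIsometricSMul Γ X]

namespace Lox

variable {δ : ℝ} {o : X} {g : Γ} {k : ℕ}

lemma pow_mem_nk (hk : Good g k) : g ^ (k : ℤ) ∈ nk g k := by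
  have h1 := rot_le (k := k) ((1 : Γ) : Γ ⧸ E g)
    (disp_mem (k := k) ((1 : Γ) : Γ ⧸ E g) 1)
  have h2 := nk_normal hk ((Quotient.out ((1 : Γ) : Γ ⧸ E g))⁻¹) h1
  rw [zpow_one] at h2
  have h3 : ∀ α : Γ, α⁻¹ * (α * g ^ (k : ℤ) * α⁻¹) * α⁻¹⁻¹ = g ^ (k : ℤ) := by
    intro α; group
  rw [h3] at h2
  exact h2

lemma conj_mem_nk (hk : Good g k) (γ : Γ) : γ * g ^ (k : ℤ) * γ⁻¹ ∈ nk g k :=
  nk_normal hk γ (pow_mem_nk hk)

variable (h : Lox δ o g)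

include h

theorem pts_nk (hprop : ∀ r : ℝ, {γ : Γ | dist o (γ • o) ≤ r}.Finite) (hk : Good g k)
    {R : ℝ} (hR : 0 ≤ R)
    (hkR : 4 * R + 20 * c2 o g δ + 20 * δ + 110 * th o g δ < tl o g k) :
    Pts (fun n : nk g k => (n : Γ) • o) R where
  fin z r := by
    have h1 := (hprop (r + dist o z)).preimage
      (Set.injOn_of_injective (Subtype.val_injective (p := fun x => x ∈ nk g k)))
    apply h1.subset
    intro n hn
    change dist o ((n : Γ) • o) ≤ r + dist o z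
    have hn' : dist z ((n : Γ) • o) ≤ r := hn
    have := dist_triangle o z ((n : Γ) • o)
    linarith
  sep n m hnm := h.sep hprop hk (by linarith) hR n.2 m.2 (fun h => hnm (Subtype.ext h))
  three z n hn h1 h2 := h.no_three hprop hk hR hR (by linarith)
    (n := fun i => (n i : Γ)) (fun i => (n i).2)
    (fun i j hij => hn (Subtype.ext hij)) (fun i m hm => h1 i ⟨m, hm⟩) h2

theorem exists_good (hprop : ∀ r : ℝ, {γ : Γ | dist o (γ • o) ≤ r}.Finite) (T : ℝ) :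
    ∃ k, Good g k ∧ T < tl o g k := by
  obtain ⟨k₀, hk₀, hk₀'⟩ := h.exists_k0 hprop
  refine ⟨k₀ * (⌈T⌉₊ + 1), Good.mul ⟨hk₀, hk₀'⟩ (Nat.succ_pos _), ?_⟩
  have h1 := h.tl_ge (k₀ * (⌈T⌉₊ + 1))
  have h2 : ((⌈T⌉₊ + 1 : ℕ) : ℝ) ≤ ((k₀ * (⌈T⌉₊ + 1) : ℕ) : ℝ) := by
    exact_mod_cast Nat.le_mul_of_pos_left _ hk₀
  have h3 := Nat.le_ceil T
  push_cast at h1 h2
  linarith

/-- the core upper bound -/
theorem core_upper (hprop : ∀ r : ℝ, {γ : Γ | dist o (γ • o) ≤ r}.Finite) (geo : Geo X)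
    {C₀ K a ε : ℝ} {y : ι → X} (hY : Net y C₀ K a) (ha : 0 ≤ a) (hε : 0 < ε) (hK : 0 ≤ K)
    (hC₀ : 0 ≤ C₀) :
    ∃ k, Good g k ∧ ∃ C : ℝ, 0 < C ∧ ∀ r : ℝ, 0 ≤ r →
      ({n : Γ | n ∈ nk g k ∧ dist o (n • o) ≤ r}.ncard : ℝ) ≤ C * Real.exp ((a + ε) * r) := by
  obtain ⟨R₀, hR₀, hlam⟩ := exists_R0 (K := K) (C₀ := C₀) (δ := δ) ha hε
  obtain ⟨k, hk, hkR⟩ := h.exists_good hprop
    (4 * (R₀ + C₀) + 20 * c2 o g δ + 20 * δ + 110 * th o g δ)
  have hpts := h.pts_nk hprop hk (R := R₀ + C₀) (by linarith) hkR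
  refine ⟨k, hk, Real.exp (a * R₀ + (a + ε) * (R₀ - C₀)), Real.exp_pos _, ?_⟩
  intro r hr
  have h1 := growth_bound h.hyp geo hY ha hε hK hC₀ hR₀ hlam hpts o hr
  have h2 : {n : Γ | n ∈ nk g k ∧ dist o (n • o) ≤ r} =
      Subtype.val '' {n : nk g k | dist o ((n : Γ) • o) ≤ r} := by
    ext n
    constructor
    · rintro ⟨h1, h2⟩
      exact ⟨⟨n, h1⟩, h2, rfl⟩
    · rintro ⟨m, hm, rfl⟩
      exact ⟨m.2, hm⟩
  rw [h2, Set.ncard_image_of_injective _ Subtype.val_injective]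
  exact h1

end Lox

end Pool.Agent.Helper97.Hyp
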