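import Pool.Agent.Helper97.Hyp.HLattice

set_option autoImplicit false
set_option linter.unusedSectionVars false

namespace Pool.Agent.Helper97.Hyp.HModel

open MeasureTheory Real Filter Topology

variable {Γ : Subgroup (Equiv.Perm E3)}

/-- lattices contain loxodromic elements -/
theorem lattice_lox [IsIsometricSMul Γ (HS E3)] (hΓ : ∀ g ∈ Γ, ∀ x y, B (g x) (g y) = B x y)
    (hprop : ∀ r : ℝ, {γ : Γ | dist o0 (γ • o0) ≤ r}.Finite)
    {F : Set E3} (hF : MeasurableSet F) (hFm : mu F ≠ ⊤) (hcov : ∀ x : E3, ∃ g ∈ Γ, g x ∈ F) :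
    ∃ g : Γ, Lox 2 o0 g := by
  by_contra hcon
  push Not at hcon
  obtain ⟨C, hC, hcnt⟩ := orbit_count (Γ := Γ) hprop
  have hmin : ∀ g₁ g₂ : Γ, dist o0 (g₂ • o0) ≤ dist o0 (g₁ • o0) →
      dist (g₁ • o0) (g₂ • o0) ≤ dist o0 (g₁ • o0) + 18 := by
    intro g₁ g₂ hle
    by_contra hfar
    push Not at hfar
    set P := dist o0 (g₁ • o0) + dist o0 (g₂ • o0) - dist (g₁ • o0) (g₂ • o0) with hP
    have hP0 : 0 ≤ P := by
      have := dist_triangle (g₁ • o0) o0 (g₂ • o0)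
      rw [dist_comm (g₁ • o0) o0] at this
      linarith
    obtain ⟨g, hg⟩ := lox_of_pair (hyp_HS (E := E3)) o0 g₁ g₂ (c := P / 2) (by linarith)
      (by linarith) (by linarith) (by linarith)
    exact hcon g hg
  have hup : ∀ r : ℝ, 0 ≤ r →
      ({γ : Γ | dist o0 (γ • o0) ≤ r}.ncard : ℝ) ≤ (C * exp 44) * exp (1 * r) := by
    intro r hr
    obtain ⟨γ₁, hγ₁, hmax⟩ := Set.exists_max_image {γ : Γ | dist o0 (γ • o0) ≤ r}
      (fun γ => dist o0 (γ • o0)) (hprop r) ⟨1, by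
        change dist o0 ((1 : Γ) • o0) ≤ r
        rwa [one_smul, dist_self]⟩
    have hγ₁' : dist o0 (γ₁ • o0) ≤ r := hγ₁
    have h0 := dist_nonneg (x := o0) (y := γ₁ • o0)
    obtain ⟨m, hm1, hm2⟩ := geo_HS (E := E3) o0 (γ₁ • o0) (dist o0 (γ₁ • o0) / 2)
      (by positivity) (by linarith)
    have hsub : {γ : Γ | dist o0 (γ • o0) ≤ r} ⊆ {γ : Γ | dist m (γ • o0) ≤ r / 2 + 22} := by
      intro γ hγ
      have h1 : dist o0 (γ • o0) ≤ dist o0 (γ₁ • o0) := hmax γ hγ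
      have h2 := hmin γ₁ γ h1
      change dist m (γ • o0) ≤ r / 2 + 22
      rcases (hyp_HS (E := E3)).cases m (γ • o0) o0 (γ₁ • o0) with h3 | h3
      · rw [dist_comm m o0, dist_comm (γ • o0) (γ₁ • o0)] at h3
        linarith
      · rw [dist_comm (γ • o0) o0] at h3
        linarith
    obtain ⟨hf, hn⟩ := hcnt m (r / 2 + 22) (by linarith)
    calc ({γ : Γ | dist o0 (γ • o0) ≤ r}.ncard : ℝ) ≤
          ({γ : Γ | dist m (γ • o0) ≤ r / 2 + 22}.ncard : ℝ) := by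
          exact_mod_cast Set.ncard_le_ncard hsub hf
      _ ≤ C * exp (2 * (r / 2 + 22)) := hn
      _ = _ := by rw [mul_assoc, ← Real.exp_add]; congr 2; ring
  exact growth_lower hΓ hprop hF hFm hcov (by norm_num) hup

/-- the critical exponent of a lattice is two -/
theorem lattice_dexp [IsIsometricSMul Γ (HS E3)] (hΓ : ∀ g ∈ Γ, ∀ x y, B (g x) (g y) = B x y)
    (hprop : ∀ r : ℝ, {γ : Γ | dist o0 (γ • o0) ≤ r}.Finite)
    {F : Set E3} (hF : MeasurableSet F) (hFm : mu F ≠ ⊤) (hcov : ∀ x : E3, ∃ g ∈ Γ, g x ∈ F) :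
    dexp o0 (Set.univ : Set Γ) = 2 := by
  obtain ⟨C, hC, hcnt⟩ := orbit_count (Γ := Γ) hprop
  have huniv : ∀ r : ℝ, {γ : Γ | γ ∈ (Set.univ : Set Γ) ∧ dist o0 (γ • o0) ≤ r} =
      {γ : Γ | dist o0 (γ • o0) ≤ r} := by
    intro r; ext γ; simp only [Set.mem_univ, true_and]
  have hone : ∀ r : ℝ, 0 ≤ r →
      1 ≤ {γ : Γ | γ ∈ (Set.univ : Set Γ) ∧ dist o0 (γ • o0) ≤ r}.ncard :=
    fun r hr => one_le_count hprop (Set.mem_univ _) hr
  obtain ⟨hb1, hb2, hb3⟩ := limsup_exp hC ((eventually_ge_atTop 0).mono hone)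
    ((eventually_ge_atTop 0).mono (fun r hr => by rw [huniv]; exact (hcnt o0 r hr).2))
  apply le_antisymm hb3
  by_contra hlt
  push Not at hlt
  obtain ⟨b, hb1', hb2'⟩ := exists_between hlt
  have h1 : ∀ᶠ r : ℝ in atTop,
      Real.log ({γ : Γ | γ ∈ (Set.univ : Set Γ) ∧ dist o0 (γ • o0) ≤ r}.ncard : ℝ) / r < b :=
    eventually_lt_of_limsup_lt hb1' hb1
  obtain ⟨r₀, hr₀⟩ := (h1.and (eventually_gt_atTop 0)).exists_forall_of_atTop
  set K₀ : ℝ := ({γ : Γ | dist o0 (γ • o0) ≤ r₀}.ncard : ℝ) + 1 with hK₀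
  have hn0 : (0 : ℝ) ≤ ({γ : Γ | dist o0 (γ • o0) ≤ r₀}.ncard : ℝ) := Nat.cast_nonneg _
  refine growth_lower hΓ hprop hF hFm hcov (C := K₀) (b := max b 0)
    (max_lt hb2' (by norm_num)) ?_
  intro r hr
  rcases le_total r₀ r with h2 | h2
  · obtain ⟨h3, h4⟩ := hr₀ r h2
    rw [huniv] at h3
    have h5 : (0 : ℝ) < {γ : Γ | dist o0 (γ • o0) ≤ r}.ncard := by
      have := hone r hr
      rw [huniv] at this
      exact_mod_cast this
    rw [div_lt_iff₀ h4] at h3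
    have h6 : ({γ : Γ | dist o0 (γ • o0) ≤ r}.ncard : ℝ) ≤ exp (max b 0 * r) := by
      rw [← Real.log_le_iff_le_exp h5]
      refine h3.le.trans ?_
      exact mul_le_mul_of_nonneg_right (le_max_left _ _) hr
    have h7 := Real.exp_pos (max b 0 * r)
    nlinarith
  · have h3 : ({γ : Γ | dist o0 (γ • o0) ≤ r}.ncard : ℝ) ≤
        ({γ : Γ | dist o0 (γ • o0) ≤ r₀}.ncard : ℝ) := by
      exact_mod_cast Set.ncard_le_ncard
        (fun γ (hγ : dist o0 (γ • o0) ≤ r) => hγ.trans h2) (hprop r₀)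
    have h4 : 1 ≤ exp (max b 0 * r) := Real.one_le_exp (mul_nonneg (le_max_right _ _) hr)
    nlinarith

/-- the theorem for lattices, in terms of the action -/
theorem lattice_main (hΓ : ∀ g ∈ Γ, ∀ x y, B (g x) (g y) = B x y)
    (hprop : ∀ r : ℝ, {γ : Γ | dist o0 (γ • o0) ≤ r}.Finite)
    {F : Set E3} (hF : MeasurableSet F) (hFm : mu F ≠ ⊤) (hcov : ∀ x : E3, ∃ g ∈ Γ, g x ∈ F) :
    ∃ N : ℕ → Subgroup Γ, (∀ i, (N i).Normal ∧ (N i : Set Γ).Infinite) ∧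
      Tendsto (fun i => dexp o0 (N i : Set Γ) / dexp o0 (Set.univ : Set Γ)) atTop
        (𝓝 (1 / 2)) := by
  have hiso : IsIsometricSMul Γ (HS E3) := ⟨fun γ => Isometry.of_dist_eq fun x y => by
    exact congrArg arcosh (hΓ γ γ.2 x y)⟩
  obtain ⟨g, hg⟩ := lattice_lox hΓ hprop hF hFm hcov
  have hd2 := lattice_dexp hΓ hprop hF hFm hcov
  obtain ⟨Y, hY⟩ := net_HS
  refine hg.seq hprop geo_HS (C₀ := 1) zero_le_one (by rw [hd2]; norm_num)
    (y := fun y : Y => (y : E3)) ?_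
  intro η hη
  refine ⟨kp, kp_pos.le, ?_⟩
  rw [hd2]
  have := hY η hη
  norm_num
  exact this

end Pool.Agent.Helper97.Hyp.HModel
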