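import Mathlib

set_option autoImplicit false
set_option linter.unusedSectionVars false

namespace Pool.Agent.Helper97.Hyp.Second

open MeasureTheory ENNReal

variable {X Γ : Type*} [MeasurableSpace X] [Group Γ] [Countable Γ] [MulAction Γ X]

/-- Dirichlet type set -/
def Dir (Γ : Type*) [Group Γ] [MulAction Γ X] (ρ : X → ℝ) : Set X := {x | ∀ γ : Γ, ρ x ≤ ρ (γ • x)}

/-- multiplicity -/
noncomputable def Mu (Γ : Type*) [Group Γ] [MulAction Γ X] (ρ : X → ℝ) (x : X) : ℝ≥0∞ :=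
  ∑' γ : Γ, (Dir Γ ρ).indicator 1 (γ • x)

/-- weight -/
noncomputable def W (Γ : Type*) [Group Γ] [MulAction Γ X] (ρ : X → ℝ) (x : X) : ℝ≥0∞ :=
  (Dir Γ ρ).indicator 1 x * (Mu Γ ρ x)⁻¹

variable {ρ : X → ℝ} {μ : Measure X}

lemma tsum_smul_smul (f : X → ℝ≥0∞) (β : Γ) (x : X) :
    ∑' γ : Γ, f (γ • β • x) = ∑' γ : Γ, f (γ • x) := by
  simp_rw [smul_smul]
  exact (Equiv.mulRight β).tsum_eq (fun γ : Γ => f (γ • x))

lemma measurable_Dir (hρ : Measurable ρ) (hm : ∀ γ : Γ, Measurable (fun x : X => γ • x)) :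
    MeasurableSet (Dir (X := X) Γ ρ) := by
  have : Dir (X := X) Γ ρ = ⋂ γ : Γ, {x | ρ x ≤ ρ (γ • x)} := by
    ext x; simp [Dir]
  rw [this]
  exact MeasurableSet.iInter fun γ => measurableSet_le hρ (hρ.comp (hm γ))

lemma measurable_Mu (hρ : Measurable ρ) (hm : ∀ γ : Γ, Measurable (fun x : X => γ • x)) :
    Measurable (Mu (X := X) Γ ρ) := by
  unfold Mu
  apply Measurable.tsum
  intro γ
  exact ((measurable_one.indicator (measurable_Dir hρ hm))).comp (hm γ)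

lemma measurable_W (hρ : Measurable ρ) (hm : ∀ γ : Γ, Measurable (fun x : X => γ • x)) :
    Measurable (W (X := X) Γ ρ) :=
  (measurable_one.indicator (measurable_Dir hρ hm)).mul (measurable_Mu hρ hm).inv

lemma Mu_ne_zero (hfin : ∀ (x : X) (r : ℝ), {γ : Γ | ρ (γ • x) ≤ r}.Finite) (x : X) :
    Mu Γ ρ x ≠ 0 := by
  obtain ⟨γ₀, hγ₀, hmin⟩ := Set.exists_min_image {γ : Γ | ρ (γ • x) ≤ ρ x}
    (fun γ => ρ (γ • x)) (hfin x _) ⟨1, by simp⟩
  have hall : ∀ γ : Γ, ρ (γ₀ • x) ≤ ρ (γ • x) := by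
    intro γ
    by_cases h : ρ (γ • x) ≤ ρ x
    · exact hmin γ h
    · push Not at h
      exact le_trans hγ₀ h.le
  have hD : γ₀ • x ∈ Dir Γ ρ := by
    intro γ
    rw [smul_smul]
    exact hall _
  intro h0
  unfold Mu at h0
  rw [ENNReal.tsum_eq_zero] at h0
  have := h0 γ₀
  rw [Set.indicator_of_mem hD] at this
  simp at this

lemma Mu_ne_top (hfin : ∀ (x : X) (r : ℝ), {γ : Γ | ρ (γ • x) ≤ r}.Finite) (x : X) :
    Mu Γ ρ x ≠ ∞ := by
  have h1 : {γ : Γ | γ • x ∈ Dir Γ ρ} ⊆ {γ : Γ | ρ (γ • x) ≤ ρ x} := by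
    intro γ hγ
    have := hγ γ⁻¹
    rwa [inv_smul_smul] at this
  have h2 := (hfin x (ρ x)).subset h1
  unfold Mu
  rw [tsum_eq_sum (s := h2.toFinset)]
  · rw [ENNReal.sum_ne_top]
    intro γ _
    exact ne_of_lt (lt_of_le_of_lt (Set.indicator_le_self' (fun _ _ => zero_le) _) (by simp))
  · intro γ hγ
    rw [Set.Finite.mem_toFinset] at hγ
    have hγ' : γ • x ∉ Dir Γ ρ := hγ
    exact Set.indicator_of_notMem hγ' _

lemma Mu_smul (β : Γ) (x : X) : Mu Γ ρ (β • x) = Mu Γ ρ x := tsum_smul_smul _ β x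

lemma tsum_W (hfin : ∀ (x : X) (r : ℝ), {γ : Γ | ρ (γ • x) ≤ r}.Finite) (x : X) :
    ∑' γ : Γ, W Γ ρ (γ • x) = 1 := by
  unfold W
  simp_rw [Mu_smul]
  rw [ENNReal.tsum_mul_right]
  exact ENNReal.mul_inv_cancel (Mu_ne_zero hfin x) (Mu_ne_top hfin x)

variable (hρ : Measurable ρ) (hfin : ∀ (x : X) (r : ℝ), {γ : Γ | ρ (γ • x) ≤ r}.Finite)
  (hmp : ∀ γ : Γ, MeasurePreserving (fun x : X => γ • x) μ μ)

include hρ hfin hmp

lemma unfold_int {f : X → ℝ≥0∞} (hf : Measurable f) :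
    ∫⁻ x, W Γ ρ x * ∑' γ : Γ, f (γ • x) ∂μ = ∫⁻ x, f x ∂μ := by
  have hW := measurable_W (X := X) (Γ := Γ) hρ (fun γ => (hmp γ).measurable)
  simp_rw [← ENNReal.tsum_mul_left]
  rw [lintegral_tsum (f := fun (γ : Γ) x => W Γ ρ x * f (γ • x))
    (fun γ => (hW.mul (hf.comp (hmp γ).measurable)).aemeasurable)]
  have h1 : ∀ γ : Γ, ∫⁻ x, W Γ ρ x * f (γ • x) ∂μ = ∫⁻ x, W Γ ρ (γ⁻¹ • x) * f x ∂μ := by
    intro γ
    have h2 := (hmp γ).lintegral_comp (f := fun x => W Γ ρ (γ⁻¹ • x) * f x)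
      ((hW.comp (hmp γ⁻¹).measurable).mul hf)
    rw [← h2]
    simp only [inv_smul_smul]
  simp_rw [h1]
  rw [← lintegral_tsum (f := fun (γ : Γ) x => W Γ ρ (γ⁻¹ • x) * f x)
    (fun γ => ((hW.comp (hmp γ⁻¹).measurable).mul hf).aemeasurable)]
  apply lintegral_congr
  intro x
  rw [ENNReal.tsum_mul_right]
  have h3 : ∑' γ : Γ, W Γ ρ (γ⁻¹ • x) = ∑' γ : Γ, W Γ ρ (γ • x) :=
    (Equiv.inv Γ).tsum_eq (fun γ : Γ => W Γ ρ (γ • x))
  rw [h3, tsum_W hfin, one_mul]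

lemma int_W_le {F : Set X} (hF : MeasurableSet F) (hcov : ∀ x, ∃ γ : Γ, γ • x ∈ F) :
    ∫⁻ x, W Γ ρ x ∂μ ≤ μ F := by
  calc ∫⁻ x, W Γ ρ x ∂μ ≤ ∫⁻ x, W Γ ρ x * ∑' γ : Γ, F.indicator 1 (γ • x) ∂μ := by
        apply lintegral_mono
        intro x
        obtain ⟨γ, hγ⟩ := hcov x
        have h1 : (1 : ℝ≥0∞) ≤ ∑' γ : Γ, F.indicator 1 (γ • x) := by
          have := ENNReal.le_tsum (f := fun γ : Γ => F.indicator (1 : X → ℝ≥0∞) (γ • x)) γ
          rwa [Set.indicator_of_mem hγ] at this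
        calc W Γ ρ x = W Γ ρ x * 1 := (mul_one _).symm
          _ ≤ _ := mul_le_mul' le_rfl h1
    _ = ∫⁻ x, F.indicator 1 x ∂μ := unfold_int hρ hfin hmp (measurable_one.indicator hF)
    _ = μ F := lintegral_indicator_one hF

theorem second_moment {F : Set X} (hF : MeasurableSet F) (hcov : ∀ x, ∃ γ : Γ, γ • x ∈ F)
    {S : Set X} (hS : MeasurableSet S) :
    μ S ^ 2 ≤ μ F * ∑' γ : Γ, μ (S ∩ (fun x => γ • x) ⁻¹' S) := by
  have hW := measurable_W (X := X) (Γ := Γ) hρ (fun γ => (hmp γ).measurable)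
  have hind : Measurable (S.indicator (1 : X → ℝ≥0∞)) := measurable_one.indicator hS
  set ψ : X → ℝ≥0∞ := fun x => ∑' γ : Γ, S.indicator 1 (γ • x) with hψ
  have hψm : Measurable ψ := by
    apply Measurable.tsum
    intro γ
    exact hind.comp (hmp γ).measurable
  have h1 : ∫⁻ x, W Γ ρ x * ψ x ∂μ = μ S := by
    rw [← lintegral_indicator_one hS]
    exact unfold_int hρ hfin hmp hind
  have h2 : ∫⁻ x, W Γ ρ x * (ψ x * ψ x) ∂μ =
      ∑' γ : Γ, μ (S ∩ (fun x => γ • x) ⁻¹' S) := by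
    have e1 : ∀ x, ψ x * ψ x = ∑' γ : Γ, (fun y => S.indicator 1 y * ψ y) (γ • x) := by
      intro x
      have e2 : ∀ γ : Γ, ψ (γ • x) = ψ x := fun γ => tsum_smul_smul _ γ x
      simp only [e2]
      rw [ENNReal.tsum_mul_right]
    simp_rw [e1]
    rw [unfold_int hρ hfin hmp (f := fun y => S.indicator 1 y * ψ y) (hind.mul hψm)]
    simp only [hψ]
    simp_rw [← ENNReal.tsum_mul_left]
    rw [lintegral_tsum (f := fun (γ : Γ) x => S.indicator 1 x * S.indicator 1 (γ • x))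
      (fun γ => (hind.mul (hind.comp (hmp γ).measurable)).aemeasurable)]
    congr 1
    ext γ
    rw [← lintegral_indicator_one (hS.inter ((hmp γ).measurable hS))]
    apply lintegral_congr
    intro x
    rw [Set.inter_indicator_one]
    rfl
  have h3 : ∫⁻ x, W Γ ρ x * ψ x ∂μ = ∫⁻ x, ψ x ∂(μ.withDensity (W Γ ρ)) := by
    exact (lintegral_withDensity_eq_lintegral_mul μ hW hψm).symm
  have h4 : ∫⁻ x, W Γ ρ x * (ψ x * ψ x) ∂μ =
      ∫⁻ x, ψ x * ψ x ∂(μ.withDensity (W Γ ρ)) := by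
    exact (lintegral_withDensity_eq_lintegral_mul μ hW (hψm.mul hψm)).symm
  have h5 : ∫⁻ x, W Γ ρ x ∂μ = ∫⁻ x, 1 ∂(μ.withDensity (W Γ ρ)) := by
    rw [lintegral_withDensity_eq_lintegral_mul _ hW measurable_const]
    simp
  have hh := ENNReal.lintegral_mul_le_Lp_mul_Lq (μ.withDensity (W Γ ρ))
    (p := 2) (q := 2) (by constructor <;> norm_num) (f := fun _ => 1) (g := ψ)
    aemeasurable_const hψm.aemeasurable
  have h6 : (∫⁻ x, ψ x ∂(μ.withDensity (W Γ ρ))) ^ 2 ≤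
      (∫⁻ x, 1 ∂(μ.withDensity (W Γ ρ))) * ∫⁻ x, ψ x * ψ x ∂(μ.withDensity (W Γ ρ)) := by
    have e1 : ∀ a b : ℝ≥0∞, (a ^ (1 / 2 : ℝ) * b ^ (1 / 2 : ℝ)) ^ 2 = a * b := by
      intro a b
      rw [← ENNReal.rpow_natCast, ENNReal.mul_rpow_of_nonneg _ _ (by norm_num),
        ← ENNReal.rpow_mul, ← ENNReal.rpow_mul]
      norm_num
    have e2 : ∀ x, ψ x ^ (2 : ℝ) = ψ x * ψ x := by
      intro x
      rw [← pow_two, ← ENNReal.rpow_natCast]
      norm_num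
    have e3 : (fun _ : X => (1 : ℝ≥0∞)) * ψ = ψ := by
      ext x; simp
    rw [e3] at hh
    simp only [ENNReal.one_rpow, e2] at hh
    calc _ ≤ ((∫⁻ x, 1 ∂(μ.withDensity (W Γ ρ))) ^ (1 / 2 : ℝ) *
          (∫⁻ x, ψ x * ψ x ∂(μ.withDensity (W Γ ρ))) ^ (1 / 2 : ℝ)) ^ 2 := by gcongr
      _ = _ := e1 _ _
  rw [← h3, ← h4, ← h5, h1, h2] at h6
  exact h6.trans (mul_le_mul' (int_W_le hρ hfin hmp hF hcov) le_rfl)

end Pool.Agent.Helper97.Hyp.Second
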