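import Pool.Agent.Helper97.Hyp.HVol
import Pool.Agent.Helper97.Hyp.Second
import Pool.Agent.Helper97.Hyp.Cocompact

set_option autoImplicit false
set_option linter.unusedSectionVars false

namespace Pool.Agent.Helper97.Hyp.HModel

open MeasureTheory Real Filter Topology

noncomputable instance (Γ : Subgroup (Equiv.Perm E3)) : MulAction Γ (HS E3) :=
  inferInstanceAs (MulAction Γ E3)

variable {Γ : Subgroup (Equiv.Perm E3)}

lemma smul_HS (γ : Γ) (x : E3) : (γ • (x : HS E3) : HS E3) = (γ : Equiv.Perm E3) x := rfl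

/-- base point -/
def o0 : HS E3 := (0 : E3)

/-- orbit counting -/
theorem orbit_count [IsIsometricSMul Γ (HS E3)]
    (hprop : ∀ r : ℝ, {γ : Γ | dist o0 (γ • o0) ≤ r}.Finite) :
    ∃ C : ℝ, 0 < C ∧ ∀ (z : HS E3) (r : ℝ), 0 ≤ r →
      {γ : Γ | dist z (γ • o0) ≤ r}.Finite ∧
      ({γ : Γ | dist z (γ • o0) ≤ r}.ncard : ℝ) ≤ C * exp (2 * r) := by
  classical
  obtain ⟨Y, hsep, hdense⟩ := exists_net
  have hi : ∀ γ : Γ, ∃ y : Y, dist (γ • o0) ((y : E3) : HS E3) ≤ 1 := by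
    intro γ
    obtain ⟨y, hy, hd⟩ := hdense (γ • o0 : HS E3)
    exact ⟨⟨y, hy⟩, hd⟩
  choose φ hφ using hi
  set m₀ := {γ : Γ | dist o0 (γ • o0) ≤ 2}.ncard with hm₀
  have hkp := kp_pos
  refine ⟨(m₀ + 1) * (kp * exp 2), by positivity, ?_⟩
  intro z r hr
  have hfin : {γ : Γ | dist z (γ • o0) ≤ r}.Finite := by
    apply (hprop (dist o0 z + r)).subset
    intro γ hγ
    have h1 : dist z (γ • o0) ≤ r := hγ
    change dist o0 (γ • o0) ≤ dist o0 z + r
    have := dist_triangle o0 z (γ • o0)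
    linarith
  refine ⟨hfin, ?_⟩
  set t := hfin.toFinset with ht
  have hmem : ∀ γ, γ ∈ t ↔ dist z (γ • o0) ≤ r := by
    intro γ; rw [ht, Set.Finite.mem_toFinset]; rfl
  have hfib : ∀ b ∈ t.image φ, (t.filter (fun a => φ a = b)).card ≤ m₀ := by
    intro b hb
    rw [Finset.mem_image] at hb
    obtain ⟨γ₀, hγ₀, rfl⟩ := hb
    rw [← Set.ncard_coe_finset]
    apply Set.ncard_le_ncard_of_injOn (fun γ => γ₀⁻¹ * γ) (ht := hprop 2)
    · intro γ hγ
      rw [Finset.mem_coe, Finset.mem_filter] at hγ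
      change dist o0 ((γ₀⁻¹ * γ) • o0) ≤ 2
      rw [mul_smul, ← dist_smul γ₀, smul_inv_smul]
      have h1 := hφ γ
      have h2 := hφ γ₀
      rw [hγ.2] at h1
      have h3 := dist_triangle (α := HS E3) (γ₀ • o0) (φ γ₀ : E3) (γ • o0)
      have h4 := dist_comm (α := HS E3) (φ γ₀ : E3) (γ • o0)
      linarith
    · intro γ _ γ' _ heq
      exact mul_left_cancel heq
  have h1 := Finset.card_le_mul_card_image t m₀ hfib
  have h2 : ((t.image φ).card : ℝ) ≤ kp * exp (2 * (r + 1)) := by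
    apply packing (fun y : Y => (y : E3)) _ _ z (by linarith)
    · intro i hi
      rw [Finset.mem_image] at hi
      obtain ⟨γ, hγ, rfl⟩ := hi
      rw [hmem] at hγ
      have h3 := hφ γ
      have h4 : dist z ((φ γ : E3) : HS E3) ≤ dist z (γ • o0) + dist (γ • o0) ((φ γ : E3) : HS E3) :=
        dist_triangle _ _ _
      change dist z ((φ γ : E3) : HS E3) ≤ r + 1
      linarith
    · intro i _ j _ hij
      exact hsep _ i.2 _ j.2 (fun h => hij (Subtype.ext h))
  rw [Set.ncard_eq_toFinset_card _ hfin]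
  have h3 : (t.card : ℝ) ≤ m₀ * ((t.image φ).card : ℝ) := by exact_mod_cast h1
  have h4 : exp (2 * (r + 1)) = exp 2 * exp (2 * r) := by rw [← Real.exp_add]; congr 1; ring
  rw [h4] at h2
  have h5 : (0 : ℝ) ≤ m₀ := Nat.cast_nonneg _
  calc (t.card : ℝ) ≤ m₀ * ((t.image φ).card : ℝ) := h3
    _ ≤ m₀ * (kp * (exp 2 * exp (2 * r))) := mul_le_mul_of_nonneg_left h2 h5
    _ ≤ (m₀ + 1) * (kp * (exp 2 * exp (2 * r))) := by
        apply mul_le_mul_of_nonneg_right _ (by positivity)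
        linarith
    _ = _ := by ring

/-- volume of intersections of balls -/
lemma mu_inter (p : E3) {R : ℝ} (hR : 0 ≤ R) :
    mu (bl 0 R ∩ bl p R) ≤ if hd 0 p ≤ 2 * R then
      ENNReal.ofReal (16 * vb * exp 8 * exp (2 * R) * exp (-hd 0 p)) else 0 := by
  have hv := vb_pos
  split_ifs with hp
  · obtain ⟨m, hm1, hm2⟩ := hd_geo 0 p (t := hd 0 p / 2)
      (by have := hd_nonneg 0 p; positivity) (by have := hd_nonneg 0 p; linarith)
    have h1 : bl 0 R ∩ bl p R ⊆ bl m (R - hd 0 p / 2 + 4) := by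
      rintro x ⟨hx1, hx2⟩
      rw [mem_bl hR] at hx1 hx2
      rw [mem_bl (by linarith)]
      have h2 := hyp_HS (E := E3).cases (x : HS E3) (m : HS E3) (0 : E3) (p : E3)
      change hd x m + hd 0 p ≤ hd x 0 + hd m p + 2 * 2 ∨
        hd x m + hd 0 p ≤ hd x p + hd m 0 + 2 * 2 at h2
      rw [hd_symm x 0, hd_symm x p, hd_symm m 0, hd_symm x m] at h2
      rcases h2 with h2 | h2 <;> linarith
    refine (measure_mono h1).trans ((mu_bl_upper m (by linarith)).trans ?_)
    apply ENNReal.ofReal_le_ofReal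
    have h3 : exp (2 * (R - hd 0 p / 2 + 4)) = exp 8 * exp (2 * R) * exp (-hd 0 p) := by
      rw [← Real.exp_add, ← Real.exp_add]; congr 1; ring
    rw [h3]
    apply le_of_eq; ring
  · have h1 : bl 0 R ∩ bl p R = ∅ := by
      rw [Set.eq_empty_iff_forall_notMem]
      rintro x ⟨hx1, hx2⟩
      rw [mem_bl hR] at hx1 hx2
      have := hd_triangle 0 x p
      rw [hd_symm x p] at this
      exact hp (by linarith)
    rw [h1, measure_empty]

lemma sinh_low {R : ℝ} (hR : 1 ≤ R) : 1 / 20 * exp (2 * R) ≤ sinh R ^ 3 / cosh R := by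
  have h1 : 2 / 5 * exp R ≤ sinh R := by
    rw [Real.sinh_eq]
    have h2 : exp (-R) = exp (-(2 * R)) * exp R := by rw [← Real.exp_add]; ring_nf
    have h3 : exp (-(2 * R)) ≤ exp (-1) * exp (-1) := by
      rw [← Real.exp_add]; exact Real.exp_le_exp.mpr (by linarith)
    have h4 := Real.exp_neg_one_lt_d9
    have h5 := Real.exp_pos (-1)
    have h6 := Real.exp_pos R
    have h7 : exp (-(2 * R)) ≤ 1 / 5 := by nlinarith
    rw [h2]
    nlinarith
  have h2 : cosh R ≤ exp R := by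
    rw [Real.cosh_eq]
    have := Real.exp_le_exp.mpr (by linarith : -R ≤ R)
    linarith
  have h3 := Real.cosh_pos R
  have h4 := Real.exp_pos R
  rw [le_div_iff₀ h3]
  have h5 : exp (2 * R) = exp R ^ 2 := by rw [← Real.exp_nat_mul]; norm_num
  rw [h5]
  calc 1 / 20 * exp R ^ 2 * cosh R ≤ 1 / 20 * exp R ^ 2 * exp R := by
        apply mul_le_mul_of_nonneg_left h2 (by positivity)
    _ ≤ (2 / 5 * exp R) ^ 3 := by
        have : 0 < exp R ^ 3 := by positivity
        nlinarith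
    _ ≤ sinh R ^ 3 := by
        apply pow_le_pow_left₀ (by positivity) h1

/-- lower bound for a Poincare type sum, for groups of finite covolume -/
theorem sum_lower [IsIsometricSMul Γ (HS E3)] (hΓ : ∀ g ∈ Γ, ∀ x y, B (g x) (g y) = B x y)
    (hprop : ∀ r : ℝ, {γ : Γ | dist o0 (γ • o0) ≤ r}.Finite)
    {F : Set E3} (hF : MeasurableSet F) (hFm : mu F ≠ ⊤) (hcov : ∀ x : E3, ∃ g ∈ Γ, g x ∈ F) :
    ∃ c : ℝ, 0 < c ∧ ∀ R : ℝ, 1 ≤ R →
      c * exp (2 * R) ≤ ∑ γ ∈ (hprop (2 * R)).toFinset, exp (-dist o0 (γ • o0)) := by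
  classical
  have hv := vb_pos
  have hcount : Countable Γ := by
    have h1 : (Set.univ : Set Γ) = ⋃ n : ℕ, {γ : Γ | dist o0 (γ • o0) ≤ n} := by
      ext γ
      simp only [Set.mem_univ, Set.mem_iUnion, true_iff]
      obtain ⟨n, hn⟩ := exists_nat_ge (dist o0 (γ • o0))
      exact ⟨n, hn⟩
    rw [← Set.countable_univ_iff, h1]
    exact Set.countable_iUnion fun n => (hprop n).countable
  set V := (mu F).toReal with hV
  have hVeq : mu F = ENNReal.ofReal V := (ENNReal.ofReal_toReal hFm).symm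
  have hV0 : 0 ≤ V := ENNReal.toReal_nonneg
  set c := (vb / 20) ^ 2 / ((V + 1) * (16 * vb * exp 8)) with hc
  refine ⟨c, by positivity, ?_⟩
  intro R hR
  have hR0 : 0 ≤ R := by linarith
  have hsm := Second.second_moment (X := E3) (Γ := Γ) (ρ := s) (μ := mu)
    continuous_s.measurable (by
      intro x r
      apply (hprop (hd 0 x + arcosh r)).subset
      intro γ hγ
      have hγ' : s (γ • x) ≤ r := hγ
      change hd 0 (γ • (0 : E3)) ≤ hd 0 x + arcosh r
      have h1 : hd 0 (γ • x) ≤ arcosh r := by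
        unfold hd
        rw [B_zero]
        exact (arcosh_le_arcosh (s_pos _) (lt_of_lt_of_le (s_pos _) hγ')).mpr hγ'
      have h2 : hd (γ • (0 : E3)) (γ • x) = hd 0 x := by
        unfold hd
        rw [show B (γ • (0 : E3)) (γ • x) = B 0 x from hΓ γ γ.2 0 x]
      have h3 := hd_triangle 0 (γ • x) (γ • (0 : E3))
      rw [hd_symm (γ • x), h2] at h3
      linarith)
    (fun γ => perm_measurePreserving (hΓ γ γ.2)) hF
    (fun x => by obtain ⟨g, hg, hx⟩ := hcov x; exact ⟨⟨g, hg⟩, hx⟩)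
    (measurableSet_bl 0 R)
  have hterm : ∀ γ : Γ, mu (bl 0 R ∩ (fun x : E3 => γ • x) ⁻¹' bl 0 R) ≤
      if dist o0 (γ • o0) ≤ 2 * R then
        ENNReal.ofReal (16 * vb * exp 8 * exp (2 * R) * exp (-dist o0 (γ • o0))) else 0 := by
    intro γ
    have h1 : (fun x : E3 => γ • x) ⁻¹' bl 0 R = bl (γ⁻¹ • (0 : E3)) R := by
      ext x
      change B 0 (γ • x) ≤ cosh R ↔ B (γ⁻¹ • (0 : E3)) x ≤ cosh R
      have h2 : B (γ • γ⁻¹ • (0 : E3)) (γ • x) = B (γ⁻¹ • (0 : E3)) x := hΓ γ γ.2 _ _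
      rw [smul_inv_smul] at h2
      rw [h2]
    have h3 : hd 0 (γ⁻¹ • (0 : E3)) = dist o0 (γ • o0) := by
      change dist o0 (γ⁻¹ • o0) = dist o0 (γ • o0)
      rw [← dist_smul γ, smul_inv_smul, dist_comm]
    rw [h1, ← h3]
    exact mu_inter _ hR0
  have htsum : ∑' γ : Γ, mu (bl 0 R ∩ (fun x : E3 => γ • x) ⁻¹' bl 0 R) ≤
      ENNReal.ofReal (16 * vb * exp 8 * exp (2 * R) *
        ∑ γ ∈ (hprop (2 * R)).toFinset, exp (-dist o0 (γ • o0))) := by
    refine (ENNReal.tsum_le_tsum hterm).trans ?_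
    rw [tsum_eq_sum (s := (hprop (2 * R)).toFinset)]
    · rw [Finset.mul_sum, ENNReal.ofReal_sum_of_nonneg (fun γ _ => by positivity)]
      apply Finset.sum_le_sum
      intro γ hγ
      rw [Set.Finite.mem_toFinset] at hγ
      have hγ' : dist o0 (γ • o0) ≤ 2 * R := hγ
      rw [if_pos hγ']
    · intro γ hγ
      rw [Set.Finite.mem_toFinset] at hγ
      exact if_neg hγ
  have hlow := mu_bl_lower hR0
  have hlow2 : ENNReal.ofReal ((vb / 20 * exp (2 * R)) ^ 2) ≤ mu (bl 0 R) ^ 2 := by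
    rw [ENNReal.ofReal_pow (by positivity)]
    apply pow_le_pow_left'
    refine le_trans (ENNReal.ofReal_le_ofReal ?_) hlow
    have := sinh_low hR
    calc vb / 20 * exp (2 * R) = (1 / 20 * exp (2 * R)) * vb := by ring
      _ ≤ _ := mul_le_mul_of_nonneg_right this hv.le
  have hS0 : 0 ≤ ∑ γ ∈ (hprop (2 * R)).toFinset, exp (-dist o0 (γ • o0)) :=
    Finset.sum_nonneg fun γ _ => (Real.exp_pos _).le
  generalize (∑ γ ∈ (hprop (2 * R)).toFinset, exp (-dist o0 (γ • o0))) = S at htsum hS0 ⊢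
  have hall := hlow2.trans (hsm.trans (mul_le_mul' (le_of_eq hVeq) htsum))
  rw [← ENNReal.ofReal_mul hV0, ENNReal.ofReal_le_ofReal_iff (by positivity)] at hall
  have h1 : (vb / 20) ^ 2 * exp (2 * R) * exp (2 * R) ≤
      ((V + 1) * (16 * vb * exp 8) * S) * exp (2 * R) := by
    calc (vb / 20) ^ 2 * exp (2 * R) * exp (2 * R) = (vb / 20 * exp (2 * R)) ^ 2 := by ring
      _ ≤ V * (16 * vb * exp 8 * exp (2 * R) * S) := hall
      _ ≤ (V + 1) * (16 * vb * exp 8 * exp (2 * R) * S) := by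
          apply mul_le_mul_of_nonneg_right (by linarith) (by positivity)
      _ = _ := by ring
  have h2 := le_of_mul_le_mul_right h1 (Real.exp_pos _)
  rw [hc, div_mul_eq_mul_div, div_le_iff₀ (by positivity)]
  linarith

/-- growth exponent at least two -/
theorem growth_lower [IsIsometricSMul Γ (HS E3)] (hΓ : ∀ g ∈ Γ, ∀ x y, B (g x) (g y) = B x y)
    (hprop : ∀ r : ℝ, {γ : Γ | dist o0 (γ • o0) ≤ r}.Finite)
    {F : Set E3} (hF : MeasurableSet F) (hFm : mu F ≠ ⊤) (hcov : ∀ x : E3, ∃ g ∈ Γ, g x ∈ F)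
    {C b : ℝ} (hb : b < 2)
    (hup : ∀ r : ℝ, 0 ≤ r → ({γ : Γ | dist o0 (γ • o0) ≤ r}.ncard : ℝ) ≤ C * exp (b * r)) :
    False := by
  classical
  obtain ⟨c, hc, hlow⟩ := sum_lower hΓ hprop hF hFm hcov
  -- we may assume 1 ≤ b
  set b' := max b 1 with hb'
  have hb'2 : b' < 2 := max_lt hb (by norm_num)
  have hb'1 : 1 ≤ b' := le_max_right _ _
  have hC0 : 0 < C := by
    have h1 := hup 0 le_rfl
    have h2 := one_le_count (o := o0) hprop (Set.mem_univ (1 : Γ)) le_rfl
    simp only [Set.mem_univ, true_and] at h2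
    have h3 : (1 : ℝ) ≤ ({γ : Γ | dist o0 (γ • o0) ≤ 0}.ncard : ℝ) := by exact_mod_cast h2
    simp only [mul_zero, Real.exp_zero, mul_one] at h1
    linarith
  have hup' : ∀ r : ℝ, 0 ≤ r → ({γ : Γ | dist o0 (γ • o0) ≤ r}.ncard : ℝ) ≤ C * exp (b' * r) := by
    intro r hr
    refine (hup r hr).trans ?_
    apply mul_le_mul_of_nonneg_left _ hC0.le
    apply Real.exp_le_exp.mpr
    exact mul_le_mul_of_nonneg_right (le_max_left _ _) hr
  have hkey : ∀ R : ℝ, 1 ≤ R →
      c * exp (2 * R) ≤ (2 * R + 1) * (C * exp b' * exp ((b' - 1) * (2 * R))) := by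
    intro R hR
    refine (hlow R hR).trans ?_
    set t := (hprop (2 * R)).toFinset with ht
    have hmem : ∀ γ, γ ∈ t ↔ dist o0 (γ • o0) ≤ 2 * R := by
      intro γ; rw [ht, Set.Finite.mem_toFinset]; rfl
    have hmaps : ∀ γ ∈ t, ⌊dist o0 (γ • o0)⌋₊ ∈ Finset.range (⌊2 * R⌋₊ + 1) := by
      intro γ hγ
      rw [Finset.mem_range, Nat.lt_succ_iff]
      exact Nat.floor_mono ((hmem γ).mp hγ)
    rw [← Finset.sum_fiberwise_of_maps_to hmaps]
    have hB : ∀ j ∈ Finset.range (⌊2 * R⌋₊ + 1),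
        ∑ γ ∈ t with ⌊dist o0 (γ • o0)⌋₊ = j, exp (-dist o0 (γ • o0)) ≤
          C * exp b' * exp ((b' - 1) * (2 * R)) := by
      intro j hj
      rw [Finset.mem_range, Nat.lt_succ_iff] at hj
      have hj' : (j : ℝ) ≤ 2 * R := (Nat.cast_le.mpr hj).trans (Nat.floor_le (by linarith))
      have h1 : ∀ γ ∈ t.filter (fun γ => ⌊dist o0 (γ • o0)⌋₊ = j),
          exp (-dist o0 (γ • o0)) ≤ exp (-(j : ℝ)) := by
        intro γ hγ
        rw [Finset.mem_filter] at hγ
        apply Real.exp_le_exp.mpr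
        have := Nat.floor_le (dist_nonneg (x := o0) (y := γ • o0))
        rw [hγ.2] at this
        linarith
      have h2 : ((t.filter (fun γ => ⌊dist o0 (γ • o0)⌋₊ = j)).card : ℝ) ≤
          C * exp (b' * (j + 1)) := by
        refine le_trans ?_ (hup' (j + 1) (by positivity))
        have h3 : (t.filter (fun γ => ⌊dist o0 (γ • o0)⌋₊ = j)).card ≤
            {γ : Γ | dist o0 (γ • o0) ≤ (j : ℝ) + 1}.ncard := by
          rw [← Set.ncard_coe_finset]
          apply Set.ncard_le_ncard _ (hprop _)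
          intro γ hγ
          rw [Finset.mem_coe, Finset.mem_filter] at hγ
          have := Nat.lt_floor_add_one (dist o0 (γ • o0))
          rw [hγ.2] at this
          exact this.le
        exact_mod_cast h3
      calc _ ≤ ∑ γ ∈ t with ⌊dist o0 (γ • o0)⌋₊ = j, exp (-(j : ℝ)) := Finset.sum_le_sum h1
        _ = ((t.filter (fun γ => ⌊dist o0 (γ • o0)⌋₊ = j)).card : ℝ) * exp (-(j : ℝ)) := by
            rw [Finset.sum_const, nsmul_eq_mul]
        _ ≤ C * exp (b' * (j + 1)) * exp (-(j : ℝ)) :=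
            mul_le_mul_of_nonneg_right h2 (Real.exp_pos _).le
        _ = C * exp b' * exp ((b' - 1) * j) := by
            rw [mul_assoc, mul_assoc, ← Real.exp_add, ← Real.exp_add]; congr 2; ring
        _ ≤ _ := by
            apply mul_le_mul_of_nonneg_left _ (by positivity)
            apply Real.exp_le_exp.mpr
            exact mul_le_mul_of_nonneg_left hj' (by linarith)
    refine (Finset.sum_le_sum hB).trans ?_
    rw [Finset.sum_const, Finset.card_range, nsmul_eq_mul]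
    apply mul_le_mul_of_nonneg_right _ (by positivity)
    push_cast
    have := Nat.floor_le (by linarith : 0 ≤ 2 * R)
    linarith
  -- contradiction for large R
  have hε : 0 < 2 - b' := by linarith
  have h1 : Tendsto (fun x : ℝ => x ^ 1 * Real.exp (-x)) atTop (𝓝 0) :=
    Real.tendsto_pow_mul_exp_neg_atTop_nhds_zero 1
  have h2 : Tendsto (fun x : ℝ => x ^ 0 * Real.exp (-x)) atTop (𝓝 0) :=
    Real.tendsto_pow_mul_exp_neg_atTop_nhds_zero 0
  have h3 : Tendsto (fun x : ℝ => (2 * (2 - b')) * x) atTop atTop :=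
    tendsto_id.const_mul_atTop (by positivity)
  have h4 := h1.comp h3
  have h5 := h2.comp h3
  have h6 : Tendsto (fun x : ℝ => (C * exp b' / (2 - b')) *
      (((2 * (2 - b')) * x) ^ 1 * Real.exp (-((2 * (2 - b')) * x))) +
      (C * exp b') * (((2 * (2 - b')) * x) ^ 0 * Real.exp (-((2 * (2 - b')) * x)))) atTop
      (𝓝 ((C * exp b' / (2 - b')) * 0 + (C * exp b') * 0)) :=
    (h4.const_mul _).add (h5.const_mul _)
  rw [mul_zero, mul_zero, add_zero] at h6
  obtain ⟨R, hR, hR1⟩ := ((h6.eventually_lt_const hc).and (eventually_ge_atTop 1)).exists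
  have h7 := hkey R hR1
  have h8 : exp ((b' - 1) * (2 * R)) = exp (-((2 * (2 - b')) * R)) * exp (2 * R) := by
    rw [← Real.exp_add]; congr 1; ring
  rw [h8] at h7
  have h9 : (2 * R + 1) * (C * exp b' * (exp (-((2 * (2 - b')) * R)) * exp (2 * R))) =
      ((C * exp b' / (2 - b')) *
      (((2 * (2 - b')) * R) ^ 1 * Real.exp (-((2 * (2 - b')) * R))) +
      (C * exp b') * (((2 * (2 - b')) * R) ^ 0 * Real.exp (-((2 * (2 - b')) * R)))) *
        exp (2 * R) := by
    field_simp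
  rw [h9] at h7
  have h10 := le_of_mul_le_mul_right h7 (Real.exp_pos _)
  linarith

end Pool.Agent.Helper97.Hyp.HModel
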