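import Pool.Agent.Helper97.Hyp.HModel

set_option autoImplicit false
set_option linter.unusedSectionVars false

namespace Pool.Agent.Helper97.Hyp.HModel

open MeasureTheory Real

/-- three dimensional euclidean space -/
abbrev E3 : Type := EuclideanSpace ℝ (Fin 3)

section generic

variable {E : Type*} [NormedAddCommGroup E] [InnerProductSpace ℝ E]

lemma hasFDerivAt_s (x : E) : HasFDerivAt (s : E → ℝ) ((1 / s x) • innerSL ℝ x) x := by
  have h1 : HasFDerivAt (fun y : E => 1 + ‖y‖ ^ 2) (2 • innerSL ℝ x) x :=
    (hasStrictFDerivAt_norm_sq x).hasFDerivAt.const_add 1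
  have h2 : (1 + ‖x‖ ^ 2) ≠ 0 := by positivity
  have h3 := h1.sqrt h2
  have h4 : (1 / (2 * √(1 + ‖x‖ ^ 2))) • (2 • innerSL ℝ x) = (1 / s x) • innerSL ℝ x := by
    unfold s
    ext v
    simp only [_root_.smul_apply, innerSL_apply_apply, smul_eq_mul, nsmul_eq_mul]
    push_cast
    have : √(1 + ‖x‖ ^ 2) ≠ 0 := by positivity
    field_simp
  rw [h4] at h3
  exact h3

variable [FiniteDimensional ℝ E]

/-- Gram operator of the hyperbolic metric at `y` -/
noncomputable def KG (y : E) : E →ₗ[ℝ] E :=
  LinearMap.transvection (-(1 / s y ^ 2) • (innerSL ℝ y : E →L[ℝ] ℝ).toLinearMap) y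

lemma KG_apply (y v : E) : KG y v = v - (inner ℝ y v / s y ^ 2) • y := by
  unfold KG LinearMap.transvection
  simp only [LinearMap.coe_mk, AddHom.coe_mk, LinearMap.smul_apply,
    ContinuousLinearMap.coe_coe, innerSL_apply_apply, smul_eq_mul]
  rw [sub_eq_add_neg, ← neg_smul]
  congr 2
  ring

lemma KG_det (y : E) : LinearMap.det (KG y) = 1 / s y ^ 2 := by
  unfold KG
  rw [LinearMap.transvection.det]
  simp only [LinearMap.smul_apply, ContinuousLinearMap.coe_coe, innerSL_apply_apply, smul_eq_mul,
    real_inner_self_eq_norm_sq]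
  have h1 := s_sq y
  have h2 : ‖y‖ ^ 2 = s y ^ 2 - 1 := by linarith
  have h3 := s_pos y
  rw [h2]
  field_simp
  ring

lemma det_adjoint' (A : E →ₗ[ℝ] E) : LinearMap.det (LinearMap.adjoint A) = LinearMap.det A := by
  classical
  set b := stdOrthonormalBasis ℝ E
  rw [← LinearMap.det_toMatrix b.toBasis, ← LinearMap.det_toMatrix b.toBasis A,
    LinearMap.toMatrix_adjoint, Matrix.det_conjTranspose]
  simp

lemma det_sq_of_gram {A : E →ₗ[ℝ] E} {x y : E}
    (h : ∀ v w, inner ℝ (A v) (A w) - inner ℝ y (A v) * inner ℝ y (A w) / s y ^ 2 =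
      inner ℝ v w - inner ℝ x v * inner ℝ x w / s x ^ 2) :
    |LinearMap.det A| = s y / s x := by
  have h1 : LinearMap.adjoint A ∘ₗ (KG y ∘ₗ A) = KG x := by
    ext v
    apply ext_inner_right ℝ
    intro w
    simp only [LinearMap.coe_comp, Function.comp_apply]
    rw [LinearMap.adjoint_inner_left, KG_apply, KG_apply, inner_sub_left, inner_sub_left,
      inner_smul_left, inner_smul_left]
    simp only [conj_trivial]
    have := h v w
    rw [mul_div_right_comm, mul_div_right_comm] at this
    linarith
  have h2 := congrArg LinearMap.det h1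
  rw [LinearMap.det_comp, LinearMap.det_comp, det_adjoint', KG_det, KG_det] at h2
  have hx := s_pos x
  have hy := s_pos y
  have h3 : LinearMap.det A ^ 2 = (s y / s x) ^ 2 := by
    field_simp at h2 ⊢
    linarith
  rw [← abs_of_pos (div_pos hy hx)]
  exact sq_eq_sq_iff_abs_eq_abs _ _ |>.mp h3

end generic

/-- form preserving bijections are affine in the lift -/
lemma perm_formula (g : Equiv.Perm E3) (hg : ∀ x y, B (g x) (g y) = B x y) :
    ∃ (c : E3) (P : E3 →L[ℝ] E3) (α : ℝ) (β : E3), (∀ x, g x = s x • c + P x) ∧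
      (∀ x, s (g x) = α * s x - inner ℝ β x) := by
  set b := stdOrthonormalBasis ℝ E3 with hb
  have h1 : ∀ x z : E3, s (g x) * s z - inner ℝ z (g x) =
      s x * s (g.symm z) - inner ℝ (g.symm z) x := by
    intro x z
    have := hg x (g.symm z)
    rw [Equiv.apply_symm_apply] at this
    unfold B at this
    rw [real_inner_comm (g x) z, real_inner_comm x (g.symm z)]
    exact this
  have h2 : ∀ x : E3, s (g x) = s (g.symm 0) * s x - inner ℝ (g.symm 0) x := by
    intro x
    have := h1 x 0
    rw [s_zero, inner_zero_left] at this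
    linarith
  refine ⟨∑ i, (s (g.symm 0) * s (b i) - s (g.symm (b i))) • b i,
    ∑ i, (innerSL ℝ (g.symm (b i) - s (b i) • g.symm 0) : E3 →L[ℝ] ℝ).smulRight (b i),
    s (g.symm 0), g.symm 0, ?_, h2⟩
  intro x
  have h3 : ∀ z : E3, inner ℝ z (g x) = s x * (s (g.symm 0) * s z - s (g.symm z)) +
      inner ℝ (g.symm z - s z • g.symm 0) x := by
    intro z
    have e1 := h1 x z
    have e2 := h2 x
    rw [e2] at e1
    rw [inner_sub_left, inner_smul_left]
    simp only [conj_trivial]
    linarith
  conv_lhs => rw [← b.sum_repr' (g x)]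
  rw [Finset.smul_sum, _root_.sum_apply, ← Finset.sum_add_distrib]
  apply Finset.sum_congr rfl
  intro i _
  rw [h3, add_smul, smul_smul, ContinuousLinearMap.smulRight_apply, innerSL_apply_apply]

/-- the bilinear identities behind form preservation -/
lemma perm_bilin {g : Equiv.Perm E3} (hg : ∀ x y, B (g x) (g y) = B x y) {c : E3}
    {P : E3 →L[ℝ] E3} {α : ℝ} {β : E3} (h1 : ∀ x, g x = s x • c + P x)
    (h2 : ∀ x, s (g x) = α * s x - inner ℝ β x) (t t' : ℝ) (v w : E3) :
    (α * t - inner ℝ β v) * (α * t' - inner ℝ β w) - inner ℝ (t • c + P v) (t' • c + P w) =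
      t * t' - inner ℝ v w := by
  have key : ∀ x y : E3, (α * s x - inner ℝ β x) * (α * s y - inner ℝ β y) -
      (s x * s y * inner ℝ c c + s x * inner ℝ c (P y) + s y * inner ℝ (P x) c +
        inner ℝ (P x) (P y)) = s x * s y - inner ℝ x y := by
    intro x y
    have := hg x y
    unfold B at this
    rw [h2, h2, h1 x, h1 y, inner_add_left, inner_add_right, inner_add_right, inner_smul_left,
      inner_smul_left, inner_smul_right, inner_smul_right] at this
    simp only [conj_trivial] at this
    linarith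
  have k0 := key 0 0
  simp only [s_zero, map_zero, inner_zero_left, inner_zero_right] at k0
  have k1 : ∀ y, -α * inner ℝ β y - inner ℝ c (P y) = 0 := by
    intro y
    have := key 0 y
    simp only [s_zero, map_zero, inner_zero_left, inner_zero_right] at this
    linear_combination this - s y * k0
  have k1' : ∀ x, -α * inner ℝ β x - inner ℝ (P x) c = 0 := by
    intro x
    rw [real_inner_comm c (P x)]
    exact k1 x
  have k2 : ∀ x y, inner ℝ β x * inner ℝ β y - inner ℝ (P x) (P y) = -inner ℝ x y := by
    intro x y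
    linear_combination key x y - s x * s y * k0 - s x * k1 y - s y * k1' x
  rw [inner_add_left, inner_add_right, inner_add_right, inner_smul_left, inner_smul_left,
    inner_smul_right, inner_smul_right]
  simp only [conj_trivial]
  linear_combination t * t' * k0 + t * k1 w + t' * k1' v + k2 v w

/-- derivative and Jacobian of form preserving bijections -/
lemma perm_deriv (g : Equiv.Perm E3) (hg : ∀ x y, B (g x) (g y) = B x y) :
    ∃ A : E3 → E3 →L[ℝ] E3, (∀ x, HasFDerivAt g (A x) x) ∧ ∀ x, |(A x).det| = s (g x) / s x := by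
  obtain ⟨c, P, α, β, h1, h2⟩ := perm_formula g hg
  refine ⟨fun x => ((1 / s x) • innerSL ℝ x).smulRight c + P, ?_, ?_⟩
  · intro x
    have h3 : (g : E3 → E3) = fun y => s y • c + P y := funext h1
    rw [h3]
    exact ((hasFDerivAt_s x).smul_const c).add P.hasFDerivAt
  · intro x
    have hbil := perm_bilin hg h1 h2
    have hS := s_pos (g x)
    have hs := s_pos x
    apply det_sq_of_gram
    intro v w
    have hA : ∀ v : E3, ((((1 / s x) • innerSL ℝ x).smulRight c + P : E3 →L[ℝ] E3) :
        E3 →ₗ[ℝ] E3) v = (inner ℝ x v / s x) • c + P v := by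
      intro v
      simp only [ContinuousLinearMap.coe_coe, _root_.add_apply,
        ContinuousLinearMap.smulRight_apply, _root_.smul_apply, innerSL_apply_apply, smul_eq_mul]
      congr 2
      ring
    rw [hA, hA]
    have e1 : ∀ v : E3, inner ℝ (g x) ((inner ℝ x v / s x) • c + P v) =
        s (g x) * (α * (inner ℝ x v / s x) - inner ℝ β v) := by
      intro v
      have := hbil (s x) (inner ℝ x v / s x) x v
      rw [← h1, ← h2] at this
      have h4 : s x * (inner ℝ x v / s x) = inner ℝ x v := by field_simp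
      rw [h4] at this
      linarith
    rw [e1, e1]
    have e2 := hbil (inner ℝ x v / s x) (inner ℝ x w / s x) v w
    have e3 : s (g x) * (α * (inner ℝ x v / s x) - inner ℝ β v) *
        (s (g x) * (α * (inner ℝ x w / s x) - inner ℝ β w)) / s (g x) ^ 2 =
        (α * (inner ℝ x v / s x) - inner ℝ β v) * (α * (inner ℝ x w / s x) - inner ℝ β w) := by
      field_simp
    rw [e3]
    have e4 : inner ℝ x v * inner ℝ x w / s x ^ 2 =
        inner ℝ x v / s x * (inner ℝ x w / s x) := by field_simp
    rw [e4]
    linarith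

/-- the invariant measure -/
noncomputable def mu : Measure E3 :=
  volume.withDensity (fun v => ENNReal.ofReal (1 / √(1 + ‖v‖ ^ 2)))

lemma measurable_dens : Measurable (fun v : E3 => ENNReal.ofReal (1 / √(1 + ‖v‖ ^ 2))) := by
  fun_prop

lemma mu_apply {A : Set E3} (hA : MeasurableSet A) :
    mu A = ∫⁻ x in A, ENNReal.ofReal (1 / s x) := by
  unfold mu
  rw [withDensity_apply _ hA]
  rfl

lemma mu_image (g : Equiv.Perm E3) (hg : ∀ x y, B (g x) (g y) = B x y) {A : Set E3}
    (hA : MeasurableSet A) (hA' : MeasurableSet (g '' A)) : mu (g '' A) = mu A := by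
  obtain ⟨D, hD, hdet⟩ := perm_deriv g hg
  rw [mu_apply hA', mu_apply hA, lintegral_image_eq_lintegral_abs_det_fderiv_mul volume hA
    (fun x _ => (hD x).hasFDerivWithinAt) g.injective.injOn]
  apply lintegral_congr
  intro x
  have h1 := s_pos x
  have h2 := s_pos (g x)
  rw [hdet, ← ENNReal.ofReal_mul (by positivity)]
  congr 1
  field_simp

lemma perm_apply_inv (g : Equiv.Perm E3) (x : E3) : g (g⁻¹ x) = x := g.apply_symm_apply x

lemma perm_inv {g : Equiv.Perm E3} (hg : ∀ x y, B (g x) (g y) = B x y) :
    ∀ x y, B (g⁻¹ x) (g⁻¹ y) = B x y := by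
  intro x y
  rw [← hg, perm_apply_inv, perm_apply_inv]

lemma perm_continuous {g : Equiv.Perm E3} (hg : ∀ x y, B (g x) (g y) = B x y) :
    Continuous g := by
  obtain ⟨D, hD, -⟩ := perm_deriv g hg
  exact continuous_iff_continuousAt.mpr fun x => (hD x).continuousAt

theorem perm_measurePreserving {g : Equiv.Perm E3} (hg : ∀ x y, B (g x) (g y) = B x y) :
    MeasurePreserving g mu mu := by
  refine ⟨(perm_continuous hg).measurable, ?_⟩
  ext A hA
  rw [Measure.map_apply (perm_continuous hg).measurable hA]
  have h1 : g ⁻¹' A = (g⁻¹ : Equiv.Perm E3) '' A := by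
    ext x
    constructor
    · intro hx
      exact ⟨g x, hx, by simp⟩
    · rintro ⟨y, hy, rfl⟩
      change g (g⁻¹ y) ∈ A
      rwa [perm_apply_inv]
  have h2 : MeasurableSet ((g⁻¹ : Equiv.Perm E3) '' A) := by
    rw [← h1]; exact (perm_continuous hg).measurable hA
  rw [h1]
  exact mu_image _ (perm_inv hg) hA h2

end Pool.Agent.Helper97.Hyp.HModel
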