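import Pool.Agent.Helper97.Hyp.HMeas

set_option autoImplicit false
set_option linter.unusedSectionVars false

namespace Pool.Agent.Helper97.Hyp.HModel

open MeasureTheory Real

/-- closed balls -/
def bl (p : E3) (r : ℝ) : Set E3 := {x | B p x ≤ cosh r}

lemma continuous_s : Continuous (s : E3 → ℝ) := by
  unfold s; fun_prop

lemma measurableSet_bl (p : E3) (r : ℝ) : MeasurableSet (bl p r) := by
  apply IsClosed.measurableSet
  apply isClosed_le _ continuous_const
  unfold B
  exact (continuous_const.mul continuous_s).sub (continuous_const.inner continuous_id)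

lemma mem_bl {p x : E3} {r : ℝ} (hr : 0 ≤ r) : x ∈ bl p r ↔ hd p x ≤ r := (hd_le_iff hr).symm

/-- boosts as permutations -/
noncomputable def Te (z : E3) : Equiv.Perm E3 where
  toFun := T z
  invFun := T (-z)
  left_inv := T_neg_T z
  right_inv := T_T_neg z

lemma mu_bl (p : E3) (r : ℝ) : mu (bl p r) = mu (bl 0 r) := by
  have h1 := perm_measurePreserving (g := Te p) (fun x y => B_T p x y)
  rw [← h1.measure_preimage (measurableSet_bl p r).nullMeasurableSet]
  congr 1
  ext x
  change B p (T p x) ≤ cosh r ↔ B 0 x ≤ cosh r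
  rw [← B_T p 0 x, T_zero]

lemma bl_zero {r : ℝ} (hr : 0 ≤ r) : bl 0 r = Metric.closedBall (0 : E3) (sinh r) := by
  ext x
  rw [mem_bl hr, Metric.mem_closedBall, dist_zero_right, ← sinh_hd_zero x, Real.sinh_le_sinh]

/-- volume of the unit ball -/
noncomputable def vb : ℝ := (volume (Metric.ball (0 : E3) 1)).toReal

lemma vb_pos : 0 < vb := by
  unfold vb
  apply ENNReal.toReal_pos
  · exact (Metric.measure_ball_pos volume _ one_pos).ne'
  · exact measure_ball_lt_top.ne

lemma vb_eq : volume (Metric.ball (0 : E3) 1) = ENNReal.ofReal vb :=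
  (ENNReal.ofReal_toReal measure_ball_lt_top.ne).symm

lemma vol_closedBall {r : ℝ} (hr : 0 ≤ r) :
    volume (Metric.closedBall (0 : E3) r) = ENNReal.ofReal (r ^ 3 * vb) := by
  rw [Measure.addHaar_closedBall _ _ hr, vb_eq, ← ENNReal.ofReal_mul (by positivity)]
  simp

lemma mu_bl_lower {r : ℝ} (hr : 0 ≤ r) :
    ENNReal.ofReal (sinh r ^ 3 / cosh r * vb) ≤ mu (bl 0 r) := by
  have hsh : 0 ≤ sinh r := Real.sinh_nonneg_iff.mpr hr
  rw [mu_apply (measurableSet_bl _ _)]
  calc ENNReal.ofReal (sinh r ^ 3 / cosh r * vb) =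
        ENNReal.ofReal (1 / cosh r) * volume (bl 0 r) := by
        rw [bl_zero hr, vol_closedBall hsh, ← ENNReal.ofReal_mul
          (by have := Real.cosh_pos r; positivity)]
        congr 1; ring
    _ = ∫⁻ x in bl 0 r, ENNReal.ofReal (1 / cosh r) := by
        rw [setLIntegral_const]
    _ ≤ _ := by
        apply setLIntegral_mono' (measurableSet_bl _ _)
        intro x hx
        apply ENNReal.ofReal_le_ofReal
        apply one_div_le_one_div_of_le (s_pos x)
        have : B 0 x ≤ cosh r := hx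
        rwa [B_zero] at this

lemma mu_ball_step {ρ : ℝ} (hρ : 0 < ρ) :
    mu (Metric.closedBall (0 : E3) (2 * ρ)) ≤ mu (Metric.closedBall (0 : E3) ρ) +
      ENNReal.ofReal (8 * ρ ^ 2 * vb) := by
  have h1 : Metric.closedBall (0 : E3) (2 * ρ) ⊆ Metric.closedBall (0 : E3) ρ ∪
      (Metric.closedBall (0 : E3) (2 * ρ) \ Metric.closedBall (0 : E3) ρ) := by
    intro x hx
    by_cases h : x ∈ Metric.closedBall (0 : E3) ρ
    · exact Or.inl h
    · exact Or.inr ⟨hx, h⟩
  refine (measure_mono h1).trans ((measure_union_le _ _).trans (add_le_add le_rfl ?_))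
  have hm : MeasurableSet (Metric.closedBall (0 : E3) (2 * ρ) \ Metric.closedBall (0 : E3) ρ) :=
    Metric.isClosed_closedBall.measurableSet.diff Metric.isClosed_closedBall.measurableSet
  rw [mu_apply hm]
  calc _ ≤ ∫⁻ x in (Metric.closedBall (0 : E3) (2 * ρ) \ Metric.closedBall (0 : E3) ρ),
        ENNReal.ofReal (1 / ρ) := by
        apply setLIntegral_mono' hm
        intro x hx
        apply ENNReal.ofReal_le_ofReal
        apply one_div_le_one_div_of_le hρ
        have h2 : ρ < ‖x‖ := by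
          have := hx.2
          rw [Metric.mem_closedBall, dist_zero_right] at this
          exact not_le.mp this
        have h3 := s_sq x
        have h4 := s_pos x
        nlinarith
    _ = ENNReal.ofReal (1 / ρ) *
        volume (Metric.closedBall (0 : E3) (2 * ρ) \ Metric.closedBall (0 : E3) ρ) := by
        rw [setLIntegral_const]
    _ ≤ ENNReal.ofReal (1 / ρ) * volume (Metric.closedBall (0 : E3) (2 * ρ)) :=
        mul_le_mul' le_rfl (measure_mono Set.sdiff_subset)
    _ = ENNReal.ofReal (8 * ρ ^ 2 * vb) := by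
        rw [vol_closedBall (by positivity), ← ENNReal.ofReal_mul (by positivity)]
        congr 1
        field_simp
        ring

lemma mu_ball_pow (n : ℕ) :
    mu (Metric.closedBall (0 : E3) (2 ^ n)) ≤ ENNReal.ofReal (4 * vb * 4 ^ n) := by
  have hv := vb_pos
  induction n with
  | zero =>
    rw [mu_apply Metric.isClosed_closedBall.measurableSet]
    calc _ ≤ ∫⁻ x in Metric.closedBall (0 : E3) (2 ^ 0), 1 := by
          apply setLIntegral_mono' Metric.isClosed_closedBall.measurableSet
          intro x _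
          rw [← ENNReal.ofReal_one]
          apply ENNReal.ofReal_le_ofReal
          rw [div_le_one (s_pos x)]
          exact one_le_s x
      _ = volume (Metric.closedBall (0 : E3) (2 ^ 0)) := by
          rw [setLIntegral_const, one_mul]
      _ ≤ _ := by
          rw [vol_closedBall (by positivity)]
          apply ENNReal.ofReal_le_ofReal
          norm_num
          linarith
  | succ n ih =>
    have h1 := mu_ball_step (ρ := 2 ^ n) (by positivity)
    rw [← pow_succ'] at h1
    refine h1.trans ((add_le_add ih le_rfl).trans ?_)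
    rw [← ENNReal.ofReal_add (by positivity) (by positivity)]
    apply ENNReal.ofReal_le_ofReal
    have h2 : ((2 : ℝ) ^ n) ^ 2 = 4 ^ n := by rw [← pow_mul, mul_comm, pow_mul]; norm_num
    rw [h2, pow_succ]
    have h3 : (0 : ℝ) < 4 ^ n := by positivity
    nlinarith

lemma mu_bl_upper (p : E3) {r : ℝ} (hr : 0 ≤ r) :
    mu (bl p r) ≤ ENNReal.ofReal (16 * vb * exp (2 * r)) := by
  have hv := vb_pos
  rw [mu_bl, bl_zero hr]
  obtain ⟨n, hn1, hn2⟩ := exists_nat_pow_near (x := exp r) (y := (2 : ℝ))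
    (Real.one_le_exp hr) (by norm_num)
  have h1 : Metric.closedBall (0 : E3) (sinh r) ⊆ Metric.closedBall (0 : E3) (2 ^ (n + 1)) := by
    apply Metric.closedBall_subset_closedBall
    have : sinh r ≤ exp r := by
      rw [Real.sinh_eq]
      have := Real.exp_pos r
      have := Real.exp_pos (-r)
      linarith
    linarith
  refine (measure_mono h1).trans ((mu_ball_pow (n + 1)).trans ?_)
  apply ENNReal.ofReal_le_ofReal
  have h2 : (4 : ℝ) ^ n ≤ exp (2 * r) := by
    calc (4 : ℝ) ^ n = (2 ^ n) ^ 2 := by rw [← pow_mul, mul_comm, pow_mul]; norm_num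
      _ ≤ (exp r) ^ 2 := by gcongr
      _ = exp (2 * r) := by rw [← Real.exp_nat_mul]; norm_num
  rw [pow_succ]
  nlinarith

/-- packing constant -/
noncomputable def kp : ℝ := 16 * exp 1 / (sinh (1 / 2) ^ 3 / cosh (1 / 2))

lemma half_pos' : 0 < sinh (1 / 2 : ℝ) ^ 3 / cosh (1 / 2) := by
  have h1 : 0 < sinh (1 / 2 : ℝ) := Real.sinh_pos_iff.mpr (by norm_num)
  have h2 := Real.cosh_pos (1 / 2 : ℝ)
  positivity

lemma kp_pos : 0 < kp := by
  have := half_pos'
  unfold kp
  positivity

/-- packing bound -/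
theorem packing {ι : Type*} (y : ι → E3) (t : Finset ι)
    (hsep : ∀ i ∈ t, ∀ j ∈ t, i ≠ j → 1 < hd (y i) (y j)) (z : E3) {r : ℝ} (hr : 0 ≤ r)
    (ht : ∀ i ∈ t, hd z (y i) ≤ r) : (t.card : ℝ) ≤ kp * exp (2 * r) := by
  classical
  have hv := vb_pos
  have hh := half_pos'
  have h1 : (⋃ i ∈ t, bl (y i) (1 / 2)) ⊆ bl z (r + 1 / 2) := by
    intro x hx
    rw [Set.mem_iUnion₂] at hx
    obtain ⟨i, hi, hx⟩ := hx
    rw [mem_bl (by norm_num)] at hx
    rw [mem_bl (by linarith)]
    have := hd_triangle z (y i) x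
    have := ht i hi
    linarith
  have h2 : mu (⋃ i ∈ t, bl (y i) (1 / 2)) = ∑ i ∈ t, mu (bl (y i) (1 / 2)) := by
    apply measure_biUnion_finset
    · intro i hi j hj hij
      apply Set.disjoint_left.mpr
      intro x hxi hxj
      rw [mem_bl (by norm_num)] at hxi hxj
      have h3 := hsep i hi j hj hij
      have h4 := hd_triangle (y i) x (y j)
      rw [hd_symm x (y j)] at h4
      linarith
    · intro i _
      exact measurableSet_bl _ _
  have h3 := measure_mono (μ := mu) h1
  rw [h2] at h3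
  have h4 := h3.trans (mu_bl_upper z (by linarith : 0 ≤ r + 1 / 2))
  have h5 : ∑ i ∈ t, ENNReal.ofReal (sinh (1 / 2 : ℝ) ^ 3 / cosh (1 / 2) * vb) ≤
      ∑ i ∈ t, mu (bl (y i) (1 / 2)) := by
    apply Finset.sum_le_sum
    intro i _
    rw [mu_bl]
    exact mu_bl_lower (by norm_num)
  have h6 := h5.trans h4
  rw [Finset.sum_const, ← ENNReal.ofReal_nsmul, ENNReal.ofReal_le_ofReal_iff (by positivity),
    nsmul_eq_mul] at h6
  have h7 : exp (2 * (r + 1 / 2)) = exp 1 * exp (2 * r) := by
    rw [← Real.exp_add]; congr 1; ring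
  rw [h7] at h6
  unfold kp
  rw [div_mul_eq_mul_div, le_div_iff₀ hh]
  have h8 : (t.card : ℝ) * (sinh (1 / 2) ^ 3 / cosh (1 / 2)) * vb ≤
      16 * exp 1 * exp (2 * r) * vb := by linarith
  exact le_of_mul_le_mul_right h8 hv

/-- a maximal separated set -/
theorem exists_net : ∃ Y : Set E3, (∀ x ∈ Y, ∀ y ∈ Y, x ≠ y → 1 < hd x y) ∧
    ∀ z, ∃ y ∈ Y, hd z y ≤ 1 := by
  obtain ⟨Y, hY⟩ := zorn_subset {S : Set E3 | ∀ x ∈ S, ∀ y ∈ S, x ≠ y → 1 < hd x y} (by
    intro c hc hchain
    refine ⟨⋃₀ c, ?_, fun S hS => Set.subset_sUnion_of_mem hS⟩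
    rintro x ⟨S, hS, hx⟩ y ⟨S', hS', hy⟩ hxy
    rcases hchain.total hS hS' with h | h
    · exact hc hS' x (h hx) y hy hxy
    · exact hc hS x hx y (h hy) hxy)
  refine ⟨Y, hY.prop, ?_⟩
  intro z
  by_contra hcon
  push Not at hcon
  have hz : z ∉ Y := by
    intro hz
    have := hcon z hz
    rw [hd_self] at this
    linarith
  have h1 : insert z Y ∈ {S : Set E3 | ∀ x ∈ S, ∀ y ∈ S, x ≠ y → 1 < hd x y} := by
    rintro x (rfl | hx) y (rfl | hy) hxy
    · exact absurd rfl hxy
    · exact hcon y hy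
    · rw [hd_symm]; exact hcon x hx
    · exact hY.prop x hx y hy hxy
  exact hz (hY.le_of_ge h1 (Set.subset_insert z Y) (Set.mem_insert z Y))

/-- nets in hyperbolic space -/
theorem net_HS : ∃ Y : Set E3, ∀ η : ℝ, 0 < η →
    Net (X := HS E3) (fun y : Y => (y : E3)) 1 kp (1 + η) := by
  obtain ⟨Y, hsep, hdense⟩ := exists_net
  refine ⟨Y, fun η hη => ?_⟩
  have hfin : ∀ (z : E3) (r : ℝ), 0 ≤ r → {i : Y | hd z (i : E3) ≤ r}.Finite ∧
      ({i : Y | hd z (i : E3) ≤ r}.ncard : ℝ) ≤ kp * exp (2 * r) := by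
    intro z r hr
    have hpack : ∀ t : Finset Y, (∀ i ∈ t, hd z (i : E3) ≤ r) →
        (t.card : ℝ) ≤ kp * exp (2 * r) := by
      intro t ht
      apply packing (fun y : Y => (y : E3)) t _ z hr ht
      intro i _ j _ hij
      exact hsep _ i.2 _ j.2 (fun h => hij (Subtype.ext h))
    have hf : {i : Y | hd z (i : E3) ≤ r}.Finite := by
      by_contra hinf
      obtain ⟨t, ht, hcard⟩ := Set.Infinite.exists_subset_card_eq hinf
        (⌈kp * exp (2 * r)⌉₊ + 1)
      have h1 := hpack t (fun i hi => ht hi)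
      rw [hcard] at h1
      push_cast at h1
      have h2 := Nat.le_ceil (kp * exp (2 * r))
      linarith
    refine ⟨hf, ?_⟩
    rw [Set.ncard_eq_toFinset_card _ hf]
    exact hpack _ (fun i hi => (Set.Finite.mem_toFinset hf).mp hi)
  refine ⟨?_, ?_, ?_⟩
  · intro z
    obtain ⟨y, hy, hd⟩ := hdense z
    exact ⟨⟨y, hy⟩, hd⟩
  · intro z r
    rcases le_total 0 r with hr | hr
    · exact (hfin z r hr).1
    · apply (hfin z 0 le_rfl).1.subset
      intro i hi
      exact le_trans hi hr
  · intro z r hr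
    refine (hfin z r hr).2.trans ?_
    have h1 := kp_pos
    apply mul_le_mul_of_nonneg_left _ h1.le
    apply Real.exp_le_exp.mpr
    nlinarith

end Pool.Agent.Helper97.Hyp.HModel
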