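import Pool.Agent.Helper97.Hyp.Growth

set_option autoImplicit false
set_option linter.unusedSectionVars false

namespace Pool.Agent.Helper97.Hyp

open Filter Topology

variable {X : Type*} [PseudoMetricSpace X] {ι : Type*}
variable {Γ : Type*} [Group Γ] [MulAction Γ X] [IsIsometricSMul Γ X]

/-- critical exponent -/
noncomputable def dexp (o : X) (S : Set Γ) : ℝ :=
  limsup (fun R : ℝ => Real.log ({γ : Γ | γ ∈ S ∧ dist o (γ • o) ≤ R}.ncard : ℝ) / R) atTop

namespace Lox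

variable {δ : ℝ} {o : X} {g : Γ} {k : ℕ} (h : Lox δ o g)

include h

/-- linear growth of the commensurator -/
lemma E_count (hprop : ∀ r : ℝ, {γ : Γ | dist o (γ • o) ≤ r}.Finite) {r : ℝ} (hr : 0 ≤ r) :
    {e : Γ | e ∈ E g ∧ dist o (e • o) ≤ r}.ncard ≤
      (2 * ⌊r + c5 o g δ⌋₊ + 1) * {f : Γ | dist o (f • o) ≤ c5 o g δ}.ncard := by
  classical
  have hc5 := h.c5_nonneg
  have hnear : ∀ e : Γ, ∃ j : ℤ, e ∈ E g → dist (e • o) (g ^ j • o) ≤ c5 o g δ := by
    intro e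
    by_cases he : e ∈ E g
    · obtain ⟨j, hj⟩ := h.E_near he
      exact ⟨j, fun _ => hj⟩
    · exact ⟨0, fun h => absurd h he⟩
  choose j hj using hnear
  set m := ⌊r + c5 o g δ⌋₊ with hm
  have h1 : {e : Γ | e ∈ E g ∧ dist o (e • o) ≤ r}.ncard ≤
      ((Set.Icc (-(m : ℤ)) m) ×ˢ {f : Γ | dist o (f • o) ≤ c5 o g δ}).ncard := by
    apply Set.ncard_le_ncard_of_injOn (fun e => (j e, (g ^ (j e))⁻¹ * e))
      (ht := (Set.finite_Icc _ _).prod (hprop _))
    · rintro e ⟨he, hd⟩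
      have h2 := hj e he
      refine ⟨?_, ?_⟩
      · have h3 := h.tl_ge (j e).natAbs
        have h4 := dist_zpow o g 0 (j e)
        rw [zpow_zero, one_smul, sub_zero] at h4
        have h5 := dist_triangle o (e • o) (g ^ (j e) • o)
        have h6 : ((j e).natAbs : ℝ) ≤ r + c5 o g δ := by linarith
        have h7 : (j e).natAbs ≤ m := Nat.le_floor h6
        rw [Set.mem_Icc]
        constructor <;> omega
      · change dist o (((g ^ (j e))⁻¹ * e) • o) ≤ c5 o g δ
        rw [mul_smul, ← dist_smul (g ^ (j e)), smul_inv_smul, dist_comm]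
        exact h2
    · intro e _ e' _ heq
      have h1 : j e = j e' := congrArg Prod.fst heq
      have h2 : (g ^ (j e))⁻¹ * e = (g ^ (j e'))⁻¹ * e' := congrArg Prod.snd heq
      rw [h1] at h2
      exact mul_left_cancel h2
  rw [Set.ncard_prod] at h1
  have h2 : (Set.Icc (-(m : ℤ)) m).ncard = 2 * m + 1 := by
    rw [← Finset.coe_Icc, Set.ncard_coe_finset, Int.card_Icc]
    omega
  rwa [h2] at h1

lemma conj_count (hprop : ∀ r : ℝ, {γ : Γ | dist o (γ • o) ≤ r}.Finite) (hk : Good g k)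
    {r : ℝ} (hr : 0 ≤ r) :
    {γ : Γ | dist o (γ • o) ≤ r}.ncard ≤
      (2 * ⌊2 * r + c5 o g δ⌋₊ + 1) * {f : Γ | dist o (f • o) ≤ c5 o g δ}.ncard *
        {n : Γ | n ∈ nk g k ∧ dist o (n • o) ≤ 2 * r + tl o g k}.ncard := by
  classical
  set s := (hprop r).toFinset with hs
  have hmem : ∀ γ, γ ∈ s ↔ dist o (γ • o) ≤ r := by
    intro γ; rw [hs, Set.Finite.mem_toFinset]; rfl
  set F : Γ → Γ := fun γ => γ * g ^ (k : ℤ) * γ⁻¹ with hF
  set n := (2 * ⌊2 * r + c5 o g δ⌋₊ + 1) * {f : Γ | dist o (f • o) ≤ c5 o g δ}.ncard with hn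
  have hfib : ∀ b ∈ s.image F, (s.filter (fun a => F a = b)).card ≤ n := by
    intro b hb
    rw [Finset.mem_image] at hb
    obtain ⟨γ₀, hγ₀, rfl⟩ := hb
    refine le_trans ?_ (h.E_count hprop (by linarith : 0 ≤ 2 * r))
    rw [← Set.ncard_coe_finset]
    apply Set.ncard_le_ncard_of_injOn (fun γ => γ₀⁻¹ * γ)
      (ht := (hprop _).subset fun γ hγ => hγ.2)
    · intro γ hγ
      rw [Finset.mem_coe, Finset.mem_filter] at hγ
      obtain ⟨h1, h2⟩ := hγ
      rw [hmem] at h1 hγ₀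
      refine ⟨⟨k, k, ?_, ?_, ?_⟩, ?_⟩
      · exact_mod_cast hk.1.ne'
      · exact_mod_cast hk.1.ne'
      · simp only [hF] at h2
        calc γ₀⁻¹ * γ * g ^ (k : ℤ) * (γ₀⁻¹ * γ)⁻¹ = γ₀⁻¹ * (γ * g ^ (k : ℤ) * γ⁻¹) * γ₀ := by group
          _ = g ^ (k : ℤ) := by rw [h2]; group
      · change dist o ((γ₀⁻¹ * γ) • o) ≤ 2 * r
        rw [mul_smul, ← dist_smul γ₀, smul_inv_smul]
        have := dist_triangle (γ₀ • o) o (γ • o)
        rw [dist_comm (γ₀ • o) o] at this
        linarith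
    · intro γ _ γ' _ heq
      exact mul_left_cancel heq
  have h1 := Finset.card_le_mul_card_image s n hfib
  have h2 : (s.image F).card ≤
      {n : Γ | n ∈ nk g k ∧ dist o (n • o) ≤ 2 * r + tl o g k}.ncard := by
    rw [← Set.ncard_coe_finset]
    apply Set.ncard_le_ncard
    · intro b hb
      rw [Finset.mem_coe, Finset.mem_image] at hb
      obtain ⟨γ, hγ, rfl⟩ := hb
      rw [hmem] at hγ
      refine ⟨conj_mem_nk hk γ, ?_⟩
      have e1 := dist_triangle4 o (γ • o) (γ • g ^ (k : ℤ) • o) (F γ • o)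
      have e2 : dist (γ • g ^ (k : ℤ) • o) (F γ • o) = dist o (γ • o) := by
        simp only [hF]
        rw [mul_smul, mul_smul, dist_smul, dist_smul, ← dist_smul γ, smul_inv_smul, dist_comm]
      have e3 : dist (γ • o) (γ • g ^ (k : ℤ) • o) = tl o g k := by
        rw [dist_smul, zpow_natCast]; rfl
      rw [e2, e3] at e1
      linarith
    · exact (hprop _).subset fun n hn => hn.2
  have h3 : {γ : Γ | dist o (γ • o) ≤ r}.ncard = s.card := by
    rw [hs, Set.ncard_eq_toFinset_card _ (hprop r)]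
  rw [h3]
  exact h1.trans (Nat.mul_le_mul_left n h2)

end Lox

end Pool.Agent.Helper97.Hyp
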