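import Pool.Agent.Helper97.Hyp.Exist

set_option autoImplicit false
set_option linter.unusedSectionVars false

namespace Pool.Agent.Helper97.Hyp

open Filter Topology

section pingpong

variable {Γ : Type*} [Group Γ] {𝒜 P : Type*} [MulAction Γ 𝒜] [MulAction Γ P]
variable {D : ProjSys Γ 𝒜 P} (R : Spin D)

/-- words -/
def wd (a b : Γ) : List Bool → Γ
  | [] => 1
  | e :: l => b * a ^ (if e then 1 else 2) * wd a b l

variable {A B : 𝒜} {a b : Γ} {sA sB : P}

lemma pp_move (hAB : A ≠ B) (hsA : sA ∈ D.S A) (hsB : sB ∈ D.S B) {γ : Γ} (hγ : γ ∈ R.G A)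
    (hγ1 : γ ≠ 1) {x : P} (hx : 2 * D.θ < D.d B x sA) : 2 * D.θ < D.d A (γ • x) sB := by
  have hθ := D.θpos
  have hM := R.hM
  have h1 : D.d A x sB ≤ D.θ := by
    rcases D.beh A B x sA sB hAB hsA hsB with h | h
    · exact h
    · linarith
  have h2 := R.spin A γ x hγ hγ1
  have h3 := D.tri A x sB (γ • x)
  rw [D.symm A sB (γ • x)] at h3
  linarith

lemma pp_disj (hAB : A ≠ B) (hsA : sA ∈ D.S A) (hsB : sB ∈ D.S B) {x : P}
    (hx : 2 * D.θ < D.d B x sA) (hx' : 2 * D.θ < D.d A x sB) : False := by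
  have hθ := D.θpos
  rcases D.beh A B x sA sB hAB hsA hsB with h | h <;> linarith

lemma pp_word (hAB : A ≠ B) (hsA : sA ∈ D.S A) (hsB : sB ∈ D.S B) (ha : a ∈ R.G A)
    (ha1 : ∀ m : ℕ, m ≠ 0 → a ^ m ≠ 1) (hb : b ∈ R.G B) (hb1 : b ≠ 1) {x : P}
    (hx : 2 * D.θ < D.d B x sA) (l : List Bool) : 2 * D.θ < D.d B (wd a b l • x) sA := by
  induction l with
  | nil => simpa [wd] using hx
  | cons e l ih =>
    simp only [wd]
    rw [mul_smul, mul_smul]
    apply pp_move R hAB.symm hsB hsA hb hb1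
    apply pp_move R hAB hsA hsB (Subgroup.pow_mem _ ha _) _ ih
    apply ha1
    split_ifs <;> norm_num

lemma pp_inj (hAB : A ≠ B) (hsA : sA ∈ D.S A) (hsB : sB ∈ D.S B) (ha : a ∈ R.G A)
    (ha1 : ∀ m : ℕ, m ≠ 0 → a ^ m ≠ 1) (hb : b ∈ R.G B) (hb1 : b ≠ 1) {x : P}
    (hx : 2 * D.θ < D.d B x sA) (l l' : List Bool) (hl : l.length = l'.length)
    (h : wd a b l = wd a b l') : l = l' := by
  have hw := pp_word R hAB hsA hsB ha ha1 hb hb1 hx
  have ha' : a ≠ 1 := by simpa using ha1 1 one_ne_zero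
  induction l generalizing l' with
  | nil =>
    cases l' with
    | nil => rfl
    | cons e' l' => simp at hl
  | cons e l ih =>
    cases l' with
    | nil => simp at hl
    | cons e' l' =>
      simp only [wd, mul_assoc] at h
      have h1 := mul_left_cancel h
      have hl' : l.length = l'.length := by simpa using hl
      cases e <;> cases e'
      · simp only [Bool.false_eq_true, if_false] at h1
        rw [ih l' hl' (mul_left_cancel h1)]
      · exfalso
        simp only [Bool.false_eq_true, if_false, if_true, pow_one, pow_two, mul_assoc] at h1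
        have h2 := mul_left_cancel h1
        have h3 := pp_move R hAB hsA hsB ha ha' (hw l)
        rw [← mul_smul, h2] at h3
        exact pp_disj hAB hsA hsB (hw l') h3
      · exfalso
        simp only [Bool.false_eq_true, if_false, if_true, pow_one, pow_two, mul_assoc] at h1
        have h2 := mul_left_cancel h1
        have h3 := pp_move R hAB hsA hsB ha ha' (hw l')
        rw [← mul_smul, ← h2] at h3
        exact pp_disj hAB hsA hsB (hw l) h3
      · simp only [if_true] at h1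
        rw [ih l' hl' (mul_left_cancel h1)]

lemma pp_base (hb : b ∈ R.G B) (hb1 : b ≠ 1) (sA : P) : ∃ x : P, 2 * D.θ < D.d B x sA := by
  have hθ := D.θpos
  have hM := R.hM
  by_contra hcon
  push Not at hcon
  have h1 := R.spin B b sA hb hb1
  have h2 := hcon (b • sA)
  rw [D.symm] at h2
  linarith

end pingpong

variable {X : Type*} [PseudoMetricSpace X]
variable {Γ : Type*} [Group Γ] [MulAction Γ X] [IsIsometricSMul Γ X]

lemma wd_dist (a b : Γ) (o : X) (l : List Bool) :
    dist o (wd a b l • o) ≤ l.length * (dist o (b • o) + 2 * dist o (a • o)) := by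
  induction l with
  | nil => simp [wd]
  | cons e l ih =>
    simp only [wd, List.length_cons]
    push_cast
    have h1 := dist_triangle4 o (b • o) ((b * a ^ (if e then 1 else 2)) • o)
      ((b * a ^ (if e then 1 else 2) * wd a b l) • o)
    have h2 : dist (b • o) ((b * a ^ (if e then 1 else 2)) • o) ≤ 2 * dist o (a • o) := by
      rw [mul_smul, dist_smul]
      have h0 := dist_nonneg (x := o) (y := a • o)
      cases e
      · simp only [Bool.false_eq_true, if_false]
        rw [pow_two, mul_smul]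
        have := dist_triangle o (a • o) (a • a • o)
        rw [dist_smul] at this
        linarith
      · simp only [if_true, pow_one]
        linarith
    have h3 : dist ((b * a ^ (if e then 1 else 2)) • o)
        ((b * a ^ (if e then 1 else 2) * wd a b l) • o) = dist o (wd a b l • o) := by
      rw [mul_smul _ (wd a b l), dist_smul]
    rw [h3] at h1
    linarith

lemma dexp_pos_of_words {a b : Γ} (o : X)
    (hprop : ∀ r : ℝ, {γ : Γ | dist o (γ • o) ≤ r}.Finite)
    (hexp : ∃ C b : ℝ, 0 < C ∧ ∀ r : ℝ, 0 ≤ r →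
      ({γ : Γ | dist o (γ • o) ≤ r}.ncard : ℝ) ≤ C * Real.exp (b * r))
    (hinj : ∀ l l' : List Bool, l.length = l'.length → wd a b l = wd a b l' → l = l') :
    0 < dexp o (Set.univ : Set Γ) := by
  obtain ⟨C, b', hC, hexp⟩ := hexp
  have huniv : ∀ r : ℝ, {γ : Γ | γ ∈ (Set.univ : Set Γ) ∧ dist o (γ • o) ≤ r} =
      {γ : Γ | dist o (γ • o) ≤ r} := by
    intro r; ext γ; simp
  have hone : ∀ r : ℝ, 0 ≤ r → 1 ≤ {γ : Γ | γ ∈ (Set.univ : Set Γ) ∧ dist o (γ • o) ≤ r}.ncard :=
    fun r hr => one_le_count hprop (Set.mem_univ _) hr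
  obtain ⟨hb1, hb2, -⟩ := limsup_exp hC ((eventually_ge_atTop 0).mono hone)
    ((eventually_ge_atTop 0).mono (fun r hr => by rw [huniv]; exact hexp r hr))
  set L : ℝ := dist o (b • o) + 2 * dist o (a • o) + 1 with hL
  have hLpos : 0 < L := by positivity
  have hcount : ∀ n : ℕ, 2 ^ n ≤ {γ : Γ | dist o (γ • o) ≤ n * L}.ncard := by
    intro n
    have h1 : (Set.univ : Set (Fin n → Bool)).ncard ≤
        {γ : Γ | dist o (γ • o) ≤ n * L}.ncard := by
      apply Set.ncard_le_ncard_of_injOn (fun f => wd a b (List.ofFn f)) (ht := hprop _)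
      · intro f _
        change dist o (wd a b (List.ofFn f) • o) ≤ n * L
        have := wd_dist a b o (List.ofFn f)
        rw [List.length_ofFn] at this
        have hn : (0 : ℝ) ≤ n := Nat.cast_nonneg n
        nlinarith
      · intro f _ f' _ heq
        exact List.ofFn_injective (hinj _ _ (by simp) heq)
    rw [Set.ncard_univ, Nat.card_eq_fintype_card, Fintype.card_fun, Fintype.card_bool,
      Fintype.card_fin] at h1
    exact h1
  have h1 : Real.log 2 / L ≤ dexp o (Set.univ : Set Γ) := by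
    unfold dexp
    apply le_limsup_of_frequently_le _ hb1
    rw [frequently_atTop]
    intro r
    set n : ℕ := ⌈r / L⌉₊ + 1 with hn
    have h2 : r ≤ n * L := by
      rw [← div_le_iff₀ hLpos, hn]
      push_cast
      have := Nat.le_ceil (r / L)
      linarith
    have hn1 : (0 : ℝ) < n := by rw [hn]; positivity
    refine ⟨n * L, h2, ?_⟩
    rw [huniv, div_le_div_iff₀ hLpos (by positivity)]
    have h3 : (2 : ℝ) ^ n ≤ ({γ : Γ | dist o (γ • o) ≤ n * L}.ncard : ℝ) := by
      exact_mod_cast hcount n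
    have h4 : n * Real.log 2 ≤ Real.log ({γ : Γ | dist o (γ • o) ≤ n * L}.ncard : ℝ) := by
      rw [← Real.log_pow]
      exact Real.log_le_log (by positivity) h3
    calc Real.log 2 * (n * L) = (n * Real.log 2) * L := by ring
      _ ≤ _ := mul_le_mul_of_nonneg_right h4 hLpos.le
  have h2 : 0 < Real.log 2 / L := div_pos (Real.log_pos (by norm_num)) hLpos
  linarith

namespace Lox

variable {δ : ℝ} {o : X} {g : Γ} (h : Lox δ o g)

include h

lemma exists_notMem_E (hprop : ∀ r : ℝ, {γ : Γ | dist o (γ • o) ≤ r}.Finite)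
    (hne : ¬ (Subgroup.zpowers g).FiniteIndex) : ∃ γ, γ ∉ E g := by
  by_contra hcon
  push Not at hcon
  apply hne
  have hfin : Finite (Γ ⧸ Subgroup.zpowers g) := by
    rw [← Set.finite_univ_iff]
    apply ((hprop (c5 o g δ)).image (fun f : Γ => ((f⁻¹ : Γ) : Γ ⧸ Subgroup.zpowers g))).subset
    intro y _
    obtain ⟨x, rfl⟩ := QuotientGroup.mk_surjective y
    obtain ⟨j, hj⟩ := h.E_near (hcon x⁻¹)
    refine ⟨(g ^ j)⁻¹ * x⁻¹, ?_, ?_⟩
    · change dist o (((g ^ j)⁻¹ * x⁻¹) • o) ≤ c5 o g δ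
      rw [mul_smul, ← dist_smul (g ^ j), smul_inv_smul, dist_comm]
      exact hj
    · simp only
      apply QuotientGroup.eq.mpr
      refine ⟨-j, ?_⟩
      simp only
      group
  exact Subgroup.finiteIndex_of_finite_quotient

theorem dexp_pos (hprop : ∀ r : ℝ, {γ : Γ | dist o (γ • o) ≤ r}.Finite)
    (hexp : ∃ C b : ℝ, 0 < C ∧ ∀ r : ℝ, 0 ≤ r →
      ({γ : Γ | dist o (γ • o) ≤ r}.ncard : ℝ) ≤ C * Real.exp (b * r))
    {γ : Γ} (hγ : γ ∉ E g) : 0 < dexp o (Set.univ : Set Γ) := by
  obtain ⟨k, hk, hkR⟩ := h.exists_good hprop (100 * th o g δ + c2 o g δ)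
  have hM : 100 * th o g δ ≤ tl o g k - c2 o g δ := by linarith
  set R := h.spinSys hprop hk hM with hR
  set A : Γ ⧸ E g := ((1 : Γ) : Γ ⧸ E g) with hA
  set B : Γ ⧸ E g := (γ : Γ ⧸ E g) with hB
  have hAB : A ≠ B := by
    intro heq
    have := QuotientGroup.eq.mp heq
    rw [inv_one, one_mul] at this
    exact hγ this
  have hpow : ∀ (A : Γ ⧸ E g) (m : ℕ), m ≠ 0 → (A.out * g ^ (k : ℤ) * A.out⁻¹) ^ m ≠ 1 := by
    intro A m hm h1
    rw [conj_pow, ← zpow_natCast, ← zpow_mul] at h1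
    have h2 : g ^ ((k : ℤ) * m) = 1 := by
      calc g ^ ((k : ℤ) * m) = A.out⁻¹ * (A.out * g ^ ((k : ℤ) * m) * A.out⁻¹) * A.out := by group
        _ = 1 := by rw [h1]; group
    refine h.zpow_ne (mul_ne_zero ?_ ?_) h2
    · exact_mod_cast hk.1.ne'
    · exact_mod_cast hm
  obtain ⟨sA, hsA⟩ := (h.sys hprop).Sne A
  obtain ⟨sB, hsB⟩ := (h.sys hprop).Sne B
  have hb1 : B.out * g ^ (k : ℤ) * B.out⁻¹ ≠ 1 := by simpa using hpow B 1 one_ne_zero
  have hbm : B.out * g ^ (k : ℤ) * B.out⁻¹ ∈ R.G B := Subgroup.mem_zpowers _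
  have ham : A.out * g ^ (k : ℤ) * A.out⁻¹ ∈ R.G A := Subgroup.mem_zpowers _
  obtain ⟨x, hx⟩ := pp_base R hbm hb1 sA
  exact dexp_pos_of_words o hprop hexp
    (pp_inj R hAB hsA hsB ham (hpow A) hbm hb1 hx)

end Lox

end Pool.Agent.Helper97.Hyp
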