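import Mathlib

set_option autoImplicit false

namespace Pool.Agent.Helper97.Hyp

/-- projection data -/
structure ProjSys (Γ : Type*) [Group Γ] (𝒜 P : Type*) [MulAction Γ 𝒜] [MulAction Γ P] where
  d : 𝒜 → P → P → ℝ
  S : 𝒜 → Set P
  r : P → 𝒜 → ℝ
  θ : ℝ
  θpos : 0 < θ
  symm : ∀ A p q, d A p q = d A q p
  tri : ∀ A p q s, d A p s ≤ d A p q + d A q s
  self : ∀ A p, d A p p = 0
  inv : ∀ (γ : Γ) A p q, d (γ • A) (γ • p) (γ • q) = d A p q
  Sinv : ∀ (γ : Γ) A p, p ∈ S A → γ • p ∈ S (γ • A)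
  Sne : ∀ A, (S A).Nonempty
  proj : ∀ A B p q, A ≠ B → p ∈ S B → q ∈ S B → d A p q ≤ θ
  beh : ∀ A B p a b, A ≠ B → a ∈ S A → b ∈ S B → d A p b ≤ θ ∨ d B p a ≤ θ
  closer : ∀ A B p b, A ≠ B → b ∈ S B → θ < d A p b → r p A < r p B
  fin : ∀ p q, {A | θ < d A p q}.Finite

namespace ProjSys

variable {Γ : Type*} [Group Γ] {𝒜 P : Type*} [MulAction Γ 𝒜] [MulAction Γ P]
variable (D : ProjSys Γ 𝒜 P)

def Ext (w : P) (Y Y' : 𝒜) : Prop := Y' = Y ∨ (Y' ≠ Y ∧ ∃ y' ∈ D.S Y', 2 * D.θ < D.d Y w y')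

def Bad (t : ℝ) (Z : 𝒜) (w : P) (Y : 𝒜) : Prop :=
  ∀ Y', D.Ext w Y Y' → Y' ≠ Z → ∀ y' ∈ D.S Y', t < D.d Z w y'

variable {D}

lemma bad_far {t : ℝ} {Z Y : 𝒜} {w : P} (hne : Z ≠ Y) (h : D.Bad t Z w Y) {y : P} (hy : y ∈ D.S Y) :
    t < D.d Z w y := h Y (Or.inl rfl) hne.symm y hy

/-- far beyond `Y` as seen from `w`, points are close to `Y` as seen from `Z` -/
lemma behind {Z Y : 𝒜} {w y y'' : P} (hZY : Z ≠ Y) (hy : y ∈ D.S Y)
    (h1 : D.θ < D.d Z w y) (h2 : 2 * D.θ < D.d Y w y'') : D.d Z y'' y ≤ D.θ := by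
  obtain ⟨z, hz⟩ := D.Sne Z
  have h3 : D.d Y w z ≤ D.θ := by
    rcases D.beh Z Y w z y hZY hz hy with h | h
    · linarith
    · exact h
  have h4 : D.θ < D.d Y y'' z := by
    have := D.tri Y w z y''
    rw [D.symm Y y'' z]
    linarith
  rcases D.beh Y Z y'' y z hZY.symm hy hz with h | h
  · linarith
  · exact h

lemma not_bad {t : ℝ} (ht : 0 ≤ t) {Z Y : 𝒜} {w : P} (hne : Z ≠ Y) (h : ¬ D.Bad t Z w Y) {y : P}
    (hy : y ∈ D.S Y) : D.d Z w y ≤ t + 2 * D.θ := by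
  unfold Bad at h
  push Not at h
  obtain ⟨Y', hext, hYZ, y', hy', hd⟩ := h
  have hθ := D.θpos
  rcases hext with rfl | ⟨hYY, y'', hy'', hd''⟩
  · have h1 := D.proj Z Y' y' y hne hy' hy
    have h2 := D.tri Z w y' y
    linarith
  · by_contra hcon
    push Not at hcon
    have h1 : D.d Z y'' y ≤ D.θ := behind hne hy (by linarith) hd''
    have h2 := D.proj Z Y' y' y'' hYZ.symm hy' hy''
    have h3 := D.tri Z w y' y
    have h4 := D.tri Z y' y'' y
    linarith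

lemma mono {t : ℝ} {Z₁ Z Y : 𝒜} {w : P} (hZY : Z ≠ Y) {y : P} (hy : y ∈ D.S Y)
    (h : 3 * D.θ < D.d Z w y) (hb : D.Bad t Z₁ w Z) : D.Bad t Z₁ w Y := by
  have hθ := D.θpos
  intro Y' hext hYZ y' hy'
  apply hb Y' _ hYZ y' hy'
  by_cases hYZ' : Y' = Z
  · exact Or.inl hYZ'
  · right
    refine ⟨hYZ', ?_⟩
    rcases hext with rfl | ⟨_, y'', hy'', hd''⟩
    · exact ⟨y, hy, by linarith⟩
    · refine ⟨y'', hy'', ?_⟩
      have h1 : D.d Z y'' y ≤ D.θ := behind hZY hy (by linarith) hd''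
      have h2 := D.tri Z w y'' y
      linarith

lemma Ext_smul (γ : Γ) {w : P} {Y Y' : 𝒜} (h : D.Ext w Y Y') : D.Ext (γ • w) (γ • Y) (γ • Y') := by
  rcases h with rfl | ⟨hne, y', hy', hd⟩
  · exact Or.inl rfl
  · right
    refine ⟨fun h => hne (smul_left_cancel γ h), γ • y', D.Sinv γ _ _ hy', ?_⟩
    rw [D.inv]; exact hd

lemma Bad_smul (γ : Γ) {t : ℝ} {Z Y : 𝒜} {w : P} (h : D.Bad t Z w Y) :
    D.Bad t (γ • Z) (γ • w) (γ • Y) := by
  intro Y' hext hne y' hy'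
  have h1 := Ext_smul γ⁻¹ hext
  rw [inv_smul_smul, inv_smul_smul] at h1
  have h2 := h (γ⁻¹ • Y') h1 (by
    intro h3
    apply hne
    rw [← h3, smul_inv_smul]) (γ⁻¹ • y') (D.Sinv γ⁻¹ _ _ hy')
  rw [← D.inv γ, smul_inv_smul] at h2
  exact h2

lemma Bad_smul_iff (γ : Γ) {t : ℝ} {Z Y : 𝒜} {w : P} :
    D.Bad t (γ • Z) (γ • w) (γ • Y) ↔ D.Bad t Z w Y := by
  constructor
  · intro h
    have := Bad_smul γ⁻¹ h
    simpa [inv_smul_smul] using this
  · exact Bad_smul γ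

end ProjSys

/-- spinning family -/
structure Spin {Γ : Type*} [Group Γ] {𝒜 P : Type*} [MulAction Γ 𝒜] [MulAction Γ P]
    (D : ProjSys Γ 𝒜 P) where
  G : 𝒜 → Subgroup Γ
  M : ℝ
  hM : 100 * D.θ ≤ M
  Gconj : ∀ (γ : Γ) A g, g ∈ G A → γ * g * γ⁻¹ ∈ G (γ • A)
  Gfix : ∀ A g, g ∈ G A → g • A = A
  spin : ∀ A g p, g ∈ G A → g ≠ 1 → M ≤ D.d A p (g • p)

namespace Spin

variable {Γ : Type*} [Group Γ] {𝒜 P : Type*} [MulAction Γ 𝒜] [MulAction Γ P]
variable {D : ProjSys Γ 𝒜 P} (R : Spin D)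

open ProjSys

/-- one stage of the windmill, based at `x` -/
structure Stage (x : P) where
  N : Subgroup Γ
  W : Set 𝒜
  w1 : ∀ n ∈ N, ∀ A ∈ W, n • A ∈ W
  w2 : ∀ A ∈ W, R.G A ≤ N
  w3 : ∀ Z ∉ W, ∀ n ∈ N, D.d Z x (n • x) ≤ 12 * D.θ
  w4 : ∀ n ∈ N, n ≠ 1 → ∃ A, R.M - 50 * D.θ ≤ D.d A x (n • x)

variable {R} {x : P}

namespace Stage

variable (s : Stage R x)

lemma w1' {n : Γ} (hn : n ∈ s.N) {A : 𝒜} : n • A ∈ s.W ↔ A ∈ s.W := by
  constructor
  · intro h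
    have := s.w1 n⁻¹ (inv_mem hn) _ h
    rwa [inv_smul_smul] at this
  · exact s.w1 n hn A

lemma w3' {Z : 𝒜} (hZ : Z ∉ s.W) {m n : Γ} (hm : m ∈ s.N) (hn : n ∈ s.N) :
    D.d Z (m • x) (n • x) ≤ 12 * D.θ := by
  have h1 : m⁻¹ • Z ∉ s.W := by
    rw [s.w1' (inv_mem hm)]; exact hZ
  have h2 := s.w3 _ h1 (m⁻¹ * n) (mul_mem (inv_mem hm) hn)
  rw [← D.inv m, smul_inv_smul, mul_smul, smul_inv_smul] at h2
  exact h2

def L : Set 𝒜 := {Y | Y ∉ s.W ∧ ∀ Z, Z ∉ s.W → Z ≠ Y → ∀ n ∈ s.N, ¬ D.Bad (15 * D.θ) Z (n • x) Y}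

lemma L_smul {n : Γ} (hn : n ∈ s.N) {Y : 𝒜} (hY : Y ∈ s.L) : n • Y ∈ s.L := by
  refine ⟨by rw [s.w1' hn]; exact hY.1, ?_⟩
  intro Z hZ hne m hm hbad
  apply hY.2 (n⁻¹ • Z) (by rw [s.w1' (inv_mem hn)]; exact hZ)
    (fun h => hne (by rw [← h, smul_inv_smul])) (n⁻¹ * m) (mul_mem (inv_mem hn) hm)
  have := Bad_smul n⁻¹ hbad
  rwa [inv_smul_smul, ← mul_smul] at this

lemma f1 {Y Z : 𝒜} (hY : Y ∈ s.L) (hZ : Z ∉ s.W) (hne : Z ≠ Y) {n : Γ} (hn : n ∈ s.N) {y : P}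
    (hy : y ∈ D.S Y) : D.d Z (n • x) y ≤ 17 * D.θ := by
  have hθ := D.θpos
  have := not_bad (by positivity) hne (hY.2 Z hZ hne n hn) hy
  linarith

/-- next group -/
def N' : Subgroup Γ := s.N ⊔ ⨆ Y ∈ s.L, R.G Y

def W' : Set 𝒜 := {A | ∃ n ∈ s.N', ∃ B ∈ s.W ∪ s.L, A = n • B}

lemma N_le : s.N ≤ s.N' := le_sup_left

lemma G_le {Y : 𝒜} (hY : Y ∈ s.L) : R.G Y ≤ s.N' :=
  le_trans (le_iSup₂_of_le Y hY le_rfl) le_sup_right

lemma W_sub : s.W ⊆ s.W' := fun A hA => ⟨1, one_mem _, A, Or.inl hA, (one_smul _ _).symm⟩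

lemma L_sub : s.L ⊆ s.W' := fun A hA => ⟨1, one_mem _, A, Or.inr hA, (one_smul _ _).symm⟩

lemma W'_smul {n : Γ} (hn : n ∈ s.N') {A : 𝒜} (hA : A ∈ s.W') : n • A ∈ s.W' := by
  obtain ⟨m, hm, B, hB, rfl⟩ := hA
  exact ⟨n * m, mul_mem hn hm, B, hB, (mul_smul _ _ _).symm⟩

lemma W'_smul_iff {n : Γ} (hn : n ∈ s.N') {A : 𝒜} : n • A ∈ s.W' ↔ A ∈ s.W' := by
  constructor
  · intro h
    have := s.W'_smul (inv_mem hn) h
    rwa [inv_smul_smul] at this
  · exact s.W'_smul hn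

lemma T5 {Z Y : 𝒜} (hZ : Z ∉ s.W') (hY : Y ∈ s.L) {y : P} (hy : y ∈ D.S Y) {m : Γ} (hm : m ∈ s.N) :
    D.d Z (m • x) y ≤ 5 * D.θ := by
  have hθ := D.θpos
  have hZW : Z ∉ s.W := fun h => hZ (s.W_sub h)
  have hZL : Z ∉ s.L := fun h => hZ (s.L_sub h)
  have hZY : Z ≠ Y := fun h => hZL (h ▸ hY)
  have h1 : ∃ Z₁, Z₁ ∉ s.W ∧ Z₁ ≠ Z ∧ ∃ n₁ ∈ s.N, D.Bad (15 * D.θ) Z₁ (n₁ • x) Z := by
    by_contra hcon
    push Not at hcon
    exact hZL ⟨hZW, fun Z₁ h2 h3 n hn => hcon Z₁ h2 h3 n hn⟩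
  obtain ⟨Z₁, hZ₁, hne, n₁, hn₁, hbad⟩ := h1
  obtain ⟨z, hz⟩ := D.Sne Z
  obtain ⟨z₁, hz₁⟩ := D.Sne Z₁
  have h2 := bad_far hne hbad hz
  have h3 := s.w3' hZ₁ hm hn₁
  have h4 : 3 * D.θ < D.d Z₁ (m • x) z := by
    have := D.tri Z₁ (n₁ • x) (m • x) z
    rw [D.symm Z₁ (n₁ • x) (m • x)] at this
    linarith
  have h5 : D.d Z (m • x) z₁ ≤ D.θ := by
    rcases D.beh Z₁ Z (m • x) z₁ z hne hz₁ hz with h | h
    · linarith
    · exact h
  have h6 : D.d Z (n₁ • x) z₁ ≤ D.θ := by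
    rcases D.beh Z₁ Z (n₁ • x) z₁ z hne hz₁ hz with h | h
    · linarith
    · exact h
  have h7 : D.d Z (n₁ • x) y ≤ 3 * D.θ := by
    by_contra hcon
    push Not at hcon
    by_cases hc : Z₁ = Y
    · subst hc
      rcases D.beh Z Z₁ (n₁ • x) z y hZY hz hy with h | h
      · linarith
      · linarith
    · exact hY.2 Z₁ hZ₁ hc n₁ hn₁ (mono hZY hy hcon hbad)
  have h8 := D.tri Z (m • x) z₁ y
  have h9 := D.tri Z z₁ (n₁ • x) y
  rw [D.symm Z z₁ (n₁ • x)] at h9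
  linarith

/-- values of words -/
def val : List (𝒜 × Γ × Γ) → Γ
  | [] => 1
  | p :: l => p.2.1 * p.2.2 * val l

/-- admissible words -/
def Adm : Option 𝒜 → List (𝒜 × Γ × Γ) → Prop
  | _, [] => True
  | prev, p :: l => p.1 ∈ s.L ∧ p.2.1 ∈ R.G p.1 ∧ p.2.1 ≠ 1 ∧ p.2.2 ∈ s.N ∧ some p.1 ≠ prev ∧
      Adm (some (p.2.2⁻¹ • p.1)) l

lemma Adm_none {prev : Option 𝒜} {l : List (𝒜 × Γ × Γ)} (h : s.Adm prev l) : s.Adm none l := by
  cases l with
  | nil => trivial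
  | cons p l => exact ⟨h.1, h.2.1, h.2.2.1, h.2.2.2.1, by simp, h.2.2.2.2.2⟩

lemma val_mem {prev : Option 𝒜} {l : List (𝒜 × Γ × Γ)} (h : s.Adm prev l) : val l ∈ s.N' := by
  induction l generalizing prev with
  | nil => exact one_mem _
  | cons p l ih =>
    exact mul_mem (mul_mem (s.G_le h.1 h.2.1) (s.N_le h.2.2.2.1)) (ih h.2.2.2.2.2)

lemma exists_word {n : Γ} (hn : n ∈ s.N') : ∃ n₀ ∈ s.N, ∃ l, s.Adm none l ∧ n = n₀ * val l := by
  have key : ∀ Y ∈ s.L, ∀ g ∈ R.G Y, ∀ n₀ ∈ s.N, ∀ l, s.Adm none l →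
      ∃ n₁ ∈ s.N, ∃ l', s.Adm none l' ∧ g * (n₀ * val l) = n₁ * val l' := by
    intro Y hY g hg n₀ hn₀ l hl
    by_cases hg1 : g = 1
    · exact ⟨n₀, hn₀, l, hl, by rw [hg1, one_mul]⟩
    have hY' := s.L_smul (inv_mem hn₀) hY
    have hg' : n₀⁻¹ * g * n₀ ∈ R.G (n₀⁻¹ • Y) := by
      have := R.Gconj n₀⁻¹ Y g hg
      rwa [inv_inv] at this
    have hg1' : n₀⁻¹ * g * n₀ ≠ 1 := by
      intro h
      apply hg1
      calc g = n₀ * (n₀⁻¹ * g * n₀) * n₀⁻¹ := by group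
        _ = 1 := by rw [h]; group
    set Y' := n₀⁻¹ • Y with hY'def
    set g' := n₀⁻¹ * g * n₀ with hg'def
    have heq : g * (n₀ * val l) = n₀ * (g' * val l) := by rw [hg'def]; group
    cases l with
    | nil =>
      refine ⟨n₀, hn₀, [(Y', g', 1)], ⟨hY', hg', hg1', one_mem _, by simp, trivial⟩, ?_⟩
      rw [heq]; simp [val]
    | cons p l =>
      by_cases hp : p.1 = Y'
      · -- merge
        by_cases hprod : g' * p.2.1 = 1
        · refine ⟨n₀ * p.2.2, mul_mem hn₀ hl.2.2.2.1, l, s.Adm_none hl.2.2.2.2.2, ?_⟩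
          rw [heq]
          simp only [val]
          calc n₀ * (g' * (p.2.1 * p.2.2 * val l)) = n₀ * ((g' * p.2.1) * p.2.2 * val l) := by group
            _ = _ := by rw [hprod]; group
        · refine ⟨n₀, hn₀, (Y', g' * p.2.1, p.2.2) :: l, ⟨hY', ?_, hprod, hl.2.2.2.1, by simp, ?_⟩, ?_⟩
          · exact mul_mem hg' (hp ▸ hl.2.1)
          · have := hl.2.2.2.2.2
            rw [hp] at this
            exact this
          · rw [heq]; simp only [val]; group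
      · refine ⟨n₀, hn₀, (Y', g', 1) :: p :: l, ⟨hY', hg', hg1', one_mem _, by simp, ?_⟩, ?_⟩
        · refine ⟨hl.1, hl.2.1, hl.2.2.1, hl.2.2.2.1, ?_, hl.2.2.2.2.2⟩
          simp only [inv_one, one_smul]
          intro h
          exact hp (Option.some_injective _ h)
        · rw [heq]; simp only [val]; group
  have hN' : s.N' = Subgroup.closure ((s.N : Set Γ) ∪ ⋃ Y ∈ s.L, (R.G Y : Set Γ)) := by
    unfold N'
    apply le_antisymm
    · apply sup_le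
      · intro n hn
        exact Subgroup.subset_closure (Or.inl hn)
      · apply iSup₂_le
        intro Y hY g hg
        exact Subgroup.subset_closure (Or.inr (Set.mem_iUnion₂.mpr ⟨Y, hY, hg⟩))
    · rw [Subgroup.closure_le]
      rintro g (hg | hg)
      · exact s.N_le hg
      · obtain ⟨Y, hY, hg⟩ := Set.mem_iUnion₂.mp hg
        exact s.G_le hY hg
  rw [hN'] at hn
  have step : ∀ x ∈ ((s.N : Set Γ) ∪ ⋃ Y ∈ s.L, (R.G Y : Set Γ)), ∀ y : Γ,
      (∃ n₀ ∈ s.N, ∃ l, s.Adm none l ∧ y = n₀ * val l) →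
      ∃ n₀ ∈ s.N, ∃ l, s.Adm none l ∧ x * y = n₀ * val l := by
    rintro g hg y ⟨n₀, hn₀, l, hl, rfl⟩
    rcases hg with hg | hg
    · exact ⟨g * n₀, mul_mem hg hn₀, l, hl, by group⟩
    · obtain ⟨Y, hY, hg⟩ := Set.mem_iUnion₂.mp hg
      exact key Y hY g hg n₀ hn₀ l hl
  induction hn using Subgroup.closure_induction_left with
  | one => exact ⟨1, one_mem _, [], trivial, by simp [val]⟩
  | mul_left x hx y _ ih => exact step x hx y ih
  | inv_mul_cancel x hx y _ ih =>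
    apply step x⁻¹ _ y ih
    rcases hx with hx | hx
    · exact Or.inl (inv_mem hx)
    · obtain ⟨Y, hY, hg⟩ := Set.mem_iUnion₂.mp hx
      exact Or.inr (Set.mem_iUnion₂.mpr ⟨Y, hY, inv_mem hg⟩)

/-- visibility of the first axis -/
lemma V {prev : Option 𝒜} {p : 𝒜 × Γ × Γ} {l : List (𝒜 × Γ × Γ)} (h : s.Adm prev (p :: l)) :
    R.M - 30 * D.θ ≤ D.d p.1 x (val (p :: l) • x) := by
  have hθ := D.θpos
  have hM := R.hM
  induction l generalizing prev p with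
  | nil =>
    obtain ⟨hY, hg, hg1, hm, -, -⟩ := h
    simp only [val, mul_one]
    have h1 := R.spin p.1 p.2.1 x hg hg1
    have h2 := s.w3 p.1 hY.1 p.2.2 hm
    have h3 : D.d p.1 (p.2.1 • x) (p.2.1 • p.2.2 • x) ≤ 12 * D.θ := by
      have := D.inv p.2.1 p.1 x (p.2.2 • x)
      rw [R.Gfix _ _ hg] at this
      rw [this]; exact h2
    have h4 := D.tri p.1 x ((p.2.1 * p.2.2) • x) (p.2.1 • x)
    rw [D.symm p.1 ((p.2.1 * p.2.2) • x) (p.2.1 • x), mul_smul] at h4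
    rw [mul_smul]
    linarith
  | cons p' l ih =>
    obtain ⟨hY, hg, hg1, hm, -, hadm⟩ := h
    have hV := ih hadm
    have hY₂ := hadm.1
    have hne : p'.1 ≠ p.2.2⁻¹ • p.1 := by
      intro h
      exact hadm.2.2.2.2.1 (by rw [h])
    set v := val (p' :: l) with hv
    have hval : val (p :: p' :: l) = p.2.1 * p.2.2 * v := rfl
    rw [hval]
    set Ys := p.2.2⁻¹ • p.1 with hYs
    have hYsL : Ys ∈ s.L := s.L_smul (inv_mem hm) hY
    obtain ⟨ys, hys⟩ := D.Sne Ys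
    obtain ⟨y₂, hy₂⟩ := D.Sne p'.1
    have h1 := s.f1 hYsL hY₂.1 hne (one_mem _) hys
    have h2 := s.f1 hY₂ hYsL.1 hne.symm (one_mem _) hy₂
    rw [one_smul] at h1 h2
    have h3 : D.d Ys (v • x) y₂ ≤ D.θ := by
      rcases D.beh p'.1 Ys (v • x) y₂ ys hne hy₂ hys with h | h
      · have h4 := D.tri p'.1 x ys (v • x)
        rw [D.symm p'.1 ys (v • x)] at h4
        linarith
      · exact h
    have h4 : D.d Ys x (v • x) ≤ 18 * D.θ := by
      have := D.tri Ys x y₂ (v • x)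
      rw [D.symm Ys y₂ (v • x)] at this
      linarith
    have h5 : D.d p.1 ((p.2.1 * p.2.2) • x) ((p.2.1 * p.2.2 * v) • x) ≤ 18 * D.θ := by
      have := D.inv (p.2.1 * p.2.2) Ys x (v • x)
      rw [hYs, mul_smul p.2.1 p.2.2 (p.2.2⁻¹ • p.1), smul_inv_smul, R.Gfix _ _ hg, ← hYs] at this
      rw [mul_smul (p.2.1 * p.2.2) v x, this]
      exact h4
    have h6 := R.spin p.1 p.2.1 x hg hg1
    have h7 : D.d p.1 (p.2.1 • x) ((p.2.1 * p.2.2) • x) ≤ 12 * D.θ := by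
      have := D.inv p.2.1 p.1 x (p.2.2 • x)
      rw [R.Gfix _ _ hg] at this
      rw [mul_smul, this]; exact s.w3 p.1 hY.1 p.2.2 hm
    have h8 := D.tri p.1 x ((p.2.1 * p.2.2) • x) (p.2.1 • x)
    have h9 := D.tri p.1 x ((p.2.1 * p.2.2 * v) • x) ((p.2.1 * p.2.2) • x)
    rw [D.symm p.1 ((p.2.1 * p.2.2) • x) (p.2.1 • x)] at h8
    rw [D.symm p.1 ((p.2.1 * p.2.2 * v) • x) ((p.2.1 * p.2.2) • x)] at h9
    linarith

/-- the key bound for axes outside the next stage -/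
lemma C2 {prev : Option 𝒜} {p : 𝒜 × Γ × Γ} {l : List (𝒜 × Γ × Γ)} (h : s.Adm prev (p :: l))
    {u : P} {Z : 𝒜} (hZ : Z ∉ s.W') (H1 : D.d p.1 u x ≤ 18 * D.θ)
    (H2 : ∀ y ∈ D.S p.1, D.d Z u y ≤ 11 * D.θ) : D.d Z u (val (p :: l) • x) ≤ 12 * D.θ := by
  have hθ := D.θpos
  have hM := R.hM
  induction l generalizing prev p u Z with
  | nil =>
    have hV := s.V h
    obtain ⟨hY, hg, hg1, hm, -, -⟩ := h
    obtain ⟨y, hy⟩ := D.Sne p.1
    obtain ⟨z, hz⟩ := D.Sne Z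
    have hZY : p.1 ≠ Z := fun h => hZ (h ▸ s.L_sub hY)
    set v := val [p] with hv
    by_cases hA : D.θ < D.d p.1 (v • x) z
    · have h1 : D.d Z (v • x) y ≤ D.θ := by
        rcases D.beh p.1 Z (v • x) y z hZY hy hz with h | h
        · linarith
        · exact h
      have h2 := H2 y hy
      have h3 := D.tri Z u y (v • x)
      rw [D.symm Z y (v • x)] at h3
      linarith
    · push Not at hA
      have hB : D.θ < D.d p.1 u z := by
        have h1 := D.tri p.1 x u (v • x)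
        have h2 := D.tri p.1 u z (v • x)
        rw [D.symm p.1 x u] at h1
        rw [D.symm p.1 z (v • x)] at h2
        linarith
      have h1 : D.d Z u y ≤ D.θ := by
        rcases D.beh p.1 Z u y z hZY hy hz with h | h
        · linarith
        · exact h
      have hgm : p.2.1 * p.2.2 ∈ s.N' := mul_mem (s.G_le hY hg) (s.N_le hm)
      have hvv : v = p.2.1 * p.2.2 := by rw [hv]; simp [val]
      have hYs : (p.2.1 * p.2.2)⁻¹ • p.1 = p.2.2⁻¹ • p.1 := by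
        rw [mul_inv_rev, mul_smul]
        congr 1
        rw [inv_smul_eq_iff, R.Gfix _ _ hg]
      have h2 : D.d Z y (v • x) ≤ 5 * D.θ := by
        have h3 := s.T5 (Z := (p.2.1 * p.2.2)⁻¹ • Z) (by rw [s.W'_smul_iff (inv_mem hgm)]; exact hZ)
          (s.L_smul (inv_mem hm) hY) (y := (p.2.1 * p.2.2)⁻¹ • y)
          (by rw [← hYs]; exact D.Sinv _ _ _ hy) (one_mem s.N)
        rw [← D.inv (p.2.1 * p.2.2), smul_inv_smul, smul_inv_smul, one_smul, ← hvv, D.symm] at h3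
        exact h3
      have h3 := D.tri Z u y (v • x)
      linarith
  | cons p' l ih =>
    have hV := s.V h
    obtain ⟨hY, hg, hg1, hm, -, hadm⟩ := h
    obtain ⟨y, hy⟩ := D.Sne p.1
    obtain ⟨z, hz⟩ := D.Sne Z
    have hZY : p.1 ≠ Z := fun h => hZ (h ▸ s.L_sub hY)
    set w := val (p' :: l) with hw
    have hval : val (p :: p' :: l) = p.2.1 * p.2.2 * w := rfl
    rw [hval] at hV ⊢
    set v := p.2.1 * p.2.2 * w with hv
    by_cases hA : D.θ < D.d p.1 (v • x) z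
    · have h1 : D.d Z (v • x) y ≤ D.θ := by
        rcases D.beh p.1 Z (v • x) y z hZY hy hz with h | h
        · linarith
        · exact h
      have h2 := H2 y hy
      have h3 := D.tri Z u y (v • x)
      rw [D.symm Z y (v • x)] at h3
      linarith
    · push Not at hA
      have hB : D.θ < D.d p.1 u z := by
        have h1 := D.tri p.1 x u (v • x)
        have h2 := D.tri p.1 u z (v • x)
        rw [D.symm p.1 x u] at h1
        rw [D.symm p.1 z (v • x)] at h2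
        linarith
      have h1 : ∀ y ∈ D.S p.1, D.d Z u y ≤ D.θ := by
        intro y hy
        rcases D.beh p.1 Z u y z hZY hy hz with h | h
        · linarith
        · exact h
      set γ := p.2.1 * p.2.2 with hγ
      have hgm : γ ∈ s.N' := mul_mem (s.G_le hY hg) (s.N_le hm)
      have hYs : γ⁻¹ • p.1 = p.2.2⁻¹ • p.1 := by
        rw [hγ, mul_inv_rev, mul_smul]
        congr 1
        rw [inv_smul_eq_iff, R.Gfix _ _ hg]
      set Ys := p.2.2⁻¹ • p.1 with hYsdef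
      have hYsL : Ys ∈ s.L := s.L_smul (inv_mem hm) hY
      have hne : p'.1 ≠ Ys := by
        intro h
        exact hadm.2.2.2.2.1 (by rw [h])
      have hY₂ := hadm.1
      have hZ' : γ⁻¹ • Z ∉ s.W' := by rw [s.W'_smul_iff (inv_mem hgm)]; exact hZ
      have hstep := ih (u := γ⁻¹ • u) (Z := γ⁻¹ • Z) hadm hZ' ?_ ?_
      · rw [← D.inv γ, smul_inv_smul, smul_inv_smul, ← mul_smul] at hstep
        exact hstep
      · -- H1
        obtain ⟨ys, hys⟩ := D.Sne Ys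
        obtain ⟨y₂, hy₂⟩ := D.Sne p'.1
        have h2 := s.f1 hYsL hY₂.1 hne (one_mem _) hys
        have h3 := s.f1 hY₂ hYsL.1 hne.symm (one_mem _) hy₂
        rw [one_smul] at h2 h3
        have h4 : D.d p.1 u (γ • x) = D.d Ys (γ⁻¹ • u) x := by
          have h4' := D.inv γ (γ⁻¹ • p.1) (γ⁻¹ • u) x
          rw [smul_inv_smul, smul_inv_smul] at h4'
          rw [← hYs]
          exact h4'
        have h5 := R.spin p.1 p.2.1 x hg hg1
        have h6 : D.d p.1 (p.2.1 • x) (γ • x) ≤ 12 * D.θ := by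
          have := D.inv p.2.1 p.1 x (p.2.2 • x)
          rw [R.Gfix _ _ hg] at this
          rw [hγ, mul_smul, this]; exact s.w3 p.1 hY.1 p.2.2 hm
        have h7 := D.tri p.1 x u (p.2.1 • x)
        have h8 := D.tri p.1 u (γ • x) (p.2.1 • x)
        rw [D.symm p.1 x u] at h7
        rw [D.symm p.1 (γ • x) (p.2.1 • x)] at h8
        have h9 : D.θ < D.d Ys (γ⁻¹ • u) y₂ := by
          have := D.tri Ys (γ⁻¹ • u) y₂ x
          rw [D.symm Ys y₂ x] at this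
          linarith
        have h10 : D.d p'.1 (γ⁻¹ • u) ys ≤ D.θ := by
          rcases D.beh Ys p'.1 (γ⁻¹ • u) ys y₂ hne.symm hys hy₂ with h | h
          · linarith
          · exact h
        have h11 := D.tri p'.1 (γ⁻¹ • u) ys x
        rw [D.symm p'.1 ys x] at h11
        linarith
      · -- H2
        intro y₂ hy₂
        obtain ⟨ys, hys⟩ := D.Sne Ys
        have h2 := s.T5 hZ' hYsL hys (one_mem s.N)
        have h3 := s.T5 hZ' hY₂ hy₂ (one_mem s.N)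
        rw [one_smul] at h2 h3
        have h4 : D.d (γ⁻¹ • Z) (γ⁻¹ • u) ys ≤ D.θ := by
          rw [← D.inv γ, smul_inv_smul, smul_inv_smul]
          apply h1
          have := D.Sinv γ _ _ hys
          rwa [← hYs, smul_inv_smul] at this
        have h5 := D.tri (γ⁻¹ • Z) (γ⁻¹ • u) ys y₂
        have h6 := D.tri (γ⁻¹ • Z) ys x y₂
        rw [D.symm _ ys x] at h6
        linarith

/-- the next stage -/
def next : Stage R x where
  N := s.N'
  W := s.W'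
  w1 := fun _ hn _ hA => s.W'_smul hn hA
  w2 := by
    rintro A ⟨n, hn, B, hB, rfl⟩ g hg
    have h1 : n⁻¹ * g * n ∈ R.G B := by
      have := R.Gconj n⁻¹ _ g hg
      rwa [inv_smul_smul, inv_inv] at this
    have h2 : n⁻¹ * g * n ∈ s.N' := by
      rcases hB with hB | hB
      · exact s.N_le (s.w2 B hB h1)
      · exact s.G_le hB h1
    have h3 : g = n * (n⁻¹ * g * n) * n⁻¹ := by group
    rw [h3]
    exact mul_mem (mul_mem hn h2) (inv_mem hn)
  w3 := by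
    intro Z hZ n hn
    obtain ⟨n₀, hn₀, l, hl, rfl⟩ := s.exists_word hn
    have hZW : Z ∉ s.W := fun h => hZ (s.W_sub h)
    cases l with
    | nil =>
      simp only [val, mul_one]
      exact s.w3 Z hZW n₀ hn₀
    | cons p l =>
      have hn₀' := s.N_le hn₀
      have h1 := s.C2 hl (u := n₀⁻¹ • x) (Z := n₀⁻¹ • Z)
        (by rw [s.W'_smul_iff (inv_mem hn₀')]; exact hZ) ?_ ?_
      · rw [← D.inv n₀, smul_inv_smul, smul_inv_smul, ← mul_smul] at h1
        exact h1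
      · have h2 := s.w3' hl.1.1 (inv_mem hn₀) (one_mem _)
        rw [one_smul] at h2
        have := D.θpos
        linarith
      · intro y hy
        have h2 := s.T5 (Z := n₀⁻¹ • Z) (by rw [s.W'_smul_iff (inv_mem hn₀')]; exact hZ) hl.1 hy
          (inv_mem hn₀)
        have := D.θpos
        linarith
  w4 := by
    intro n hn hn1
    obtain ⟨n₀, hn₀, l, hl, rfl⟩ := s.exists_word hn
    cases l with
    | nil =>
      simp only [val, mul_one] at hn1 ⊢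
      exact s.w4 n₀ hn₀ hn1
    | cons p l =>
      have hV := s.V hl
      refine ⟨n₀ • p.1, ?_⟩
      have h1 : n₀ • p.1 ∉ s.W := by rw [s.w1' hn₀]; exact hl.1.1
      have h2 := s.w3 _ h1 n₀ hn₀
      have h3 := D.inv n₀ p.1 x (val (p :: l) • x)
      rw [← mul_smul] at h3
      have h4 := D.tri (n₀ • p.1) (n₀ • x) x ((n₀ * val (p :: l)) • x)
      rw [D.symm _ (n₀ • x) x] at h4
      have := D.θpos
      linarith

/-- first stage -/
def base : Stage R x where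
  N := ⊥
  W := ∅
  w1 := fun _ _ _ hA => hA.elim
  w2 := fun _ hA => hA.elim
  w3 := by
    intro Z _ n hn
    rw [Subgroup.mem_bot.mp hn, one_smul, D.self]
    have := D.θpos
    positivity
  w4 := fun _ hn h => absurd (Subgroup.mem_bot.mp hn) h

/-- all stages -/
def stg (R : Spin D) (x : P) : ℕ → Stage R x
  | 0 => base
  | i + 1 => (stg R x i).next

lemma stg_W_mono {i j : ℕ} (h : i ≤ j) : (stg R x i).W ⊆ (stg R x j).W := by
  induction h with
  | refl => exact le_rfl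
  | step h ih => exact ih.trans (W_sub _)

lemma stg_N_mono {i j : ℕ} (h : i ≤ j) : (stg R x i).N ≤ (stg R x j).N := by
  induction h with
  | refl => exact le_rfl
  | step h ih => exact ih.trans (N_le _)

lemma exhaust (A : 𝒜) : ∃ i, A ∈ (stg R x i).W := by
  by_contra hcon
  push Not at hcon
  have hθ := D.θpos
  obtain ⟨a, ha⟩ := D.Sne A
  have hF : {Z | D.θ < D.d Z x a}.Finite := D.fin x a
  have step : ∀ i, ∃ Z, Z ∈ {Z | D.θ < D.d Z x a} ∧ Z ∉ (stg R x i).W ∧ Z ∈ (stg R x (i + 1)).W := by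
    intro i
    set s := stg R x i with hs
    have hAL : A ∉ s.L := fun h => hcon (i + 1) (s.L_sub h)
    set T : Set 𝒜 := {Z | Z ∉ s.W ∧ Z ≠ A ∧ ∃ n ∈ s.N, D.Bad (15 * D.θ) Z (n • x) A} with hT
    have hTF : T ⊆ {Z | D.θ < D.d Z x a} := by
      rintro Z ⟨hZ, hne, n, hn, hbad⟩
      have h1 := bad_far hne hbad ha
      have h2 := s.w3 Z hZ n hn
      have h3 := D.tri Z (n • x) x a
      rw [D.symm Z (n • x) x] at h3
      change D.θ < D.d Z x a
      linarith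
    have hTne : T.Nonempty := by
      by_contra h
      rw [Set.not_nonempty_iff_eq_empty] at h
      apply hAL
      refine ⟨hcon i, ?_⟩
      intro Z hZ hne n hn hbad
      have : Z ∈ T := ⟨hZ, hne, n, hn, hbad⟩
      rw [h] at this
      exact this
    obtain ⟨Z, hZT, hmin⟩ := Set.exists_min_image T (fun Z => D.r x Z) (hF.subset hTF) hTne
    refine ⟨Z, hTF hZT, hZT.1, s.L_sub ⟨hZT.1, ?_⟩⟩
    intro Z₁ hZ₁ hne₁ n₁ hn₁ hbad₁
    obtain ⟨hZ, hne, n, hn, hbad⟩ := hZT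
    obtain ⟨z, hz⟩ := D.Sne Z
    have h1 := bad_far hne hbad ha
    have h2 := s.w3' hZ hn hn₁
    have h3 : 3 * D.θ < D.d Z (n₁ • x) a := by
      have := D.tri Z (n • x) (n₁ • x) a
      linarith
    have h4 := bad_far hne₁ hbad₁ hz
    have h5 : Z₁ ≠ A := by
      rintro rfl
      rcases D.beh Z Z₁ (n₁ • x) z a hne hz ha with h | h
      · linarith
      · linarith
    have h6 := mono hne ha h3 hbad₁
    have h7 := hmin Z₁ ⟨hZ₁, h5, n₁, hn₁, h6⟩
    have h8 : D.θ < D.d Z₁ x z := by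
      have h9 := s.w3 Z₁ hZ₁ n₁ hn₁
      have h10 := D.tri Z₁ (n₁ • x) x z
      rw [D.symm Z₁ (n₁ • x) x] at h10
      linarith
    have h9 := D.closer Z₁ Z x z hne₁ hz h8
    linarith
  choose Z hZF hZ1 hZ2 using step
  have hinj : Function.Injective Z := by
    intro i j hij
    by_contra hne
    rcases lt_or_gt_of_ne hne with h | h
    · exact hZ1 j (hij ▸ stg_W_mono (Nat.succ_le_of_lt h) (hZ2 i))
    · exact hZ1 i (hij ▸ stg_W_mono (Nat.succ_le_of_lt h) (hZ2 j))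
  exact Set.infinite_of_injective_forall_mem hinj hZF hF

end Stage

/-- the windmill theorem: nontrivial elements of the group generated by the rotation subgroups
move every point a lot as seen from some axis -/
theorem windmill (R : Spin D) (x : P) {n : Γ} (hn : n ∈ ⨆ A, R.G A) (hn1 : n ≠ 1) :
    ∃ A, R.M - 50 * D.θ ≤ D.d A x (n • x) := by
  have h1 : (⨆ A, R.G A) ≤ ⨆ i, (Stage.stg R x i).N := by
    apply iSup_le
    intro A
    obtain ⟨i, hi⟩ := Stage.exhaust (R := R) (x := x) A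
    exact le_trans ((Stage.stg R x i).w2 A hi) (le_iSup (fun i => (Stage.stg R x i).N) i)
  have h2 := h1 hn
  have hdir : Directed (· ≤ ·) (fun i => (Stage.stg R x i).N) :=
    directed_of_isDirected_le (fun i j h => Stage.stg_N_mono h)
  rw [Subgroup.mem_iSup_of_directed hdir] at h2
  obtain ⟨i, hi⟩ := h2
  exact (Stage.stg R x i).w4 n hi hn1

end Spin

end Pool.Agent.Helper97.Hyp
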