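import Pool.Agent.Helper97.Hyp.Axis
import Pool.Agent.Helper97.Hyp.Windmill

set_option autoImplicit false
set_option linter.unusedSectionVars false

namespace Pool.Agent.Helper97.Hyp

variable {X : Type*} [PseudoMetricSpace X]
variable {Γ : Type*} [Group Γ] [MulAction Γ X] [IsIsometricSMul Γ X]

namespace Lox

variable {δ : ℝ} {o : X} {g : Γ}

/-- the axes -/
def ax (o : X) (g : Γ) (A : Γ ⧸ E g) : Set X := {x | ∃ γ : Γ, (γ : Γ ⧸ E g) = A ∧ γ • o = x}

lemma ax_smul (γ : Γ) (A : Γ ⧸ E g) (x : X) : x ∈ ax o g (γ • A) ↔ γ⁻¹ • x ∈ ax o g A := by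
  constructor
  · rintro ⟨β, hβ, rfl⟩
    refine ⟨γ⁻¹ * β, ?_, mul_smul _ _ _⟩
    have h1 : ((γ⁻¹ * β : Γ) : Γ ⧸ E g) = γ⁻¹ • (β : Γ ⧸ E g) := rfl
    rw [h1, hβ, inv_smul_smul]
  · rintro ⟨β, hβ, hx⟩
    refine ⟨γ * β, ?_, ?_⟩
    · have h1 : ((γ * β : Γ) : Γ ⧸ E g) = γ • (β : Γ ⧸ E g) := rfl
      rw [h1, hβ]
    · rw [mul_smul, hx, smul_inv_smul]

lemma ax_coe (γ : Γ) (x : X) :
    x ∈ ax o g (γ : Γ ⧸ E g) ↔ γ⁻¹ • x ∈ ax o g ((1 : Γ) : Γ ⧸ E g) := by
  rw [← ax_smul]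
  have h1 : γ • ((1 : Γ) : Γ ⧸ E g) = ((γ * 1 : Γ) : Γ ⧸ E g) := rfl
  rw [h1, mul_one]

lemma ax_ne (A : Γ ⧸ E g) : (ax o g A).Nonempty := by
  obtain ⟨γ, rfl⟩ := QuotientGroup.mk_surjective A
  exact ⟨γ • o, γ, rfl, rfl⟩

lemma mem_ax_one {x : X} (hx : x ∈ ax o g ((1 : Γ) : Γ ⧸ E g)) : ∃ e ∈ E g, e • o = x := by
  obtain ⟨γ, hγ, hx⟩ := hx
  refine ⟨γ, ?_, hx⟩
  have := QuotientGroup.eq.mp hγ.symm
  rwa [inv_one, one_mul] at this

/-- constant of the axes -/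
noncomputable def c2 (o : X) (g : Γ) (δ : ℝ) : ℝ := c1 o g δ + 6 * c5 o g δ

variable (h : Lox δ o g)

include h

lemma c1_nonneg : 0 ≤ c1 o g δ := by
  have h1 := h.tl_one_le_c1
  have h2 := h.tl_ge 1
  push_cast at h2
  linarith

lemma c5_nonneg : 0 ≤ c5 o g δ := by
  have h1 := h.c1_nonneg
  have h2 := h.tl_ge 1
  have h3 := h.δ_nonneg
  push_cast at h2
  unfold c5
  linarith

lemma c2_nonneg : 0 ≤ c2 o g δ := by
  have h1 := h.c1_nonneg
  have h2 := h.c5_nonneg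
  unfold c2
  linarith

lemma near_line {x : X} (hx : x ∈ ax o g ((1 : Γ) : Γ ⧸ E g)) :
    ∃ j : ℤ, dist x (g ^ j • o) ≤ c5 o g δ := by
  obtain ⟨e, he, rfl⟩ := mem_ax_one hx
  exact h.E_near he

lemma qline_ax (A : Γ ⧸ E g) : QLine (c2 o g δ) (ax o g A) := by
  have h1 : QLine (c2 o g δ) (ax o g ((1 : Γ) : Γ ⧸ E g)) := by
    apply h.qline.thicken _ h.c5_nonneg
    · intro t ht
      obtain ⟨j, hj⟩ := h.near_line ht
      exact ⟨_, ⟨j, rfl⟩, hj⟩
    · rintro _ ⟨i, rfl⟩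
      refine ⟨g ^ i, ?_, rfl⟩
      apply QuotientGroup.eq.mpr
      rw [mul_one]
      exact inv_mem (zpow_mem_E i)
  obtain ⟨γ, rfl⟩ := QuotientGroup.mk_surjective A
  exact h1.smul (ax_coe γ)

/-- constant for the fellow travelling -/
noncomputable def c7 (o : X) (g : Γ) (δ : ℝ) : ℝ :=
  2 * c2 o g δ + δ + 3 * c5 o g δ + tl o g 1 / 2

variable (hprop : ∀ r : ℝ, {γ : Γ | dist o (γ • o) ≤ r}.Finite)

/-- projection bound -/
noncomputable def th1 (o : X) (g : Γ) (δ : ℝ) : ℝ :=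
  ({γ : Γ | dist o (γ • o) ≤ c7 o g δ}.ncard : ℝ) * tl o g 1 + 2 * c5 o g δ + 2 * c2 o g δ + δ

include hprop

lemma proj_one {γ : Γ} (hγ : γ ∉ E g) {p q : X} (hp : p ∈ ax o g (γ : Γ ⧸ E g))
    (hq : q ∈ ax o g (γ : Γ ⧸ E g)) :
    pd (ax o g ((1 : Γ) : Γ ⧸ E g)) p q ≤ th1 o g δ := by
  have hδ := h.δ_nonneg
  have hc2 := h.c2_nonneg
  have hc5 := h.c5_nonneg
  have hL := h.tl_ge 1
  push_cast at hL
  obtain ⟨p', hp'⟩ := (h.qline_ax ((1 : Γ) : Γ ⧸ E g)).proj p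
  obtain ⟨q', hq'⟩ := (h.qline_ax ((1 : Γ) : Γ ⧸ E g)).proj q
  have h0 := pd_le_of_proj hp' hq'
  have hn : (0 : ℝ) ≤ ({γ : Γ | dist o (γ • o) ≤ c7 o g δ}.ncard : ℝ) * tl o g 1 := by positivity
  by_cases hfar : c2 o g δ + δ < dist p' q'
  swap
  · push Not at hfar
    unfold th1
    linarith
  obtain ⟨i, hi⟩ := h.near_line hp'.1
  obtain ⟨j, hj⟩ := h.near_line hq'.1
  have h1 := far_of_proj h.hyp hp' hq' hfar
  have key : ∀ m : ℤ, ∃ l : ℤ, m ∈ Finset.uIcc i j →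
      g ^ (-m) * γ * g ^ l ∈ {γ : Γ | dist o (γ • o) ≤ c7 o g δ} := by
    intro m
    by_cases hm : m ∈ Finset.uIcc i j
    swap
    · exact ⟨0, fun h => absurd h hm⟩
    have hch : dist (g ^ i • o) (g ^ m • o) + dist (g ^ m • o) (g ^ j • o) ≤
        dist (g ^ i • o) (g ^ j • o) + tl o g 1 := by
      rw [Finset.mem_uIcc] at hm
      rcases le_total i j with hij | hij
      · rw [min_eq_left hij, max_eq_right hij] at hm
        exact h.chain hm.1 hm.2
      · rw [min_eq_right hij, max_eq_left hij] at hm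
        have := h.chain hm.1 hm.2
        rw [dist_comm (g ^ j • o) (g ^ m • o), dist_comm (g ^ m • o) (g ^ i • o),
          dist_comm (g ^ j • o) (g ^ i • o)] at this
        linarith
    obtain ⟨b, hb⟩ := (h.qline_ax (γ : Γ ⧸ E g)).proj (g ^ m • o)
    obtain ⟨l, hl⟩ := h.near_line ((ax_coe γ b).mp hb.1)
    have hl' : dist b (γ • g ^ l • o) ≤ c5 o g δ := by
      rw [← dist_smul γ, smul_inv_smul] at hl
      exact hl
    refine ⟨l, fun _ => ?_⟩
    have e1 := hb.2 p hp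
    have e2 := hb.2 q hq
    have e3 := dist_triangle4 p p' (g ^ i • o) (g ^ m • o)
    have e4 := dist_triangle4 (g ^ m • o) (g ^ j • o) q' q
    have e5 := dist_triangle4 (g ^ i • o) p' q' (g ^ j • o)
    have e6 := dist_triangle p b q
    have e7 := dist_triangle (g ^ m • o) b (γ • g ^ l • o)
    rw [dist_comm (g ^ i • o) p'] at e5
    rw [dist_comm (g ^ j • o) q', dist_comm q' q] at e4
    rw [dist_comm (g ^ m • o) p, dist_comm b p] at e1
    change dist o ((g ^ (-m) * γ * g ^ l) • o) ≤ c7 o g δ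
    have e8 : dist o ((g ^ (-m) * γ * g ^ l) • o) = dist (g ^ m • o) (γ • g ^ l • o) := by
      rw [← dist_smul (g ^ m) o]
      congr 1
      rw [smul_smul, smul_smul]
      congr 1
      group
    rw [e8]
    unfold c7
    linarith
  choose l hl using key
  have hinj : Set.InjOn (fun m : ℤ => g ^ (-m) * γ * g ^ (l m)) (Finset.uIcc i j) := by
    intro m _ m' _ heq
    by_contra hne
    apply hγ
    have heq' : g ^ (-m) * γ * g ^ (l m) = g ^ (-m') * γ * g ^ (l m') := heq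
    have hrel : γ * g ^ (l m - l m') * γ⁻¹ = g ^ (m - m') := by
      calc γ * g ^ (l m - l m') * γ⁻¹ =
          g ^ m * (g ^ (-m) * γ * g ^ (l m)) * g ^ (-(l m')) * γ⁻¹ := by
            rw [sub_eq_add_neg, zpow_add]; group
        _ = g ^ (m - m') := by rw [heq', sub_eq_add_neg, zpow_add]; group
    refine ⟨l m - l m', m - m', ?_, sub_ne_zero.mpr hne, hrel⟩
    intro h0
    rw [h0, zpow_zero, mul_one, mul_inv_cancel] at hrel
    exact h.zpow_ne (sub_ne_zero.mpr hne) hrel.symm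
  have hcard : (j - i).natAbs + 1 ≤ {γ : Γ | dist o (γ • o) ≤ c7 o g δ}.ncard := by
    rw [Set.ncard_eq_toFinset_card _ (hprop _), ← Int.card_uIcc]
    apply Finset.card_le_card_of_injOn _ _ hinj
    intro m hm
    simp only [Set.Finite.coe_toFinset]
    exact hl m hm
  have h2 := dist_triangle4 p' (g ^ i • o) (g ^ j • o) q'
  rw [dist_zpow, dist_comm (g ^ j • o) q'] at h2
  have h3 := h.tl_nat_le (j - i).natAbs
  have h4 : ((j - i).natAbs : ℝ) * tl o g 1 ≤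
      ({γ : Γ | dist o (γ • o) ≤ c7 o g δ}.ncard : ℝ) * tl o g 1 := by
    apply mul_le_mul_of_nonneg_right _ (by linarith)
    exact_mod_cast (by omega : (j - i).natAbs ≤ {γ : Γ | dist o (γ • o) ≤ c7 o g δ}.ncard)
  unfold th1
  linarith

lemma proj_bound {A B : Γ ⧸ E g} (hAB : A ≠ B) {p q : X} (hp : p ∈ ax o g B)
    (hq : q ∈ ax o g B) : pd (ax o g A) p q ≤ th1 o g δ := by
  obtain ⟨α, rfl⟩ := QuotientGroup.mk_surjective A
  obtain ⟨β, rfl⟩ := QuotientGroup.mk_surjective B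
  have h1 := pd_smul (ax_ne (o := o) ((1 : Γ) : Γ ⧸ E g)) (ax_coe α) (α⁻¹ • p) (α⁻¹ • q)
  rw [smul_inv_smul, smul_inv_smul] at h1
  change pd (ax o g (α : Γ ⧸ E g)) p q ≤ _
  rw [h1]
  have h2 : ∀ x, x ∈ ax o g (β : Γ ⧸ E g) → α⁻¹ • x ∈ ax o g ((α⁻¹ * β : Γ) : Γ ⧸ E g) := by
    intro x hx
    rw [ax_coe] at hx ⊢
    rw [smul_smul]
    have : (α⁻¹ * β)⁻¹ * α⁻¹ = β⁻¹ := by group
    rw [this]
    exact hx
  apply h.proj_one hprop _ (h2 p hp) (h2 q hq)
  intro hE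
  exact hAB (QuotientGroup.eq.mpr hE)

omit h hprop in
/-- the projection constant -/
noncomputable def th (o : X) (g : Γ) (δ : ℝ) : ℝ := th1 o g δ + 3 * c2 o g δ + 2 * δ + 1

omit hprop in
lemma th1_nonneg : 0 ≤ th1 o g δ := by
  have hδ := h.δ_nonneg
  have hc2 := h.c2_nonneg
  have hc5 := h.c5_nonneg
  have hL := h.tl_ge 1
  push_cast at hL
  have hn : (0 : ℝ) ≤ ({γ : Γ | dist o (γ • o) ≤ c7 o g δ}.ncard : ℝ) * tl o g 1 := by positivity
  unfold th1
  linarith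

lemma closer_ax {A B : Γ ⧸ E g} (hAB : A ≠ B) {p b : X} (hb : b ∈ ax o g B)
    (hd : th o g δ < pd (ax o g A) p b) :
    Metric.infDist p (ax o g A) < Metric.infDist p (ax o g B) := by
  have hδ := h.δ_nonneg
  have hc2 := h.c2_nonneg
  have hth1 := h.th1_nonneg
  have h1 : Metric.infDist p (ax o g A) + 1 ≤ Metric.infDist p (ax o g B) := by
    rw [Metric.le_infDist (ax_ne B)]
    intro b₁ hb₁
    obtain ⟨p', hp'⟩ := (h.qline_ax A).proj p
    obtain ⟨b', hb'⟩ := (h.qline_ax A).proj b₁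
    have h2 := pd_tri (ax_ne (o := o) A) p b₁ b
    have h3 := h.proj_bound hprop hAB hb₁ hb
    unfold th at hd
    have h4 := far_of_pd h.hyp hp' hb' (by linarith)
    have h5 := Metric.infDist_le_dist_of_mem (x := p) hp'.1
    have h6 := dist_nonneg (x := b₁) (y := b')
    linarith
  linarith

lemma fin_ax (p q : X) : {A : Γ ⧸ E g | th o g δ < pd (ax o g A) p q}.Finite := by
  have hδ := h.δ_nonneg
  have hc2 := h.c2_nonneg
  have hth1 := h.th1_nonneg
  apply ((hprop (dist o p + dist p q + 3 * c2 o g δ + 2 * δ)).image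
    (fun γ : Γ => (γ : Γ ⧸ E g))).subset
  intro A hA
  have hA' : th o g δ < pd (ax o g A) p q := hA
  unfold th at hA'
  obtain ⟨p', hp'⟩ := (h.qline_ax A).proj p
  obtain ⟨q', hq'⟩ := (h.qline_ax A).proj q
  have h4 := far_of_pd h.hyp hp' hq' (by linarith)
  obtain ⟨γ, hγ, hx⟩ := hp'.1
  refine ⟨γ, ?_, hγ⟩
  change dist o (γ • o) ≤ _
  rw [hx]
  have h5 := dist_triangle o p p'
  have h6 := dist_nonneg (x := q) (y := q')
  linarith

/-- the projection system of the axes -/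
noncomputable def sys : ProjSys Γ (Γ ⧸ E g) X where
  d A p q := pd (ax o g A) p q
  S := ax o g
  r p A := Metric.infDist p (ax o g A)
  θ := th o g δ
  θpos := by
    have hδ := h.δ_nonneg
    have hc2 := h.c2_nonneg
    have hth1 := h.th1_nonneg
    unfold th
    linarith
  symm A p q := pd_symm (ax_ne A) p q
  tri A p q s := pd_tri (ax_ne A) p q s
  self A p := pd_self (ax_ne A) p
  inv γ A p q := pd_smul (ax_ne A) (ax_smul γ A) p q
  Sinv γ A p hp := by rw [ax_smul, inv_smul_smul]; exact hp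
  Sne := ax_ne
  proj A B p q hAB hp hq := by
    have h1 := h.proj_bound hprop hAB hp hq
    have hδ := h.δ_nonneg
    have hc2 := h.c2_nonneg
    unfold th
    linarith
  beh A B p a b hAB ha hb := by
    by_contra hcon
    push Not at hcon
    have h1 := h.closer_ax hprop hAB hb hcon.1
    have h2 := h.closer_ax hprop hAB.symm ha hcon.2
    linarith
  closer A B p b hAB hb hd := h.closer_ax hprop hAB hb hd
  fin := h.fin_ax hprop

end Lox

end Pool.Agent.Helper97.Hyp
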